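import Pool.Agent.AST.StmtsF

/-!
THEOREM A* (note 1742), module LZQ: a linked alternating map gives a linked relation.
-/

set_option autoImplicit false

namespace Pool.Agent.AST

open Pool.Agent.RFT Pool.Agent.ETG Pool.Agent.RFN

theorem eqq_iff {V B : Type} [AddCommGroup V] [Module (ZMod 2) V] [AddCommGroup B]
    [Module (ZMod 2) B] {q : V →ₗ[ZMod 2] V →ₗ[ZMod 2] B} (hq : LinkedAlt q) (a b c d : V) :
    EqQ (Zq q) a b c d ↔ q a b = q c d := by
  constructor
  · rintro ⟨x, h1, h2, h3⟩
    have e1 : q a b = q a x := eq_of_add_zero (by rw [← map_add]; exact h1)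
    have e2 : q c d = q c x := eq_of_add_zero (by rw [← map_add]; exact h2)
    have e3 : q a x = q c x := eq_of_add_zero (by
      have h3' : q (a + c) x = 0 := h3
      rwa [map_add, LinearMap.add_apply] at h3')
    rw [e1, e2, e3]
  · intro h
    obtain ⟨x, h1, h2⟩ := hq.link a b c d h
    refine ⟨x, ?_, ?_, ?_⟩
    · change q a (b + x) = 0
      rw [map_add, h1, ZModModule.add_self]
    · change q c (d + x) = 0
      rw [map_add, h2, h, ZModModule.add_self]
    · change q (a + c) x = 0
      rw [map_add, LinearMap.add_apply, h1, h2, ZModModule.add_self]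

theorem LZQ : Stmt_LZQ := by
  intro V B _ _ _ _ q hq
  refine ⟨⟨?_, ?_, ?_, ?_, ?_⟩, fun a b c d => eqq_iff hq a b c d⟩
  · intro a b h
    change q b a = 0
    rw [hq.symm]
    exact h
  · intro a
    exact map_zero _
  · intro a b c h h'
    change q a (b + c) = 0
    have h1 : q a b = 0 := h
    have h2 : q a c = 0 := h'
    rw [map_add, h1, h2, add_zero]
  · intro a
    exact hq.alt a
  · intro a b c d a' b' h h'
    rw [eqq_iff hq] at h h' ⊢
    exact h.trans h'

end Pool.Agent.AST
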