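import Pool.Agent.AST.StmtsF
import Pool.Agent.REG10.FN.EOS
import Pool.Agent.REG10.FN.QLZ
import Pool.Agent.REG10.FN.OSP
import Pool.Agent.ETG.QEX

/-!
THEOREM A* (note 1742), module OSS: a relation of elementary type has a decomposition into local
components and components with a rigid element.
-/

set_option autoImplicit false

namespace Pool.Agent.AST

theorem OSS : Stmt_OSS := by
  intro V _ _ Z hZ hE
  obtain ⟨S, hQ⟩ := Pool.Agent.ETG.qex_proof V Z hZ
  exact Pool.Agent.RFN.eos_proof Pool.Agent.RFN.qlz_proof Pool.Agent.RFN.osp_proof S (hE S hQ)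
    hQ.1 V Z hQ

end Pool.Agent.AST
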