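import Pool.Agent.AST.StmtsF
import Pool.Agent.REG10.FN
import Pool.Agent.REG10.FN.QLZ

/-!
THEOREM A* (note 1742), module RED: a minimal structure that is not of elementary type has no
element of rank at most one and no rigid element.
-/

set_option autoImplicit false

namespace Pool.Agent.AST

open QS Pool.Agent.RFT Pool.Agent.ETG Pool.Agent.RFN Pool.Agent.REG10 Pool.Agent.ETCP
open Pool.Agent.ETCR (ext_of_rigid)

/-- the relation of a structure is linked -/
theorem red_lz (T : QStruct) (hneg : T.neg = 1) :
    LZ (fun a b : Additive T.G => T.q (Additive.toMul a) (Additive.toMul b) = T.zero) :=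
  (qlz_proof (Additive T.G) _ T (MulEquiv.refl T.G) hneg fun _ _ => Iff.rfl).1

theorem red_qof (T : QStruct) (hneg : T.neg = 1) :
    QOf (fun a b : Additive T.G => T.q (Additive.toMul a) (Additive.toMul b) = T.zero) T :=
  ⟨hneg, MulEquiv.refl T.G, fun _ _ => Iff.rfl⟩

/-- proper linked subgroups are of elementary type -/
theorem red_sub {V : Type} [AddCommGroup V] [Module (ZMod 2) V] [Finite V] (hsm : Smaller V)
    (S : QStruct) (hneg : S.neg = 1) (φ : Multiplicative V ≃* S.G) (U : Subgroup S.G)
    (h4 : Lsub S U) (hU : U ≠ ⊤) : ElemType (ESL.PRODRECX.sub S hneg U h4) := by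
  have hfin : Finite S.G := Finite.of_equiv _ φ.toEquiv
  let T := ESL.PRODRECX.sub S hneg U h4
  have hTf : Finite (Additive T.G) := (inferInstance : Finite U)
  have hcard : Nat.card (Additive T.G) < Nat.card V := by
    have h5 : Nat.card U ≤ Nat.card S.G := Subgroup.card_le_card_group U
    have h6 : Nat.card U ≠ Nat.card S.G := fun e => hU (Subgroup.eq_top_of_card_eq U e)
    have h7 : Nat.card S.G = Nat.card V := (Nat.card_congr φ.toEquiv).symm
    have h8 : Nat.card (Additive T.G) = Nat.card U := rfl
    omega
  exact hsm (Additive T.G) _ (red_lz T rfl) hcard T (red_qof T rfl)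

theorem red_card {V : Type} [AddCommGroup V] [Module (ZMod 2) V] [Finite V]
    (S : QStruct) (hneg : S.neg = 1) [Finite S.G] {r : S.G} (hr1 : r ≠ 1)
    (hr : ∀ g : S.G, g = 1 ∨ g = r) : (∃ T : QStruct, Iso S (ext T)) ∨ Decomp S := by
  have h4 : Nat.card {x // S.q r x = S.zero} ≤ 4 := by
    have h2 : Nat.card S.G ≤ 2 := by
      classical
      have hs : Function.Surjective (fun b : Bool => if b then (1 : S.G) else r) := by
        intro g
        rcases hr g with h1 | h1
        · exact ⟨true, by simp [h1]⟩
        · exact ⟨false, by simp [h1]⟩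
      calc Nat.card S.G ≤ Nat.card Bool := Nat.card_le_card_of_surjective _ hs
        _ = 2 := by simp
    exact (Finite.card_subtype_le _).trans (by omega)
  exact small S hneg hr1 h4

theorem RED : Stmt_RED := by
  intro V _ _ _ Z hZ hsm hET
  unfold ETZ at hET
  push Not at hET
  obtain ⟨S, ⟨hneg, φ, hφ⟩, hS⟩ := hET
  have hfin : Finite S.G := Finite.of_equiv _ φ.toEquiv
  have hU := red_sub hsm S hneg φ
  have hφ1 : ∀ x : V, x ≠ 0 → φ (Multiplicative.ofAdd x) ≠ 1 := by
    intro x hx h
    have h1 : Multiplicative.ofAdd x = 1 := φ.injective (by rw [h, map_one])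
    exact hx h1
  have hsurj : ∀ g : S.G, ∃ v : V, φ (Multiplicative.ofAdd v) = g := by
    intro g
    obtain ⟨m, hm⟩ := φ.surjective g
    exact ⟨Multiplicative.toAdd m, hm⟩
  constructor
  · intro x hx
    by_contra hx0
    have hs1 := hφ1 x hx0
    apply hS
    by_cases hrad : ∀ v, Z x v
    · -- radical element
      have hr : ∀ g, S.q (φ (Multiplicative.ofAdd x)) g = S.zero := by
        intro g
        obtain ⟨v, rfl⟩ := hsurj g
        exact (hφ x v).2 (hrad v)
      by_cases hg : ∃ g : S.G, g ≠ 1 ∧ g ≠ φ (Multiplicative.ofAdd x)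
      · obtain ⟨g, hg1, hg2⟩ := hg
        exact elem_of_ed S hneg hU (Or.inr (decomp_of_degenerate S hneg hs1 hr hg1 hg2))
      · push Not at hg
        refine elem_of_ed S hneg hU (red_card (V := V) S hneg hs1 fun g => ?_)
        by_cases h : g = 1
        · exact Or.inl h
        · exact Or.inr (hg g h)
    · push Not at hrad
      obtain ⟨y, hy⟩ := hrad
      have hc : S.q (φ (Multiplicative.ofAdd x)) (φ (Multiplicative.ofAdd y)) ≠ S.zero :=
        fun h => hy ((hφ x y).1 h)
      have hx' : ∀ g, S.q (φ (Multiplicative.ofAdd x)) g = S.zero ∨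
          S.q (φ (Multiplicative.ofAdd x)) g =
            S.q (φ (Multiplicative.ofAdd x)) (φ (Multiplicative.ofAdd y)) := by
        intro g
        obtain ⟨v, rfl⟩ := hsurj g
        rcases hx y v with h | h | h
        · exact absurd h hy
        · exact Or.inl ((hφ x v).2 h)
        · right
          refine ((S.qs3 _ _ _).2 ?_).symm
          have h1 := (hφ x (y + v)).2 h
          rw [ofAdd_add, map_mul] at h1
          exact h1
      rcases rk1 S hneg hc hx' ⟨_, rfl⟩ with h | h | ⟨hnd, h2⟩ | ⟨U, h4, hlt, h5⟩
      · exact elem_of_ed S hneg hU (Or.inl h)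
      · exact elem_of_ed S hneg hU (Or.inr h)
      · by_cases h8 : 8 ≤ Nat.card S.G
        · exact ElemType.loc S inferInstance h8 hnd h2
        · exact elem_of_ed S hneg hU (card_four S hneg h8 hs1)
      · refine elem_of_ed S hneg hU (h5 (hU U h4 ?_))
        rintro rfl
        exact absurd hlt (by rw [Subgroup.card_top]; exact lt_irrefl _)
  · intro t ht
    by_contra hno
    push Not at hno
    apply hS
    refine elem_of_ed S hneg hU (Or.inl (ext_of_rigid S hneg (hφ1 t ht) ?_))
    intro g hg
    obtain ⟨v, rfl⟩ := hsurj g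
    by_cases hv : v = 0
    · left
      rw [hv]
      exact map_one φ
    · right
      rw [hno v ((hφ t v).1 hg) hv]

end Pool.Agent.AST
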