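import Pool.Agent.AST.LZQ
import Pool.Agent.ETG.QPR
import Pool.Agent.ETG.QEX
import Pool.Agent.ETG.QIS

/-!
THEOREM A* (note 1742), module SPL: a linked structure with a proper orthogonal decomposition with
disjoint values is a product of two smaller linked structures.
-/

set_option autoImplicit false

namespace Pool.Agent.AST

open Pool.Agent.RFT Pool.Agent.ETG Pool.Agent.RFN

section
variable {V B : Type} [AddCommGroup V] [Module (ZMod 2) V] [AddCommGroup B] [Module (ZMod 2) B]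

/-- the restriction to an orthogonal summand is linked -/
theorem linked_summand {q : V →ₗ[ZMod 2] V →ₗ[ZMod 2] B} (hq : LinkedAlt q)
    {A A' : Submodule (ZMod 2) V} (hc : IsCompl A A') (h0 : ∀ a ∈ A, ∀ a' ∈ A', q a a' = 0) :
    LinkedAlt (q.domRestrict₁₂ A A) := by
  refine ⟨fun x => hq.alt x, fun a b c d h => ?_⟩
  obtain ⟨x, h1, h2⟩ := hq.link (a : V) b c d h
  have hx : x ∈ A ⊔ A' := by
    rw [hc.sup_eq_top]
    trivial
  obtain ⟨y, hy, z, hz, rfl⟩ := Submodule.mem_sup.1 hx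
  refine ⟨⟨y, hy⟩, ?_, ?_⟩
  · rw [map_add, h0 a a.2 z hz, add_zero] at h1
    exact h1
  · rw [map_add, h0 c c.2 z hz, add_zero] at h2
    exact h2

theorem card_lt_of_ne_bot [Finite V] {A A' : Submodule (ZMod 2) V} (hc : IsCompl A A')
    (hA' : A' ≠ ⊥) : Nat.card A < Nat.card V := by
  obtain ⟨v, hv, hv0⟩ := Submodule.exists_mem_ne_zero_of_ne_bot hA'
  classical
  have := Fintype.ofFinite V
  rw [Nat.card_eq_fintype_card, Nat.card_eq_fintype_card]
  refine Fintype.card_lt_of_injective_of_notMem (Subtype.val : A → V)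
    Subtype.val_injective (b := v) ?_
  rintro ⟨w, rfl⟩
  exact hv0 (Submodule.disjoint_def.1 hc.disjoint _ w.2 hv)

end

theorem SPL : Stmt_SPL := by
  intro V B _ _ _ _ _ q hq hsm hsp
  obtain ⟨A, A', hc, hA, hA', h0, hd⟩ := hsp
  have h0' : ∀ a ∈ A', ∀ a' ∈ A, q a a' = 0 := by
    intro a ha a' ha'
    rw [hq.symm]
    exact h0 a' ha' a ha
  have l1 := linked_summand hq hc h0
  have l2 := linked_summand hq hc.symm h0'
  have z1 := (LZQ A B _ l1).1
  have z2 := (LZQ A' B _ l2).1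
  have e1 := hsm A _ z1 (card_lt_of_ne_bot hc hA')
  have e2 := hsm A' _ z2 (card_lt_of_ne_bot hc.symm hA)
  refine qpr_proof qex_proof qis_proof V A A' (Zq q) _ _
    (Submodule.prodEquivOfIsCompl A A' hc).symm.toAddEquiv z1 z2 ?_ e1 e2
  intro a b
  obtain ⟨⟨a1, a2⟩, rfl⟩ := (Submodule.prodEquivOfIsCompl A A' hc).surjective a
  obtain ⟨⟨b1, b2⟩, rfl⟩ := (Submodule.prodEquivOfIsCompl A A' hc).surjective b
  have hs : ∀ p : A × A', (Submodule.prodEquivOfIsCompl A A' hc).symm.toAddEquiv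
      ((Submodule.prodEquivOfIsCompl A A' hc) p) = p := fun p =>
    (Submodule.prodEquivOfIsCompl A A' hc).symm_apply_apply p
  rw [hs, hs]
  have hv : ∀ p : A × A', (Submodule.prodEquivOfIsCompl A A' hc) p = (p.1 : V) + (p.2 : V) :=
    fun p => by simp
  rw [hv, hv]
  show q _ _ = 0 ↔ q (a1 : V) (b1 : V) = 0 ∧ q (a2 : V) (b2 : V) = 0
  have hex : q ((a1 : V) + (a2 : V)) ((b1 : V) + (b2 : V)) =
      q (a1 : V) (b1 : V) + q (a2 : V) (b2 : V) := by
    rw [map_add (q ((a1 : V) + (a2 : V))), map_add q, LinearMap.add_apply, LinearMap.add_apply,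
      h0 a1 a1.2 b2 b2.2, h0' a2 a2.2 b1 b1.2, add_zero, zero_add]
  show q ((a1 : V) + (a2 : V)) ((b1 : V) + (b2 : V)) = 0 ↔ _
  rw [hex]
  constructor
  · intro h
    have h1 := eq_of_add_zero h
    have h2 := hd a1 a1.2 b1 b1.2 a2 a2.2 b2 b2.2 h1
    exact ⟨h2, by rw [← h1, h2]⟩
  · rintro ⟨h1, h2⟩
    rw [h1, h2, add_zero]

end Pool.Agent.AST
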