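import Pool.Agent.AST.StmtsF
import Pool.Agent.ETCISO.Linked
import Pool.Agent.REG10.FN.QLZ

/-!
THEOREM A* (note 1742) for quaternionic structures with `-1 = 1`.
-/

set_option autoImplicit false

namespace Pool.Agent.AST

open QS Pool.Agent.RFT Pool.Agent.ETG Pool.Agent.RFN
open Pool.Agent.Helper58.PLine (QData)

/-- A subgroup `H` of index two is prime if `V_x ∩ V_y` is not contained in `H` as soon as none of
`V_x, V_y, V_{xy}` is contained in `H` (`V_x = {v : q(x, v) = 0}`).  Equivalently the pairing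
`G × H → Q` is linked on the left. -/
def PrimeHyp (S : QStruct) (H : Subgroup S.G) : Prop :=
  H.index = 2 ∧ ∀ x y : S.G, (∃ v, v ∉ H ∧ S.q x v = S.zero) → (∃ v, v ∉ H ∧ S.q y v = S.zero) →
    (∃ v, v ∉ H ∧ S.q (x * y) v = S.zero) → ∃ v, v ∉ H ∧ S.q x v = S.zero ∧ S.q y v = S.zero

/-- An element `x ≠ 1` is isolated if `V_v` is contained in `{1, v} V_x` for all `v` outside
`V_x`. -/
def Isolated (S : QStruct) (x : S.G) : Prop :=
  x ≠ 1 ∧ ∀ v, S.q x v ≠ S.zero → ∀ w, S.q v w = S.zero →
    S.q x w = S.zero ∨ S.q x (v * w) = S.zero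

/-- the relation `q (a, b) = 0` -/
def ZS (S : QStruct) (a b : Additive S.G) : Prop :=
  S.q (Additive.toMul a) (Additive.toMul b) = S.zero

theorem qof (S : QStruct) (hneg : S.neg = 1) : QOf (ZS S) S :=
  ⟨hneg, MulEquiv.refl S.G, fun _ _ => Iff.rfl⟩

theorem lzs (S : QStruct) (hneg : S.neg = 1) : LZ (ZS S) :=
  (qlz_proof (Additive S.G) (ZS S) S (MulEquiv.refl S.G) hneg fun _ _ => Iff.rfl).1

theorem smaller (S : QStruct) (hT : ∀ T : QStruct, Finite T.G → T.neg = 1 →
    Nat.card T.G < Nat.card S.G → ElemType T) : Smaller (Additive S.G) := by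
  intro U _ _ hf ZU _ hc T hT'
  obtain ⟨h1, e, -⟩ := hT'
  have e' : U ≃ T.G := Multiplicative.ofAdd.trans e.toEquiv
  refine hT T (Finite.of_equiv U e') h1 ?_
  rw [← Nat.card_congr e']
  exact hc

theorem prime_fun (S : QStruct) (H : Subgroup S.G) (h : PrimeHyp S H) :
    ∃ φ, PrimeZ (ZS S) φ := by
  obtain ⟨h2, h3⟩ := h
  have hmul : ∀ a b : S.G, a ∉ H → b ∉ H → a * b ∈ H := fun a b ha hb =>
    (Subgroup.mul_mem_iff_of_index_two h2).2 (iff_of_false ha hb)
  classical
  let f : Additive S.G →+ ZMod 2 :=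
    { toFun := fun a => if Additive.toMul a ∈ H then 0 else 1
      map_zero' := by
        show (if (1 : S.G) ∈ H then (0 : ZMod 2) else 1) = 0
        rw [if_pos H.one_mem]
      map_add' := by
        intro a b
        show (if Additive.toMul a * Additive.toMul b ∈ H then (0 : ZMod 2) else 1) = _
        by_cases ha : Additive.toMul a ∈ H <;> by_cases hb : Additive.toMul b ∈ H
        · rw [if_pos ha, if_pos hb, if_pos (H.mul_mem ha hb), add_zero]
        · rw [if_pos ha, if_neg hb, if_neg, zero_add]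
          intro h
          exact hb ((Subgroup.mul_mem_iff_of_index_two h2).1 h |>.1 ha)
        · rw [if_neg ha, if_pos hb, if_neg, add_zero]
          intro h
          exact ha ((Subgroup.mul_mem_iff_of_index_two h2).1 h |>.2 hb)
        · rw [if_neg ha, if_neg hb, if_pos (hmul _ _ ha hb)]
          decide }
  let φ : Additive S.G →ₗ[ZMod 2] ZMod 2 := f.toZModLinearMap 2
  have hφ : ∀ a, φ a = 1 ↔ Additive.toMul a ∉ H := by
    intro a
    show (if Additive.toMul a ∈ H then (0 : ZMod 2) else 1) = 1 ↔ _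
    split_ifs with h
    · exact ⟨fun h' => absurd h' (by decide), fun h' => absurd h h'⟩
    · exact ⟨fun _ => h, fun _ => rfl⟩
  refine ⟨φ, ?_, ?_⟩
  · intro h0
    have hH : H ≠ ⊤ := by
      rintro rfl
      rw [Subgroup.index_top] at h2
      exact absurd h2 (by norm_num)
    apply hH
    rw [Subgroup.eq_top_iff']
    intro a
    by_contra ha
    have := (hφ (Additive.ofMul a)).2 ha
    rw [h0, LinearMap.zero_apply] at this
    exact absurd this (by decide)
  · rintro x y ⟨v, h4, h5⟩ ⟨v', h6, h7⟩ ⟨v'', h8, h9⟩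
    obtain ⟨u, h10, h11, h12⟩ := h3 (Additive.toMul x) (Additive.toMul y)
      ⟨Additive.toMul v, (hφ v).1 h5, h4⟩ ⟨Additive.toMul v', (hφ v').1 h7, h6⟩
      ⟨Additive.toMul v'', (hφ v'').1 h9, h8⟩
    exact ⟨Additive.ofMul u, h11, h12, (hφ (Additive.ofMul u)).2 h10⟩

/-- Theorem A*: a prime hyperplane -/
theorem top_prime (hA : Stmt_ASZ) (S : QStruct) [Finite S.G] (hneg : S.neg = 1)
    (hT : ∀ T : QStruct, Finite T.G → T.neg = 1 → Nat.card T.G < Nat.card S.G → ElemType T)
    (h : ∃ H, PrimeHyp S H) : ElemType S := by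
  obtain ⟨H, hH⟩ := h
  exact hA (Additive S.G) (ZS S) (lzs S hneg) (smaller S hT) (prime_fun S H hH) S (qof S hneg)

/-- the quaternionic data of a structure with `-1 = 1` -/
def toD (S : QStruct) (hneg : S.neg = 1) : QData (Additive S.G) S.Q where
  q := fun x y => S.q (Additive.toMul x) (Additive.toMul y)
  z := S.zero
  e := 0
  symm := fun x y => S.qs2 _ _
  add := fun x y w => S.qs3 _ _ _
  diag := by
    intro x
    have h := S.qs1 (Additive.toMul x)
    rw [hneg, one_mul] at h
    rw [add_zero]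
    exact h
  link := by
    intro a b c d h
    obtain ⟨x, h1, h2⟩ := S.qs4 _ _ _ _ h
    exact ⟨Additive.ofMul x, h1, h2⟩

/-- an isolated element -/
theorem top_iso (hA : Stmt_ASZ) (hR : Stmt_RED) (S : QStruct) [Finite S.G] (hneg : S.neg = 1)
    (hT : ∀ T : QStruct, Finite T.G → T.neg = 1 → Nat.card T.G < Nat.card S.G → ElemType T)
    (h : ∃ x, Isolated S x) : ElemType S := by
  by_contra hS
  have hET : ¬ ETZ (ZS S) := fun h' => hS (h' S (qof S hneg))
  obtain ⟨h1, -⟩ := hR (Additive S.G) (ZS S) (lzs S hneg) (smaller S hT) hET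
  obtain ⟨x, hx1, hx⟩ := h
  have h2 : ¬ ∀ v w, ZS S (Additive.ofMul x) v ∨ ZS S (Additive.ofMul x) w ∨
      ZS S (Additive.ofMul x) (v + w) := fun h3 => hx1 (h1 (Additive.ofMul x) h3)
  push Not at h2
  obtain ⟨v, w, h3, h4, h5⟩ := h2
  obtain ⟨φ, hφ0, -, hφ⟩ := ETCISO.prime_of_isolated (S := toD S hneg) (x := Additive.ofMul x) rfl
    (by
      intro a ha b hab
      have := hx (Additive.toMul a) ha (Additive.toMul b) hab
      rw [mul_comm] at this
      exact this)
    ⟨v, w, h3, h4, h5⟩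
  exact hET (hA (Additive S.G) (ZS S) (lzs S hneg) (smaller S hT) ⟨φ, hφ0, hφ⟩)

/-! ### Structures of elementary type have isolated elements -/

theorem iso_transport {S T : QStruct} (h : Iso S T) (hx : ∃ x, Isolated S x) :
    ∃ x, Isolated T x := by
  obtain ⟨e, -, h1⟩ := h
  obtain ⟨x, hx1, hx2⟩ := hx
  have hz : ∀ a b, S.q a b = S.zero ↔ T.q (e a) (e b) = T.zero := by
    intro a b
    have := h1 a b 1 1
    rwa [S.q_one, map_one, T.q_one] at this
  refine ⟨e x, fun h => hx1 (e.injective (h.trans (map_one e).symm)), fun v hv w hw => ?_⟩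
  obtain ⟨v, rfl⟩ := e.surjective v
  obtain ⟨w, rfl⟩ := e.surjective w
  rw [ne_eq, ← hz] at hv
  rw [← hz] at hw
  rw [← map_mul, ← hz, ← hz]
  exact hx2 v hv w hw

theorem iso_prod_left {S T : QStruct} (hx : ∃ x, Isolated S x) :
    ∃ x, Isolated (QS.prod S T) x := by
  obtain ⟨x, hx1, hx2⟩ := hx
  refine ⟨(x, 1), fun h => hx1 (congrArg Prod.fst h), fun v hv w hw => ?_⟩
  have h1 : S.q x v.1 ≠ S.zero := by
    intro h
    apply hv
    exact Prod.ext h (by
      show T.q 1 v.2 = T.zero
      rw [T.qs2, T.q_one])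
  have h2 : S.q v.1 w.1 = S.zero := congrArg Prod.fst hw
  rcases hx2 v.1 h1 w.1 h2 with h | h
  · exact Or.inl (Prod.ext h (by
      show T.q 1 w.2 = T.zero
      rw [T.qs2, T.q_one]))
  · exact Or.inr (Prod.ext h (by
      show T.q 1 (v.2 * w.2) = T.zero
      rw [T.qs2, T.q_one]))

theorem iso_prod_right {S T : QStruct} (hx : ∃ x, Isolated T x) :
    ∃ x, Isolated (QS.prod S T) x := by
  obtain ⟨x, hx1, hx2⟩ := hx
  refine ⟨(1, x), fun h => hx1 (congrArg Prod.snd h), fun v hv w hw => ?_⟩
  have h1 : T.q x v.2 ≠ T.zero := by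
    intro h
    apply hv
    exact Prod.ext (by
      show S.q 1 v.1 = S.zero
      rw [S.qs2, S.q_one]) h
  have h2 : T.q v.2 w.2 = T.zero := congrArg Prod.snd hw
  rcases hx2 v.2 h1 w.2 h2 with h | h
  · exact Or.inl (Prod.ext (by
      show S.q 1 w.1 = S.zero
      rw [S.qs2, S.q_one]) h)
  · exact Or.inr (Prod.ext (by
      show S.q 1 (v.1 * w.1) = S.zero
      rw [S.qs2, S.q_one]) h)

theorem ext_zero_iff (S : QStruct) (u v : (QS.ext S).G) :
    (QS.ext S).q u v = (QS.ext S).zero ↔ extMap S u v = (S.zero, 1) := Subtype.ext_iff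

theorem iso_ext {S : QStruct} (hneg : S.neg = 1) (hx : ∃ x, Isolated S x) :
    ∃ x, Isolated (QS.ext S) x := by
  obtain ⟨x, hx1, hx2⟩ := hx
  refine ⟨(x, 1), fun h => hx1 (congrArg Prod.fst h), ?_⟩
  rintro ⟨b, β⟩ hv ⟨c, γ⟩ hw
  rw [ne_eq, ext_zero_iff] at hv
  rw [ext_zero_iff] at hw
  rw [ext_zero_iff, ext_zero_iff]
  rcases two_cases β with rfl | rfl
  · rw [extMap_one_one] at hv
    have hv' : S.q x b ≠ S.zero := fun h => hv (Prod.ext h rfl)
    rcases two_cases γ with rfl | rfl
    · rw [extMap_one_one] at hw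
      rcases hx2 b hv' c (congrArg Prod.fst hw) with h | h
      · left
        rw [extMap_one_one]
        exact Prod.ext h rfl
      · right
        show extMap S (x, 1) (b * c, 1 * 1) = _
        rw [mul_one, extMap_one_one]
        exact Prod.ext h rfl
    · exfalso
      have h2 : (extMap S (b, 1) (c, Multiplicative.ofAdd 1)).2 = 1 := congrArg Prod.snd hw
      have h3 : b = 1 := by
        simpa [extMap, hneg, ZMod.val_one] using h2
      rw [h3, S.q_one] at hv'
      exact hv' rfl
  · rcases two_cases γ with rfl | rfl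
    · left
      have h2 : (extMap S (b, Multiplicative.ofAdd 1) (c, 1)).2 = 1 := congrArg Prod.snd hw
      have h3 : c = 1 := by
        simpa [extMap, hneg, ZMod.val_one] using h2
      rw [h3, extMap_one_one, S.q_one]
    · right
      have h2 : (extMap S (b, Multiplicative.ofAdd 1) (c, Multiplicative.ofAdd 1)).2 = 1 :=
        congrArg Prod.snd hw
      have h3 : b * c = 1 := by
        simpa [extMap, hneg, ZMod.val_one] using h2
      show extMap S (x, 1) (b * c, Multiplicative.ofAdd 1 * Multiplicative.ofAdd 1) = _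
      rw [h3, show (Multiplicative.ofAdd (1 : ZMod 2) * Multiplicative.ofAdd 1) = 1 from by decide,
        extMap_one_one, S.q_one]

theorem elem_isolated {S : QStruct} (h : ElemType S) : S.neg = 1 → (∃ g : S.G, g ≠ 1) →
    ∃ x, Isolated S x := by
  induction h with
  | L0 S h =>
    rintro - ⟨g, hg⟩
    exfalso
    have := (Nat.card_eq_one_iff_unique.1 h).1
    exact hg (Subsingleton.elim _ _)
  | L10 S h h1 h2 =>
    rintro - ⟨g, hg⟩
    exact ⟨g, hg, fun v hv => absurd (h2 g v) hv⟩
  | L11 S h h1 h2 => exact fun h => absurd h h1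
  | L1 S h h1 h2 => exact fun h => absurd h h1
  | loc S hf h h1 h2 =>
    rintro - ⟨g, hg⟩
    refine ⟨g, hg, fun v hv w _ => ?_⟩
    by_cases hw : S.q g w = S.zero
    · exact Or.inl hw
    · right
      rw [← S.qs3]
      have hf : Finite S.Q := Nat.finite_of_card_ne_zero (by rw [h2]; norm_num)
      by_contra hne
      have h3 : 3 ≤ Nat.card S.Q := by
        classical
        have := Fintype.ofFinite S.Q
        rw [Nat.card_eq_fintype_card]
        have h4 : ({S.zero, S.q g v, S.q g w} : Finset S.Q).card = 3 := by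
          rw [Finset.card_insert_of_notMem, Finset.card_insert_of_notMem,
            Finset.card_singleton]
          · simpa using hne
          · simp only [Finset.mem_insert, Finset.mem_singleton, not_or]
            exact ⟨fun h => hv h.symm, fun h => hw h.symm⟩
        rw [← h4]
        exact Finset.card_le_univ _
      omega
  | prod S T _ _ ihS ihT =>
    rintro hneg ⟨g, hg⟩
    have h1 : S.neg = 1 := congrArg Prod.fst hneg
    have h2 : T.neg = 1 := congrArg Prod.snd hneg
    by_cases h3 : g.1 = 1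
    · exact iso_prod_right (ihT h2 ⟨g.2, fun h => hg (Prod.ext h3 h)⟩)
    · exact iso_prod_left (ihS h1 ⟨g.1, h3⟩)
  | ext S _ ih =>
    rintro hneg -
    have h1 : S.neg = 1 := congrArg Prod.fst hneg
    by_cases h2 : ∃ g : S.G, g ≠ 1
    · exact iso_ext h1 (ih h1 h2)
    · push Not at h2
      refine ⟨((1 : S.G), Multiplicative.ofAdd (1 : ZMod 2)), ?_, ?_⟩
      · intro h
        have h3 : Multiplicative.ofAdd (1 : ZMod 2) = 1 := congrArg Prod.snd h
        exact absurd h3 (by decide)
      · rintro ⟨b, β⟩ hv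
        exfalso
        apply hv
        rw [ext_zero_iff, h2 b]
        exact Prod.ext (by show S.q 1 1 = S.zero; rw [S.q_one]) (by simp [extMap, h1])
  | iso S T h1 _ ih =>
    rintro hneg ⟨g, hg⟩
    obtain ⟨e, he, he'⟩ := h1
    refine iso_transport ⟨e, he, he'⟩ (ih ?_ ⟨e.symm g, fun h => hg ?_⟩)
    · exact e.injective (by rw [he, hneg, map_one])
    · rw [← e.apply_symm_apply g, h, map_one]

/-- induction -/
theorem all_of {P : QStruct → Prop}
    (h : ∀ S : QStruct, Finite S.G → S.neg = 1 → (∀ T : QStruct, Finite T.G → T.neg = 1 →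
      Nat.card T.G < Nat.card S.G → ElemType T) → P S → ElemType S)
    (hP : ∀ S : QStruct, Finite S.G → S.neg = 1 → (∃ g : S.G, g ≠ 1) → P S) :
    ∀ S : QStruct, Finite S.G → S.neg = 1 → ElemType S := by
  have key : ∀ n, ∀ S : QStruct, Finite S.G → S.neg = 1 → Nat.card S.G = n → ElemType S := by
    intro n
    induction n using Nat.strong_induction_on with
    | _ n ih =>
      intro S hf hneg hn
      by_cases h1 : ∃ g : S.G, g ≠ 1
      · refine h S hf hneg (fun T hT hT' hc => ?_) (hP S hf hneg h1)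
        exact ih (Nat.card T.G) (by omega) T hT hT' rfl
      · push Not at h1
        refine ElemType.L0 S ?_
        rw [Nat.card_eq_one_iff_unique]
        exact ⟨⟨fun a b => (h1 a).trans (h1 b).symm⟩, ⟨1⟩⟩
  exact fun S hf hneg => key _ S hf hneg rfl

/-- The four statements of Theorem A*. -/
theorem final (hA : Stmt_ASZ) (hR : Stmt_RED) :
    (∀ S : QStruct, Finite S.G → S.neg = 1 → (∀ T : QStruct, Finite T.G → T.neg = 1 →
      Nat.card T.G < Nat.card S.G → ElemType T) → (∃ H, PrimeHyp S H) → ElemType S) ∧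
    (∀ S : QStruct, Finite S.G → S.neg = 1 → (∀ T : QStruct, Finite T.G → T.neg = 1 →
      Nat.card T.G < Nat.card S.G → ElemType T) → (∃ x, Isolated S x) → ElemType S) ∧
    ((∀ S : QStruct, Finite S.G → S.neg = 1 → (∃ g : S.G, g ≠ 1) → ∃ H, PrimeHyp S H) →
      ∀ S : QStruct, Finite S.G → S.neg = 1 → ElemType S) ∧
    ((∀ S : QStruct, Finite S.G → S.neg = 1 → ElemType S) ↔
      ∀ S : QStruct, Finite S.G → S.neg = 1 → (∃ g : S.G, g ≠ 1) → ∃ x, Isolated S x) := by
  have h1 : ∀ S : QStruct, Finite S.G → S.neg = 1 → (∀ T : QStruct, Finite T.G → T.neg = 1 →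
      Nat.card T.G < Nat.card S.G → ElemType T) → (∃ H, PrimeHyp S H) → ElemType S :=
    fun S hf hneg hT h => top_prime hA S hneg hT h
  have h2 : ∀ S : QStruct, Finite S.G → S.neg = 1 → (∀ T : QStruct, Finite T.G → T.neg = 1 →
      Nat.card T.G < Nat.card S.G → ElemType T) → (∃ x, Isolated S x) → ElemType S :=
    fun S hf hneg hT h => top_iso hA hR S hneg hT h
  exact ⟨h1, h2, fun h => all_of h1 h, fun h S hf hneg hg => elem_isolated (h S hf hneg) hneg hg,
    fun h => all_of h2 h⟩

end Pool.Agent.AST
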