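import Pool.Agent.AST.Defs

/-!
THEOREM A* (note 1742): statements of the modules of the core.  Recipes: /team-store/MP_d26ff6_AST.md
Every module proves one `Stmt_XXX` as `theorem XXX : Stmt_XXX`, in Pool/Agent/AST/XXX.lean.
-/

set_option autoImplicit false

namespace Pool.Agent.AST

open scoped BigOperators
open Pool.Agent.RFT

/-- Lemma 0: in a finite linked structure the set of slots determines the symbol -/
def Stmt_LEM0 : Prop := ∀ (U B : Type) [AddCommGroup U] [Module (ZMod 2) U] [AddCommGroup B]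
  [Module (ZMod 2) B] [Finite U] (q : U →ₗ[ZMod 2] U →ₗ[ZMod 2] B), LinkedAlt q → ∀ c c' : B,
  (∀ x, (∃ y, q x y = c) ↔ ∃ y, q x y = c') → (∃ x y, q x y = c) → c = c'

/-- symbols of `H` have components -/
def Stmt_SYM : Prop := ∀ (V B : Type) [AddCommGroup V] [Module (ZMod 2) V] [AddCommGroup B]
  [Module (ZMod 2) B] (q : V →ₗ[ZMod 2] V →ₗ[ZMod 2] B) (φ : V →ₗ[ZMod 2] ZMod 2), Sit q φ →
  ∀ (k : ℕ) (C : HC q φ k),
  (∀ x y x' y', φ x = 0 → φ y = 0 → φ x' = 0 → φ y' = 0 → q x y = q x' y' →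
    ∀ j, q (C.p j x) (C.p j y) = q (C.p j x') (C.p j y')) ∧
  (∀ x y, φ x = 0 → φ y = 0 → q x y = ∑ j, q (C.p j x) (C.p j y)) ∧
  (∀ x y g, φ x = 0 → φ y = 0 → φ g = 0 → (QH q φ g (q x y) ↔
    ∀ j, QH q φ (C.p j g) (q (C.p j x) (C.p j y)))) ∧
  (∀ j v y, C.p j v = v → φ y = 0 → q v y = q v (C.p j y))

/-- a local component has one value `e` -/
def Stmt_LOC : Prop := ∀ (V B : Type) [AddCommGroup V] [Module (ZMod 2) V] [AddCommGroup B]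
  [Module (ZMod 2) B] (q : V →ₗ[ZMod 2] V →ₗ[ZMod 2] B) (φ : V →ₗ[ZMod 2] ZMod 2), Sit q φ →
  ∀ (k : ℕ) (C : HC q φ k) (i : Fin k), C.Loc i → ∃ e, e ≠ 0 ∧
  (∀ v w, φ w = 0 → q (C.p i v) w = 0 ∨ q (C.p i v) w = e) ∧
  ∀ v, C.p i v ≠ 0 → ∃ w, C.p i w = w ∧ q (C.p i v) w = e

/-- a component with a rigid element: `t + D`; if it is not local the rigid elements have rank
at least two -/
def Stmt_EXT : Prop := ∀ (V B : Type) [AddCommGroup V] [Module (ZMod 2) V] [AddCommGroup B]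
  [Module (ZMod 2) B] [Finite V] (q : V →ₗ[ZMod 2] V →ₗ[ZMod 2] B) (φ : V →ₗ[ZMod 2] ZMod 2),
  Sit q φ → ∀ (k : ℕ) (C : HC q φ k) (j : Fin k), C.Ext j →
  (∃ (τ : V →ₗ[ZMod 2] ZMod 2) (t : V), C.p j t = t ∧ τ t = 1 ∧
    ∀ v, C.p j v = v → τ v = 1 → C.Rg j v) ∧
  (¬ C.Loc j → ∀ v, C.Rg j v → ∃ y y', C.p j y = y ∧ C.p j y' = y' ∧ q v y ≠ 0 ∧ q v y' ≠ 0 ∧
    q v y ≠ q v y')

/-- Proposition 1, some component is local -/
def Stmt_P1L : Prop := ∀ (V B : Type) [AddCommGroup V] [Module (ZMod 2) V] [AddCommGroup B]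
  [Module (ZMod 2) B] [Finite V] (q : V →ₗ[ZMod 2] V →ₗ[ZMod 2] B) (φ : V →ₗ[ZMod 2] ZMod 2),
  Sit q φ → ∀ (k : ℕ) (C : HC q φ k) (i : Fin k), C.Loc i → P1 q φ

/-- Lemma 2: no total element is in `N` -/
def Stmt_LEM2 : Prop := ∀ (V B : Type) [AddCommGroup V] [Module (ZMod 2) V] [AddCommGroup B]
  [Module (ZMod 2) B] [Finite V] (q : V →ₗ[ZMod 2] V →ₗ[ZMod 2] B) (φ : V →ₗ[ZMod 2] ZMod 2),
  Sit q φ → ∀ (k : ℕ) (C : HC q φ k), (∀ j, C.Ext j ∧ ¬ C.Loc j) → ∀ x, C.Tot x → ¬ NN q φ x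

/-- Proposition 1, no component is local -/
def Stmt_P1E : Prop := ∀ (V B : Type) [AddCommGroup V] [Module (ZMod 2) V] [AddCommGroup B]
  [Module (ZMod 2) B] [Finite V] (q : V →ₗ[ZMod 2] V →ₗ[ZMod 2] B) (φ : V →ₗ[ZMod 2] ZMod 2),
  Sit q φ → ∀ (k : ℕ) (C : HC q φ k), (∀ j, C.Ext j ∧ ¬ C.Loc j) →
  (∀ x, C.Tot x → ¬ NN q φ x) → P1 q φ

/-- steps (2), (3) -/
def Stmt_P23 : Prop := ∀ (V B : Type) [AddCommGroup V] [Module (ZMod 2) V] [AddCommGroup B]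
  [Module (ZMod 2) B] (q : V →ₗ[ZMod 2] V →ₗ[ZMod 2] B) (φ : V →ₗ[ZMod 2] ZMod 2), Sit q φ →
  P1 q φ → P2 q φ ∧ P3 q φ

/-- step (4), counting -/
def Stmt_CNT : Prop := ∀ (V B : Type) [AddCommGroup V] [Module (ZMod 2) V] [AddCommGroup B]
  [Module (ZMod 2) B] [Finite V] (q : V →ₗ[ZMod 2] V →ₗ[ZMod 2] B) (φ : V →ₗ[ZMod 2] ZMod 2),
  Sit q φ → P2 q φ → P3 q φ → P4 q φ

/-- saturation of `N` -/
def Stmt_INN : Prop := ∀ (V B : Type) [AddCommGroup V] [Module (ZMod 2) V] [AddCommGroup B]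
  [Module (ZMod 2) B] [Finite V] (q : V →ₗ[ZMod 2] V →ₗ[ZMod 2] B) (φ : V →ₗ[ZMod 2] ZMod 2),
  Sit q φ → P2 q φ → P4 q φ → P5 q φ

/-- steps (5), (6), (7): the decomposition `V = N + V'` -/
def Stmt_DCP : Prop := ∀ (V B : Type) [AddCommGroup V] [Module (ZMod 2) V] [AddCommGroup B]
  [Module (ZMod 2) B] (q : V →ₗ[ZMod 2] V →ₗ[ZMod 2] B) (φ : V →ₗ[ZMod 2] ZMod 2), Sit q φ →
  P2 q φ → P3 q φ → P4 q φ → P5 q φ → Splits q

/-- the core of Theorem A* -/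
def Stmt_CORE : Prop := ∀ (V B : Type) [AddCommGroup V] [Module (ZMod 2) V] [AddCommGroup B]
  [Module (ZMod 2) B] [Finite V] (q : V →ₗ[ZMod 2] V →ₗ[ZMod 2] B) (φ : V →ₗ[ZMod 2] ZMod 2),
  Sit q φ → ∀ (k : ℕ) (C : HC q φ k), (∀ j, C.Loc j ∨ C.Ext j) → Splits q

theorem core_of (h1 : Stmt_P1L) (h2 : Stmt_LEM2) (h3 : Stmt_P1E) (h4 : Stmt_P23) (h5 : Stmt_CNT)
    (h6 : Stmt_INN) (h7 : Stmt_DCP) : Stmt_CORE := by
  intro V B _ _ _ _ _ q φ hS k C hC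
  have hP1 : P1 q φ := by
    by_cases h : ∃ i, C.Loc i
    · obtain ⟨i, hi⟩ := h
      exact h1 V B q φ hS k C i hi
    · have h' : ∀ j, C.Ext j ∧ ¬ C.Loc j := fun j =>
        ⟨(hC j).resolve_left fun hj => h ⟨j, hj⟩, fun hj => h ⟨j, hj⟩⟩
      exact h3 V B q φ hS k C h' (h2 V B q φ hS k C h')
  obtain ⟨hP2, hP3⟩ := h4 V B q φ hS hP1
  have hP4 := h5 V B q φ hS hP2 hP3
  exact h7 V B q φ hS hP2 hP3 hP4 (h6 V B q φ hS hP2 hP4)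

end Pool.Agent.AST
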