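import Pool.Agent.AST.BAS
import Pool.Agent.AST.Stmts

/-!
THEOREM A* (note 1742), step (4): the counting argument `N + (V_h ∩ V_g ∩ H) = H`.
-/

set_option autoImplicit false

namespace Pool.Agent.AST

open scoped BigOperators
open Pool.Agent.RFT

namespace CNT_

open Classical in
/-- indicator -/
noncomputable def ei (p : Prop) : ℕ := if p then 1 else 0

theorem ei_pos {p : Prop} (h : p) : ei p = 1 := by
  unfold ei
  rw [if_pos h]

theorem ei_neg {p : Prop} (h : ¬ p) : ei p = 0 := by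
  unfold ei
  rw [if_neg h]

theorem ei_congr {p r : Prop} (h : p ↔ r) : ei p = ei r := by
  rw [propext h]

theorem ei_mul (p r : Prop) : ei p * ei r = ei (p ∧ r) := by
  by_cases hp : p
  · by_cases hr : r
    · rw [ei_pos hp, ei_pos hr, ei_pos ⟨hp, hr⟩]
    · rw [ei_neg hr, ei_neg (fun h : p ∧ r => hr h.2), mul_zero]
  · rw [ei_neg hp, ei_neg (fun h : p ∧ r => hp h.1), zero_mul]

variable {V : Type} [AddCommGroup V] [Module (ZMod 2) V] [Fintype V]

/-- number of elements with a property -/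
noncomputable def cd (P : V → Prop) : ℕ := ∑ v : V, ei (P v)

theorem cd_congr {P Q : V → Prop} (h : ∀ v, P v ↔ Q v) : cd P = cd Q :=
  Finset.sum_congr rfl fun v _ => ei_congr (h v)

theorem cd_shift (P : V → Prop) (w : V) : cd (fun v => P (w + v)) = cd P := by
  unfold cd
  exact Equiv.sum_comp (Equiv.addLeft w) fun v => ei (P v)

theorem cd_pos {P : V → Prop} {v : V} (h : P v) : 0 < cd P := by
  unfold cd
  refine Finset.sum_pos' (fun _ _ => Nat.zero_le _) ⟨v, Finset.mem_univ v, ?_⟩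
  rw [ei_pos h]
  exact Nat.one_pos

open Classical in
theorem cd_card (P : V → Prop) : cd P = (Finset.univ.filter P).card := by
  unfold cd ei
  rw [Finset.card_filter]

/-- `|K| = |f(K)| |K ∩ ker f|` -/
theorem cd_ker {W : Type} [AddCommGroup W] [Module (ZMod 2) W] (K : Submodule (ZMod 2) V)
    (f : V →ₗ[ZMod 2] W) :
    cd (fun v => v ∈ K) = (f '' (K : Set V)).ncard * cd (fun v => v ∈ K ∧ f v = 0) := by
  classical
  rw [cd_card, cd_card, Finset.card_eq_sum_card_image f]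
  have h1 : ∀ b ∈ (Finset.univ.filter fun v => v ∈ K).image f,
      ((Finset.univ.filter fun v => v ∈ K).filter fun v => f v = b).card =
      (Finset.univ.filter fun v => v ∈ K ∧ f v = 0).card := by
    intro b hb
    obtain ⟨a, ha, rfl⟩ := Finset.mem_image.1 hb
    have ha' : a ∈ K := (Finset.mem_filter.1 ha).2
    symm
    refine Finset.card_bij' (fun v _ => a + v) (fun v _ => v - a) ?_ ?_ ?_ ?_
    · intro v hv
      obtain ⟨-, h2, h3⟩ := Finset.mem_filter.1 hv
      refine Finset.mem_filter.2 ⟨Finset.mem_filter.2 ⟨Finset.mem_univ _, K.add_mem ha' h2⟩, ?_⟩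
      rw [map_add, h3, add_zero]
    · intro v hv
      obtain ⟨h2, h3⟩ := Finset.mem_filter.1 hv
      have h4 : v ∈ K := (Finset.mem_filter.1 h2).2
      refine Finset.mem_filter.2 ⟨Finset.mem_univ _, K.sub_mem h4 ha', ?_⟩
      rw [map_sub, h3, sub_self]
    · intro v _
      exact add_sub_cancel_left a v
    · intro v _
      exact add_sub_cancel a v
  rw [Finset.sum_congr rfl h1, Finset.sum_const, smul_eq_mul]
  have h2 : ((Finset.univ.filter fun v => v ∈ K).image f).card = (f '' (K : Set V)).ncard := by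
    rw [← Set.ncard_coe_finset]
    congr 1
    ext b
    simp
  rw [h2]
  congr 1
  refine congrArg Finset.card ?_
  ext v
  simp only [Finset.mem_filter]

theorem img_finite {W : Type} [AddCommGroup W] [Module (ZMod 2) W] (K : Submodule (ZMod 2) V)
    (f : V →ₗ[ZMod 2] W) : (f '' (K : Set V)).Finite := Set.toFinite _

/-- the basic inequality and its case of equality -/
theorem ineq {W : Type} [AddCommGroup W] [Module (ZMod 2) W] (N H : Submodule (ZMod 2) V)
    (hNH : N ≤ H) (f : V →ₗ[ZMod 2] W) :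
    cd (fun v => v ∈ H ∧ f v = 0) * cd (fun v => v ∈ N) ≤
      cd (fun v => v ∈ H) * cd (fun v => v ∈ N ∧ f v = 0) ∧
    (cd (fun v => v ∈ H ∧ f v = 0) * cd (fun v => v ∈ N) =
      cd (fun v => v ∈ H) * cd (fun v => v ∈ N ∧ f v = 0) →
      ∀ u ∈ H, ∃ n ∈ N, f n = f u) := by
  have hsub : f '' (N : Set V) ⊆ f '' (H : Set V) := Set.image_mono hNH
  have hle : (f '' (N : Set V)).ncard ≤ (f '' (H : Set V)).ncard :=
    Set.ncard_le_ncard hsub (img_finite H f)
  have hpos : 0 < cd (fun v => v ∈ H ∧ f v = 0) := cd_pos (v := 0) ⟨H.zero_mem, map_zero f⟩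
  have hpos' : 0 < cd (fun v => v ∈ N ∧ f v = 0) := cd_pos (v := 0) ⟨N.zero_mem, map_zero f⟩
  rw [cd_ker N f, cd_ker H f]
  constructor
  · calc cd (fun v => v ∈ H ∧ f v = 0) * ((f '' (N : Set V)).ncard *
          cd (fun v => v ∈ N ∧ f v = 0))
        = (f '' (N : Set V)).ncard * (cd (fun v => v ∈ H ∧ f v = 0) *
          cd (fun v => v ∈ N ∧ f v = 0)) := by ring
      _ ≤ (f '' (H : Set V)).ncard * (cd (fun v => v ∈ H ∧ f v = 0) *
          cd (fun v => v ∈ N ∧ f v = 0)) := Nat.mul_le_mul_right _ hle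
      _ = _ := by ring
  · intro h
    have h2 : (f '' (N : Set V)).ncard * (cd (fun v => v ∈ H ∧ f v = 0) *
          cd (fun v => v ∈ N ∧ f v = 0)) =
        (f '' (H : Set V)).ncard * (cd (fun v => v ∈ H ∧ f v = 0) *
          cd (fun v => v ∈ N ∧ f v = 0)) := by
      calc _ = cd (fun v => v ∈ H ∧ f v = 0) * ((f '' (N : Set V)).ncard *
          cd (fun v => v ∈ N ∧ f v = 0)) := by ring
        _ = _ := h
        _ = _ := by ring
    have h3 : (f '' (N : Set V)).ncard = (f '' (H : Set V)).ncard :=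
      Nat.eq_of_mul_eq_mul_right (Nat.mul_pos hpos hpos') h2
    have h4 : f '' (N : Set V) = f '' (H : Set V) :=
      Set.eq_of_subset_of_ncard_le hsub h3.ge (img_finite H f)
    intro u hu
    have h5 : f u ∈ f '' (N : Set V) := by
      rw [h4]
      exact ⟨u, hu, rfl⟩
    obtain ⟨n, hn, hn'⟩ := h5
    exact ⟨n, hn, hn'⟩

end CNT_

open CNT_

variable {V B : Type} [AddCommGroup V] [Module (ZMod 2) V] [AddCommGroup B] [Module (ZMod 2) B]

/-- `N` as a submodule -/
def CNT_.Nsub (q : V →ₗ[ZMod 2] V →ₗ[ZMod 2] B) (φ : V →ₗ[ZMod 2] ZMod 2) (hS : Sit q φ)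
    (h2 : P2 q φ) : Submodule (ZMod 2) V where
  carrier := {h | NN q φ h}
  add_mem' := fun {a b} ha hb => h2 a b ha hb
  zero_mem' := hS.zero_mem
  smul_mem' := by
    intro c x hx
    rcases z2 c with h | h
    · rw [h, zero_smul]
      exact hS.zero_mem
    · rw [h, one_smul]
      exact hx

theorem CNT_.mem_Nsub {q : V →ₗ[ZMod 2] V →ₗ[ZMod 2] B} {φ : V →ₗ[ZMod 2] ZMod 2} (hS : Sit q φ)
    (h2 : P2 q φ) (h : V) : h ∈ Nsub q φ hS h2 ↔ NN q φ h := Iff.rfl

theorem CNT_.add_eq_one {φ : V →ₗ[ZMod 2] ZMod 2} {w n : V} (hw : φ w = 1) :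
    φ (w + n) = 1 ↔ φ n = 0 := by
  rw [map_add, hw]
  rcases z2 (φ n) with h | h
  · rw [h]
    decide
  · rw [h]
    decide

section
variable [Fintype V] {q : V →ₗ[ZMod 2] V →ₗ[ZMod 2] B} {φ : V →ₗ[ZMod 2] ZMod 2}

/-- elements outside `H` commuting with `w'` outside `H` -/
theorem CNT_.cA (hS : Sit q φ) {w' : V} (hw : φ w' = 1) :
    cd (fun w => φ w = 1 ∧ q w w' = 0) = cd (fun n => NN q φ n ∧ q n w' = 0) := by
  rw [← cd_shift (fun w => φ w = 1 ∧ q w w' = 0) w']
  apply cd_congr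
  intro n
  rw [add_eq_one hw, map_add, LinearMap.add_apply, hS.alt, zero_add]
  constructor
  · rintro ⟨h1, h2⟩
    exact ⟨⟨h1, w', hw, h2⟩, h2⟩
  · rintro ⟨h1, h2⟩
    exact ⟨h1.1, h2⟩

theorem CNT_.cB (hS : Sit q φ) (h2 : P2 q φ) {h g : V} (hh : NN q φ h) (hg : NN q φ g) :
    cd (fun w => φ w = 1 ∧ q w h = 0 ∧ q w g = 0) =
      cd (fun n => φ n = 0 ∧ q h n = 0 ∧ q g n = 0) := by
  obtain ⟨w0, h3, h4, h5⟩ := hS.W hh hg (h2 h g hh hg)
  rw [← cd_shift (fun w => φ w = 1 ∧ q w h = 0 ∧ q w g = 0) w0]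
  apply cd_congr
  intro n
  rw [add_eq_one h3, map_add, LinearMap.add_apply, LinearMap.add_apply, hS.symm w0 h, h4,
    hS.symm w0 g, h5, zero_add, zero_add, hS.symm n h, hS.symm n g]

theorem CNT_.cC (hS : Sit q φ) {h w : V} (hh : NN q φ h) (hw : φ w = 1) :
    cd (fun w' => φ w' = 1 ∧ q w w' = 0 ∧ q w' h = 0) =
      cd (fun n => NN q φ n ∧ q w n = 0 ∧ q n h = 0) := by
  obtain ⟨w1, h3, h4, h5⟩ := hS.S hh hw
  rw [← cd_shift (fun w' => φ w' = 1 ∧ q w w' = 0 ∧ q w' h = 0) w1]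
  apply cd_congr
  intro n
  rw [add_eq_one h3, map_add, h5, zero_add, map_add, LinearMap.add_apply, hS.symm w1 h, h4,
    zero_add]
  constructor
  · rintro ⟨h6, h7, h8⟩
    exact ⟨⟨h6, w, hw, by rw [hS.symm n w, h7]⟩, h7, h8⟩
  · rintro ⟨h6, h7, h8⟩
    exact ⟨h6.1, h7, h8⟩

theorem CNT_.cD (hS : Sit q φ) {n : V} (hn : NN q φ n) :
    cd (fun w => φ w = 1 ∧ q w n = 0) = cd (fun h => φ h = 0 ∧ q n h = 0) := by
  obtain ⟨-, w0, h3, h4⟩ := hn
  rw [← cd_shift (fun w => φ w = 1 ∧ q w n = 0) w0]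
  apply cd_congr
  intro h
  rw [add_eq_one h3, map_add, LinearMap.add_apply, hS.symm w0 n, h4, zero_add, hS.symm h n]

/-- first count of the triples -/
theorem CNT_.left (hS : Sit q φ) (h2 : P2 q φ) :
    ∑ w : V, ei (φ w = 1) * (cd (fun n => NN q φ n ∧ q n w = 0) *
      cd (fun n => NN q φ n ∧ q n w = 0)) =
    ∑ h : V, ∑ g : V, ei (NN q φ h ∧ NN q φ g) *
      cd (fun n => φ n = 0 ∧ q h n = 0 ∧ q g n = 0) := by
  have h1 : ∀ w : V, ei (φ w = 1) * (cd (fun n => NN q φ n ∧ q n w = 0) *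
      cd (fun n => NN q φ n ∧ q n w = 0)) =
      ∑ h : V, ∑ g : V, ei (NN q φ h ∧ NN q φ g) * ei (φ w = 1 ∧ q w h = 0 ∧ q w g = 0) := by
    intro w
    unfold cd
    rw [Finset.sum_mul_sum, Finset.mul_sum]
    refine Finset.sum_congr rfl fun h _ => ?_
    rw [Finset.mul_sum]
    refine Finset.sum_congr rfl fun g _ => ?_
    rw [ei_mul, ei_mul, ei_mul]
    apply ei_congr
    beta_reduce
    rw [hS.symm h w, hS.symm g w]
    tauto
  rw [Finset.sum_congr rfl fun w _ => h1 w, Finset.sum_comm]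
  refine Finset.sum_congr rfl fun h _ => ?_
  rw [Finset.sum_comm]
  refine Finset.sum_congr rfl fun g _ => ?_
  rw [← Finset.mul_sum]
  by_cases hh : NN q φ h ∧ NN q φ g
  · rw [ei_pos hh, one_mul, one_mul]
    exact cB hS h2 hh.1 hh.2
  · rw [ei_neg hh, zero_mul, zero_mul]

/-- second count of the triples -/
theorem CNT_.right (hS : Sit q φ) :
    ∑ w : V, ei (φ w = 1) * (cd (fun n => NN q φ n ∧ q n w = 0) *
      cd (fun n => NN q φ n ∧ q n w = 0)) =
    ∑ n : V, ei (NN q φ n) * (cd (fun h => φ h = 0 ∧ q n h = 0) *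
      cd (fun h => NN q φ h ∧ q n h = 0)) := by
  have h1 : ∀ w' : V, ei (φ w' = 1) * (cd (fun n => NN q φ n ∧ q n w' = 0) *
      cd (fun n => NN q φ n ∧ q n w' = 0)) =
      ∑ w : V, ∑ h : V, ei (φ w = 1 ∧ NN q φ h) * ei (φ w' = 1 ∧ q w w' = 0 ∧ q w' h = 0) := by
    intro w'
    by_cases hw : φ w' = 1
    · rw [ei_pos hw, one_mul]
      nth_rewrite 1 [← cA hS hw]
      unfold cd
      rw [Finset.sum_mul_sum]
      refine Finset.sum_congr rfl fun w _ => ?_
      refine Finset.sum_congr rfl fun h _ => ?_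
      rw [ei_mul, ei_mul]
      apply ei_congr
      beta_reduce
      rw [hS.symm h w']
      tauto
    · rw [ei_neg hw, zero_mul]
      symm
      refine Finset.sum_eq_zero fun w _ => Finset.sum_eq_zero fun h _ => ?_
      rw [ei_neg (p := φ w' = 1 ∧ q w w' = 0 ∧ q w' h = 0) fun h => hw h.1, mul_zero]
  rw [Finset.sum_congr rfl fun w _ => h1 w, Finset.sum_comm]
  have h3 : ∀ w : V, ∑ w' : V, ∑ h : V, ei (φ w = 1 ∧ NN q φ h) *
      ei (φ w' = 1 ∧ q w w' = 0 ∧ q w' h = 0) =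
      ∑ h : V, ei (φ w = 1 ∧ NN q φ h) * cd (fun n => NN q φ n ∧ q w n = 0 ∧ q n h = 0) := by
    intro w
    rw [Finset.sum_comm]
    refine Finset.sum_congr rfl fun h _ => ?_
    rw [← Finset.mul_sum]
    by_cases hh : φ w = 1 ∧ NN q φ h
    · rw [ei_pos hh, one_mul, one_mul]
      exact cC hS hh.2 hh.1
    · rw [ei_neg hh, zero_mul, zero_mul]
  rw [Finset.sum_congr rfl fun w _ => h3 w]
  have h4 : ∀ w : V, ∑ h : V, ei (φ w = 1 ∧ NN q φ h) *
      cd (fun n => NN q φ n ∧ q w n = 0 ∧ q n h = 0) =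
      ∑ n : V, ei (NN q φ n) * (ei (φ w = 1 ∧ q w n = 0) *
        cd (fun h => NN q φ h ∧ q n h = 0)) := by
    intro w
    unfold cd
    have h5 : ∀ h : V, ei (φ w = 1 ∧ NN q φ h) * ∑ n : V, ei (NN q φ n ∧ q w n = 0 ∧ q n h = 0) =
        ∑ n : V, ei (NN q φ n) * (ei (φ w = 1 ∧ q w n = 0) * ei (NN q φ h ∧ q n h = 0)) := by
      intro h
      rw [Finset.mul_sum]
      refine Finset.sum_congr rfl fun n _ => ?_
      rw [ei_mul, ei_mul, ei_mul]
      apply ei_congr
      tauto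
    rw [Finset.sum_congr rfl fun h _ => h5 h, Finset.sum_comm]
    refine Finset.sum_congr rfl fun n _ => ?_
    rw [← Finset.mul_sum, ← Finset.mul_sum]
  rw [Finset.sum_congr rfl fun w _ => h4 w, Finset.sum_comm]
  refine Finset.sum_congr rfl fun n _ => ?_
  rw [← Finset.mul_sum, ← Finset.sum_mul]
  by_cases hn : NN q φ n
  · rw [ei_pos hn, one_mul, one_mul]
    congr 1
    exact cD hS hn
  · rw [ei_neg hn, zero_mul, zero_mul]

/-- `∑_n |N_n|² = ∑_{h,g} |N_{h,g}|` -/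
theorem CNT_.third (hS : Sit q φ) :
    ∑ n : V, ei (NN q φ n) * (cd (fun h => NN q φ h ∧ q n h = 0) *
      cd (fun h => NN q φ h ∧ q n h = 0)) =
    ∑ h : V, ∑ g : V, ei (NN q φ h ∧ NN q φ g) *
      cd (fun n => NN q φ n ∧ q h n = 0 ∧ q g n = 0) := by
  have h1 : ∀ n : V, ei (NN q φ n) * (cd (fun h => NN q φ h ∧ q n h = 0) *
      cd (fun h => NN q φ h ∧ q n h = 0)) =
      ∑ h : V, ∑ g : V, ei (NN q φ h ∧ NN q φ g) * ei (NN q φ n ∧ q h n = 0 ∧ q g n = 0) := by
    intro n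
    unfold cd
    rw [Finset.sum_mul_sum, Finset.mul_sum]
    refine Finset.sum_congr rfl fun h _ => ?_
    rw [Finset.mul_sum]
    refine Finset.sum_congr rfl fun g _ => ?_
    rw [ei_mul, ei_mul, ei_mul]
    apply ei_congr
    rw [hS.symm h n, hS.symm g n]
    tauto
  rw [Finset.sum_congr rfl fun w _ => h1 w, Finset.sum_comm]
  refine Finset.sum_congr rfl fun h _ => ?_
  rw [Finset.sum_comm]
  refine Finset.sum_congr rfl fun g _ => ?_
  rw [← Finset.mul_sum]
  rfl

end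

theorem CNT : Stmt_CNT := by
  intro V B _ _ _ _ _ q φ hS h2 h3
  have := Fintype.ofFinite V
  set N : Submodule (ZMod 2) V := Nsub q φ hS h2 with hN
  set H : Submodule (ZMod 2) V := LinearMap.ker φ with hH
  have hNH : N ≤ H := fun h hh => LinearMap.mem_ker.2 hh.1
  have mN : ∀ h, h ∈ N ↔ NN q φ h := fun h => Iff.rfl
  have mH : ∀ h, h ∈ H ↔ φ h = 0 := fun h => LinearMap.mem_ker
  set cN : ℕ := cd (fun v => v ∈ N) with hcN
  set cH : ℕ := cd (fun v => v ∈ H) with hcH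
  -- P3 in cardinalities
  have e1 : ∀ n, NN q φ n → cd (fun h => φ h = 0 ∧ q n h = 0) * cN =
      cH * cd (fun h => NN q φ h ∧ q n h = 0) := by
    intro n hn
    have hi : (q n) '' (N : Set V) = (q n) '' (H : Set V) := by
      apply Set.Subset.antisymm (Set.image_mono hNH)
      rintro _ ⟨u, hu, rfl⟩
      obtain ⟨z, hz, hz'⟩ := h3 n u hn ((mH u).1 hu)
      exact ⟨z, hz, hz'⟩
    rw [hcN, hcH, cd_ker N (q n), cd_ker H (q n), hi]
    have a1 : cd (fun h => φ h = 0 ∧ q n h = 0) = cd (fun v => v ∈ H ∧ q n v = 0) :=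
      cd_congr fun v => by rw [mH]
    have a2 : cd (fun h => NN q φ h ∧ q n h = 0) = cd (fun v => v ∈ N ∧ q n v = 0) :=
      cd_congr fun v => by rw [mN]
    rw [a1, a2]
    ring
  have e2 := (left hS h2).symm.trans (right hS)
  have e3 : (∑ h : V, ∑ g : V, ei (NN q φ h ∧ NN q φ g) *
      cd (fun n => φ n = 0 ∧ q h n = 0 ∧ q g n = 0)) * cN =
      cH * ∑ h : V, ∑ g : V, ei (NN q φ h ∧ NN q φ g) *
      cd (fun n => NN q φ n ∧ q h n = 0 ∧ q g n = 0) := by
    rw [e2, ← third hS, Finset.sum_mul, Finset.mul_sum]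
    refine Finset.sum_congr rfl fun n _ => ?_
    by_cases hn : NN q φ n
    · rw [ei_pos hn, one_mul, one_mul]
      calc _ = (cd (fun h => φ h = 0 ∧ q n h = 0) * cN) *
            cd (fun h => NN q φ h ∧ q n h = 0) := by ring
        _ = _ := by
            rw [e1 n hn]
            ring
    · rw [ei_neg hn, zero_mul, zero_mul, zero_mul, mul_zero]
  have key : ∀ h g, NN q φ h → NN q φ g →
      cd (fun n => φ n = 0 ∧ q h n = 0 ∧ q g n = 0) * cN =
      cH * cd (fun n => NN q φ n ∧ q h n = 0 ∧ q g n = 0) := by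
    have le1 : ∀ h g, ei (NN q φ h ∧ NN q φ g) *
        cd (fun n => φ n = 0 ∧ q h n = 0 ∧ q g n = 0) * cN ≤
        cH * (ei (NN q φ h ∧ NN q φ g) *
        cd (fun n => NN q φ n ∧ q h n = 0 ∧ q g n = 0)) := by
      intro h g
      have := (ineq N H hNH ((q h).prod (q g))).1
      have a1 : cd (fun v => v ∈ H ∧ ((q h).prod (q g)) v = 0) =
          cd (fun n => φ n = 0 ∧ q h n = 0 ∧ q g n = 0) := cd_congr fun v => by
        rw [mH]; exact and_congr_right fun _ => Prod.mk_eq_zero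
      have a2 : cd (fun v => v ∈ N ∧ ((q h).prod (q g)) v = 0) =
          cd (fun n => NN q φ n ∧ q h n = 0 ∧ q g n = 0) := cd_congr fun v => by
        rw [mN]; exact and_congr_right fun _ => Prod.mk_eq_zero
      rw [a1, a2] at this
      calc _ = ei (NN q φ h ∧ NN q φ g) *
            (cd (fun n => φ n = 0 ∧ q h n = 0 ∧ q g n = 0) * cN) := by ring
        _ ≤ ei (NN q φ h ∧ NN q φ g) *
            (cH * cd (fun n => NN q φ n ∧ q h n = 0 ∧ q g n = 0)) := Nat.mul_le_mul_left _ this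
        _ = _ := by ring
    rw [Finset.sum_mul, Finset.mul_sum] at e3
    have e4 := (Finset.sum_eq_sum_iff_of_le (s := Finset.univ)
      (f := fun h : V => (∑ g : V, ei (NN q φ h ∧ NN q φ g) *
        cd (fun n => φ n = 0 ∧ q h n = 0 ∧ q g n = 0)) * cN)
      (g := fun h : V => cH * ∑ g : V, ei (NN q φ h ∧ NN q φ g) *
        cd (fun n => NN q φ n ∧ q h n = 0 ∧ q g n = 0)) (by
        intro h _
        rw [Finset.sum_mul, Finset.mul_sum]
        exact Finset.sum_le_sum fun g _ => le1 h g)).1 e3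
    intro h g hh hg
    have e5 := e4 h (Finset.mem_univ h)
    rw [Finset.sum_mul, Finset.mul_sum] at e5
    have e6 := (Finset.sum_eq_sum_iff_of_le (s := Finset.univ)
      (f := fun g : V => ei (NN q φ h ∧ NN q φ g) *
        cd (fun n => φ n = 0 ∧ q h n = 0 ∧ q g n = 0) * cN)
      (g := fun g : V => cH * (ei (NN q φ h ∧ NN q φ g) *
        cd (fun n => NN q φ n ∧ q h n = 0 ∧ q g n = 0))) (fun g _ => le1 h g)).1 e5 g
      (Finset.mem_univ g)
    rw [ei_pos ⟨hh, hg⟩, one_mul, one_mul] at e6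
    exact e6
  intro h g u hh hg hu
  have hk := key h g hh hg
  have a1 : cd (fun v => v ∈ H ∧ ((q h).prod (q g)) v = 0) =
      cd (fun n => φ n = 0 ∧ q h n = 0 ∧ q g n = 0) := cd_congr fun v => by
    rw [mH]; exact and_congr_right fun _ => Prod.mk_eq_zero
  have a2 : cd (fun v => v ∈ N ∧ ((q h).prod (q g)) v = 0) =
      cd (fun n => NN q φ n ∧ q h n = 0 ∧ q g n = 0) := cd_congr fun v => by
    rw [mN]; exact and_congr_right fun _ => Prod.mk_eq_zero
  obtain ⟨n, hn, hn'⟩ := (ineq N H hNH ((q h).prod (q g))).2 (by rw [a1, a2]; exact hk) u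
    ((mH u).2 hu)
  rw [LinearMap.prod_apply, LinearMap.prod_apply] at hn'
  obtain ⟨b1, b2⟩ := Prod.mk.inj hn'
  exact ⟨n, (mN n).1 hn, by rw [map_add, b1, self_add], by rw [map_add, b2, self_add]⟩

end Pool.Agent.AST
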