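import Pool.Agent.AST.Defs

/-!
THEOREM A* (note 1742): basic lemmas about a prime functional.
-/

set_option autoImplicit false

namespace Pool.Agent.AST

open scoped BigOperators
open Pool.Agent.RFT

variable {V B : Type} [AddCommGroup V] [Module (ZMod 2) V] [AddCommGroup B] [Module (ZMod 2) B]
variable {q : V →ₗ[ZMod 2] V →ₗ[ZMod 2] B} {φ : V →ₗ[ZMod 2] ZMod 2}

theorem self_add {M : Type} [AddCommGroup M] [Module (ZMod 2) M] (x : M) : x + x = 0 :=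
  ZModModule.add_self x

theorem eq_iff_add {M : Type} [AddCommGroup M] [Module (ZMod 2) M] {x y : M} :
    x = y ↔ x + y = 0 :=
  ⟨fun h => by rw [h, self_add], fun h => RFT.eq_of_add_zero h⟩

theorem z2 (a : ZMod 2) : a = 0 ∨ a = 1 := by
  fin_cases a
  · exact Or.inl rfl
  · exact Or.inr rfl

theorem one_add_one2 : (1 : ZMod 2) + 1 = 0 := by decide

namespace Sit

theorem symm (hS : Sit q φ) (x y : V) : q x y = q y x := hS.lk.symm x y

theorem alt (hS : Sit q φ) (x : V) : q x x = 0 := hS.lk.alt x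

theorem link (hS : Sit q φ) {a b c d : V} {s : B} (h1 : q a b = s) (h2 : q c d = s) :
    ∃ x, q a x = s ∧ q c x = s := by
  obtain ⟨x, h3, h4⟩ := hS.lk.link a b c d (h1.trans h2.symm)
  exact ⟨x, h3.trans h1, h4.trans h1⟩

theorem phi_ne (hS : Sit q φ) : φ ≠ 0 := hS.pr.1

/-- an element outside `H` -/
theorem out (hS : Sit q φ) : ∃ w, φ w = 1 := by
  by_contra h
  apply hS.phi_ne
  ext v
  rcases z2 (φ v) with h1 | h1
  · exact h1
  · exact absurd ⟨v, h1⟩ h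

theorem zero_mem (hS : Sit q φ) : NN q φ 0 := by
  obtain ⟨w, hw⟩ := hS.out
  exact ⟨map_zero φ, w, hw, by rw [map_zero, LinearMap.zero_apply]⟩

/-- (W) for a plane in `N` -/
theorem W (hS : Sit q φ) {h g : V} (h1 : NN q φ h) (h2 : NN q φ g) (h3 : NN q φ (h + g)) :
    ∃ w, φ w = 1 ∧ q h w = 0 ∧ q g w = 0 := by
  obtain ⟨v, h4, h5, h6⟩ := hS.pr.2 h g
    (by obtain ⟨-, w, hw, hw'⟩ := h1; exact ⟨w, hw', hw⟩)
    (by obtain ⟨-, w, hw, hw'⟩ := h2; exact ⟨w, hw', hw⟩)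
    (by obtain ⟨-, w, hw, hw'⟩ := h3; exact ⟨w, hw', hw⟩)
  exact ⟨v, h6, h4, h5⟩

/-- (S) -/
theorem S (hS : Sit q φ) {h w : V} (h1 : NN q φ h) (h2 : φ w = 1) :
    ∃ w', φ w' = 1 ∧ q h w' = 0 ∧ q w w' = 0 := by
  obtain ⟨h0, w1, hw1, hw1'⟩ := h1
  obtain ⟨v, h4, h5, h6⟩ := hS.pr.2 h w ⟨w1, hw1', hw1⟩ ⟨w, hS.alt w, h2⟩
    ⟨h + w, hS.alt _, by rw [map_add, h0, h2, zero_add]⟩
  exact ⟨v, h6, h4, h5⟩

/-- (1a) -/
theorem slotH (hS : Sit q φ) {w h : V} {c : B} (hw : φ w = 1) (hh : φ h = 0)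
    (h1 : ∃ v, q w v = c) (h2 : QH q φ h c) : ∃ s, φ s = 0 ∧ q w s = c ∧ q h s = c := by
  obtain ⟨v, hv⟩ := h1
  obtain ⟨y, hy, hy'⟩ := h2
  obtain ⟨s, hs, hs'⟩ := hS.link hv hy'
  rcases z2 (φ s) with h3 | h3
  · exact ⟨s, h3, hs, hs'⟩
  · have hN : NN q φ h := ⟨hh, s + y, by rw [map_add, h3, hy, add_zero],
      by rw [map_add, hs', hy', self_add]⟩
    obtain ⟨w', h4, h5, h6⟩ := hS.S hN hw
    exact ⟨s + w', by rw [map_add, h3, h4, one_add_one2], by rw [map_add, hs, h6, add_zero],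
      by rw [map_add, hs', h5, add_zero]⟩

/-- (1c) -/
theorem slot2 (hS : Sit q φ) {h g : V} {c : B} (hh : φ h = 0) (hg : φ g = 0)
    (h1 : QH q φ h c) (h2 : QH q φ g c) : ∃ s, φ s = 0 ∧ q h s = c ∧ q g s = c := by
  obtain ⟨y, hy, hy'⟩ := h1
  obtain ⟨y1, hy1, hy1'⟩ := h2
  obtain ⟨s, hs, hs'⟩ := hS.link hy' hy1'
  rcases z2 (φ s) with h3 | h3
  · exact ⟨s, h3, hs, hs'⟩
  · have hN : NN q φ h := ⟨hh, s + y, by rw [map_add, h3, hy, add_zero],
      by rw [map_add, hs, hy', self_add]⟩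
    have hN' : NN q φ g := ⟨hg, s + y1, by rw [map_add, h3, hy1, add_zero],
      by rw [map_add, hs', hy1', self_add]⟩
    have hN2 : NN q φ (h + g) := ⟨by rw [map_add, hh, hg, add_zero], s, h3,
      by rw [map_add, LinearMap.add_apply, hs, hs', self_add]⟩
    obtain ⟨w, h4, h5, h6⟩ := hS.W hN hN' hN2
    exact ⟨s + w, by rw [map_add, h3, h4, one_add_one2], by rw [map_add, hs, h5, add_zero],
      by rw [map_add, hs', h6, add_zero]⟩

/-- elements of `N` have all their values in `H` -/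
theorem NQ (_ : Sit q φ) {h : V} (h1 : NN q φ h) (v : V) : QH q φ h (q h v) := by
  obtain ⟨-, w, hw, hw'⟩ := h1
  rcases z2 (φ v) with h3 | h3
  · exact ⟨v, h3, rfl⟩
  · exact ⟨v + w, by rw [map_add, h3, hw, one_add_one2], by rw [map_add, hw', add_zero]⟩

theorem QN (_ : Sit q φ) {h w : V} (hh : φ h = 0) (hw : φ w = 1) (h1 : QH q φ h (q h w)) :
    NN q φ h := by
  obtain ⟨y, hy, hy'⟩ := h1
  exact ⟨hh, w + y, by rw [map_add, hw, hy, add_zero], by rw [map_add, hy', self_add]⟩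

/-- first half of (1b) -/
theorem b1' (hS : Sit q φ) {z g : V} {c : B} (hz : φ z = 0) (hg : φ g = 0)
    (h1 : ∃ y, q z y = c) (h2 : ¬ QH q φ z c) (h3 : ∃ y, q g y = c) : NN q φ (z + g) := by
  obtain ⟨y, hy⟩ := h1
  obtain ⟨y', hy'⟩ := h3
  obtain ⟨s, hs, hs'⟩ := hS.link hy hy'
  rcases z2 (φ s) with h4 | h4
  · exact absurd ⟨s, h4, hs⟩ h2
  · exact ⟨by rw [map_add, hz, hg, add_zero], s, h4,
      by rw [map_add, LinearMap.add_apply, hs, hs', self_add]⟩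

/-- (1b) -/
theorem b1 (hS : Sit q φ) {z g : V} {c : B} (hz : φ z = 0) (hg : φ g = 0)
    (h1 : ∃ y, q z y = c) (h2 : ¬ QH q φ z c) (h3 : QH q φ g c) :
    NN q φ (z + g) ∧ NN q φ g := by
  obtain ⟨g', hg', hgg⟩ := h3
  refine ⟨hS.b1' hz hg h1 h2 ⟨g', hgg⟩, ?_⟩
  obtain ⟨y, hy⟩ := h1
  have h5 : ∃ y, q z y = c + q z g' := ⟨y + g', by rw [map_add, hy]⟩
  have h6 : ¬ QH q φ z (c + q z g') := by
    rintro ⟨u, hu, hu'⟩
    apply h2
    refine ⟨u + g', by rw [map_add, hu, hg', add_zero], ?_⟩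
    rw [map_add, hu', add_assoc, self_add, add_zero]
  have h7 : ∃ y, q (z + g) y = c + q z g' :=
    ⟨g', by rw [map_add, LinearMap.add_apply, hgg, add_comm]⟩
  have h8 := hS.b1' hz (by rw [map_add, hz, hg, add_zero]) h5 h6 h7
  rwa [← add_assoc, self_add, zero_add] at h8

/-- `H` is nondegenerate -/
theorem nd (hS : Sit q φ) {h : V} (h1 : ∀ y, φ y = 0 → q h y = 0) : h = 0 := by
  apply hS.r1
  intro v w
  rcases z2 (φ v) with h2 | h2
  · exact Or.inl (h1 v h2)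
  · rcases z2 (φ w) with h3 | h3
    · exact Or.inr (Or.inl (h1 w h3))
    · exact Or.inr (Or.inr (h1 _ (by rw [map_add, h2, h3, one_add_one2])))

/-- `q` is nondegenerate -/
theorem nd' (hS : Sit q φ) {h : V} (h1 : ∀ y, q h y = 0) : h = 0 := hS.nd fun y _ => h1 y

/-- elements of `H` commuting with an element outside `H` -/
theorem mkN (_ : Sit q φ) {h w : V} (hh : φ h = 0) (hw : φ w = 1) (h1 : q h w = 0) :
    NN q φ h := ⟨hh, w, hw, h1⟩

end Sit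

/-- `QH` is closed under addition -/
theorem QH.add {h : V} {c c' : B} (h1 : QH q φ h c) (h2 : QH q φ h c') : QH q φ h (c + c') := by
  obtain ⟨y, hy, e⟩ := h1
  obtain ⟨y', hy', e'⟩ := h2
  exact ⟨y + y', by rw [map_add, hy, hy', add_zero], by rw [map_add, e, e']⟩

theorem QH.zero (h : V) : QH q φ h 0 := ⟨0, map_zero φ, map_zero _⟩

end Pool.Agent.AST
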