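import Pool.Agent.AST.SBAS

/-!
THEOREM A* (note 1742): symbols of `H = ker φ` have components (modules SYM and SYMH).
-/

set_option autoImplicit false

namespace Pool.Agent.AST

open scoped BigOperators
open Pool.Agent.RFT

section

variable {V B : Type} [AddCommGroup V] [Module (ZMod 2) V] [AddCommGroup B] [Module (ZMod 2) B]
variable {q : V →ₗ[ZMod 2] V →ₗ[ZMod 2] B} {φ : V →ₗ[ZMod 2] ZMod 2} {k : ℕ}

/-- the product of an element of the component `j` with `y ∈ H` only depends on `p j y` -/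
theorem HC.q_comp (C : HC q φ k) {j : Fin k} {v y : V} (hv : C.p j v = v) (hy : φ y = 0) :
    q v y = q v (C.p j y) := by
  conv_lhs => rw [← C.sum y hy, map_sum]
  refine Finset.sum_eq_single j (fun i _ hi => ?_) (fun h => absurd (Finset.mem_univ j) h)
  rw [← hv]
  exact C.perp j i (Ne.symm hi) v y

theorem HC.q_pp (C : HC q φ k) (j : Fin k) (v : V) {y : V} (hy : φ y = 0) :
    q (C.p j v) y = q (C.p j v) (C.p j y) :=
  C.q_comp (C.idem j v) hy

theorem HC.q_sum (C : HC q φ k) {x y : V} (hx : φ x = 0) (hy : φ y = 0) :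
    q x y = ∑ j, q (C.p j x) (C.p j y) := by
  conv_lhs => rw [← C.sum x hx, map_sum, LinearMap.sum_apply]
  exact Finset.sum_congr rfl fun j _ => C.q_pp j x hy

theorem HC.p_sum (C : HC q φ k) (y : Fin k → V) (j : Fin k) :
    C.p j (∑ i, C.p i (y i)) = C.p j (y j) := by
  rw [map_sum, Finset.sum_eq_single j, C.idem]
  · intro i _ hi
    exact C.orth j i (Ne.symm hi) _
  · intro h
    exact absurd (Finset.mem_univ j) h

end

/-- SYM under the weaker hypothesis `SitH` -/
theorem SYMH (V B : Type) [AddCommGroup V] [Module (ZMod 2) V] [AddCommGroup B]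
    [Module (ZMod 2) B] (q : V →ₗ[ZMod 2] V →ₗ[ZMod 2] B) (φ : V →ₗ[ZMod 2] ZMod 2)
    (hS : SitH q φ) (k : ℕ) (C : HC q φ k) :
    (∀ x y x' y', φ x = 0 → φ y = 0 → φ x' = 0 → φ y' = 0 → q x y = q x' y' →
      ∀ j, q (C.p j x) (C.p j y) = q (C.p j x') (C.p j y')) ∧
    (∀ x y, φ x = 0 → φ y = 0 → q x y = ∑ j, q (C.p j x) (C.p j y)) ∧
    (∀ x y g, φ x = 0 → φ y = 0 → φ g = 0 → (QH q φ g (q x y) ↔
      ∀ j, QH q φ (C.p j g) (q (C.p j x) (C.p j y)))) ∧
    (∀ j v y, C.p j v = v → φ y = 0 → q v y = q v (C.p j y)) := by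
  have h1 : ∀ x y x' y', φ x = 0 → φ y = 0 → φ x' = 0 → φ y' = 0 → q x y = q x' y' →
      ∀ j, q (C.p j x) (C.p j y) = q (C.p j x') (C.p j y') := by
    intro x y x' y' hx hy hx' hy' e j
    obtain ⟨s, hs, e1, e2⟩ := hS.link x y x' y' hx hy hx' hy' e
    have e3 := C.ind x (y + s) hx (by rw [map_add, hy, hs, add_zero])
      (by rw [map_add, e1, self_add]) j
    have e4 := C.ind x' (y' + s) hx' (by rw [map_add, hy', hs, add_zero])
      (by rw [map_add, e2, e, self_add]) j
    have e5 := C.ind (x + x') s (by rw [map_add, hx, hx', add_zero]) hs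
      (by rw [map_add, LinearMap.add_apply, e1, e2, self_add]) j
    rw [map_add, map_add, ← eq_iff_add] at e3 e4
    rw [map_add, map_add, LinearMap.add_apply, ← eq_iff_add] at e5
    rw [e3, e5, e4]
  refine ⟨h1, fun x y hx hy => C.q_sum hx hy, ?_, fun j v y hv hy => C.q_comp hv hy⟩
  intro x y g hx hy hg
  constructor
  · rintro ⟨y', hy', e⟩ j
    exact ⟨C.p j y', C.mem j y', h1 g y' x y hg hy' hx hy e j⟩
  · intro h
    choose z hz e using h
    refine ⟨∑ j, C.p j (z j), ?_, ?_⟩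
    · rw [map_sum]
      exact Finset.sum_eq_zero fun j _ => C.mem j _
    · have hz0 : φ (∑ j, C.p j (z j)) = 0 := by
        rw [map_sum]
        exact Finset.sum_eq_zero fun j _ => C.mem j _
      rw [C.q_sum hg hz0, C.q_sum hx hy]
      refine Finset.sum_congr rfl fun j _ => ?_
      rw [C.p_sum, ← C.q_pp j g (hz j), e j]

theorem SYM : Stmt_SYM := fun V B _ _ _ _ q φ hS k C => SYMH V B q φ hS.toSitH k C

end Pool.Agent.AST
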