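import Pool.Agent.AST.SASZ
import Pool.Agent.AST.LEM0
import Pool.Agent.AST.CMPH
import Pool.Agent.AST.CNT
import Pool.Agent.AST.TOP

/-!
THEOREM A* (note 1742), complete.
-/

set_option autoImplicit false

namespace Pool.Agent.AST

theorem ASZ : Stmt_ASZ := sasz_of LEM0 CMPH CNT

end Pool.Agent.AST
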