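import Pool.Agent.AST.BAS
import Pool.Agent.AST.Stmts
import Pool.Agent.ETC.QSat

/-!
THEOREM A* (note 1742), set valued part.  A linked relation `Z` need not come from a group valued
map `q : V × V → B` a priori (this is the question AP(3)).  The first part of the proof, up to
the statement that `N` is closed under addition, is therefore done for set valued data
`D : QData V Q`; only the restriction to `H = ker φ` is given by a group valued map `q`.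
-/

set_option autoImplicit false

namespace Pool.Agent.AST

open scoped BigOperators
open Pool.Agent.RFT
open Pool.Agent.Helper58.PLine (QData)

variable {V B Q : Type} [AddCommGroup V] [Module (ZMod 2) V] [AddCommGroup B] [Module (ZMod 2) B]

/-- `H = ker φ` is linked and nondegenerate, `q` is only used on `H` -/
structure SitH (q : V →ₗ[ZMod 2] V →ₗ[ZMod 2] B) (φ : V →ₗ[ZMod 2] ZMod 2) : Prop where
  alt : ∀ x, q x x = 0
  link : ∀ a b c d, φ a = 0 → φ b = 0 → φ c = 0 → φ d = 0 → q a b = q c d →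
    ∃ x, φ x = 0 ∧ q a x = q a b ∧ q c x = q a b
  nd : ∀ h, φ h = 0 → (∀ y, φ y = 0 → q h y = 0) → h = 0

/-- The standing situation, set valued. -/
structure SitD (D : QData V Q) (φ : V →ₗ[ZMod 2] ZMod 2) : Prop where
  dalt : ∀ x, D.q x x = D.z
  r1 : ∀ x, (∀ v w, D.q x v = D.z ∨ D.q x w = D.z ∨ D.q x (v + w) = D.z) → x = 0
  rig : ∀ t, t ≠ 0 → ∃ v, D.q t v = D.z ∧ v ≠ 0 ∧ v ≠ t
  ph : φ ≠ 0
  pr : ∀ x y, (∃ v, D.q x v = D.z ∧ φ v = 1) → (∃ v, D.q y v = D.z ∧ φ v = 1) →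
    (∃ v, D.q (x + y) v = D.z ∧ φ v = 1) → ∃ v, D.q x v = D.z ∧ D.q y v = D.z ∧ φ v = 1

/-- The standing situation: set valued `D` on `V`, the group valued map `q` on `H = ker φ`. -/
structure SitS (D : QData V Q) (q : V →ₗ[ZMod 2] V →ₗ[ZMod 2] B)
    (φ : V →ₗ[ZMod 2] ZMod 2) : Prop extends SitD D φ where
  qalt : ∀ x, q x x = 0
  cmp : ∀ a b c d, φ a = 0 → φ b = 0 → φ c = 0 → φ d = 0 → (q a b = q c d ↔ D.q a b = D.q c d)

/-- `h ∈ N`, set valued -/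
def NS (D : QData V Q) (φ : V →ₗ[ZMod 2] ZMod 2) (h : V) : Prop :=
  φ h = 0 ∧ ∃ w, φ w = 1 ∧ D.q h w = D.z

/-- `c ∈ q(h, H)`, set valued -/
def QHS (D : QData V Q) (φ : V →ₗ[ZMod 2] ZMod 2) (h : V) (c : Q) : Prop :=
  ∃ y, φ y = 0 ∧ D.q h y = c

/-- the conclusion of Proposition 1, set valued -/
def P1S (D : QData V Q) (φ : V →ₗ[ZMod 2] ZMod 2) : Prop :=
  ∀ z a b, φ z = 0 → ¬ NS D φ z → φ a = 0 → φ b = 0 → (∃ y, D.q z y = D.q a b) →
    QHS D φ z (D.q a b)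

/-- step (2), set valued -/
def P2S (D : QData V Q) (φ : V →ₗ[ZMod 2] ZMod 2) : Prop :=
  ∀ h g, NS D φ h → NS D φ g → NS D φ (h + g)

theorem SitH.symm {q : V →ₗ[ZMod 2] V →ₗ[ZMod 2] B} {φ : V →ₗ[ZMod 2] ZMod 2} (h : SitH q φ)
    (x y : V) : q x y = q y x := by
  have h1 := h.alt (x + y)
  simp only [map_add, LinearMap.add_apply, h.alt, zero_add, add_zero] at h1
  exact (eq_iff_add.2 h1).symm

/-- the group valued situation -/
theorem Sit.toSitH {q : V →ₗ[ZMod 2] V →ₗ[ZMod 2] B} {φ : V →ₗ[ZMod 2] ZMod 2}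
    (h : Sit q φ) : SitH q φ where
  alt := h.alt
  link := by
    intro a b c d ha hb hc hd e
    exact h.slot2 ha hc ⟨b, hb, rfl⟩ ⟨d, hd, e.symm⟩
  nd := fun x _ hx => h.nd hx

section rules

variable (D : QData V Q)

theorem dz (x : V) : D.q x 0 = D.z := D.q_zero x

theorem dz' (x : V) : D.q 0 x = D.z := by rw [D.symm, D.q_zero]

/-- `q x y = q x w` iff `q x (y + w) = 0` -/
theorem dq {x y w : V} : D.q x y = D.q x w ↔ D.q x (y + w) = D.z := D.add x y w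

/-- `q x v = q y v` iff `q (x + y) v = 0` -/
theorem dq' {x y v : V} : D.q x v = D.q y v ↔ D.q (x + y) v = D.z := by
  rw [D.symm x v, D.symm y v, dq, D.symm]

theorem dadd {x a b : V} (ha : D.q x a = D.z) (hb : D.q x b = D.z) : D.q x (a + b) = D.z :=
  (dq D).1 (ha.trans hb.symm)

theorem dadd' {x a b : V} (ha : D.q a x = D.z) (hb : D.q b x = D.z) : D.q (a + b) x = D.z :=
  (dq' D).1 (ha.trans hb.symm)

/-- adding an element commuting with `x` -/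
theorem dq_add {x a b : V} (hb : D.q x b = D.z) : D.q x (a + b) = D.q x a := by
  rw [dq, add_comm a b, add_assoc, self_add, add_zero]
  exact hb

theorem dq_add' {x a b : V} (hb : D.q b x = D.z) : D.q (a + b) x = D.q a x := by
  rw [dq', add_comm a b, add_assoc, self_add, add_zero]
  exact hb

/-- a common slot -/
theorem dlink {a b c d : V} {s : Q} (h1 : D.q a b = s) (h2 : D.q c d = s) :
    ∃ x, D.q a x = s ∧ D.q c x = s := by
  obtain ⟨x, h3, h4⟩ := D.link a b c d (h1.trans h2.symm)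
  exact ⟨x, h3.symm.trans h1, h4.symm.trans h2⟩

/-- sums in `q(x, V)` and `q(v, V)` agree -/
theorem dsum {x v s t s' t' : V} (h : D.q x s = D.q v t) (h' : D.q x s' = D.q v t') :
    D.q x (s + s') = D.q v (t + t') := ETC.add_common h h'

end rules

namespace SitD

variable {D : QData V Q} {φ : V →ₗ[ZMod 2] ZMod 2}

/-- an element outside `H` -/
theorem out (hS : SitD D φ) : ∃ w, φ w = 1 := by
  by_contra h
  apply hS.ph
  ext v
  rcases z2 (φ v) with h1 | h1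
  · exact h1
  · exact absurd ⟨v, h1⟩ h

theorem zero_mem (hS : SitD D φ) : NS D φ 0 := by
  obtain ⟨w, hw⟩ := hS.out
  exact ⟨map_zero φ, w, hw, dz' D w⟩

/-- (W) for a plane in `N` -/
theorem W (hS : SitD D φ) {h g : V} (h1 : NS D φ h) (h2 : NS D φ g) (h3 : NS D φ (h + g)) :
    ∃ w, φ w = 1 ∧ D.q h w = D.z ∧ D.q g w = D.z := by
  obtain ⟨v, h4, h5, h6⟩ := hS.pr h g
    (by obtain ⟨-, w, hw, hw'⟩ := h1; exact ⟨w, hw', hw⟩)
    (by obtain ⟨-, w, hw, hw'⟩ := h2; exact ⟨w, hw', hw⟩)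
    (by obtain ⟨-, w, hw, hw'⟩ := h3; exact ⟨w, hw', hw⟩)
  exact ⟨v, h6, h4, h5⟩

/-- (S) -/
theorem S (hS : SitD D φ) {h w : V} (h1 : NS D φ h) (h2 : φ w = 1) :
    ∃ w', φ w' = 1 ∧ D.q h w' = D.z ∧ D.q w w' = D.z := by
  obtain ⟨h0, w1, hw1, hw1'⟩ := h1
  obtain ⟨v, h4, h5, h6⟩ := hS.pr h w ⟨w1, hw1', hw1⟩ ⟨w, hS.dalt w, h2⟩
    ⟨h + w, hS.dalt _, by rw [map_add, h0, h2, zero_add]⟩
  exact ⟨v, h6, h4, h5⟩

/-- (1a) -/
theorem slotH (hS : SitD D φ) {w h : V} {c : Q} (hw : φ w = 1) (hh : φ h = 0)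
    (h1 : ∃ v, D.q w v = c) (h2 : QHS D φ h c) : ∃ s, φ s = 0 ∧ D.q w s = c ∧ D.q h s = c := by
  obtain ⟨v, hv⟩ := h1
  obtain ⟨y, hy, hy'⟩ := h2
  obtain ⟨s, hs, hs'⟩ := dlink D hv hy'
  rcases z2 (φ s) with h3 | h3
  · exact ⟨s, h3, hs, hs'⟩
  · have hN : NS D φ h := ⟨hh, s + y, by rw [map_add, h3, hy, add_zero],
      (dq D).1 (hs'.trans hy'.symm)⟩
    obtain ⟨w', h4, h5, h6⟩ := hS.S hN hw
    exact ⟨s + w', by rw [map_add, h3, h4, one_add_one2], by rw [dq_add D h6, hs],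
      by rw [dq_add D h5, hs']⟩

/-- (1c) -/
theorem slot2 (hS : SitD D φ) {h g : V} {c : Q} (hh : φ h = 0) (hg : φ g = 0)
    (h1 : QHS D φ h c) (h2 : QHS D φ g c) : ∃ s, φ s = 0 ∧ D.q h s = c ∧ D.q g s = c := by
  obtain ⟨y, hy, hy'⟩ := h1
  obtain ⟨y1, hy1, hy1'⟩ := h2
  obtain ⟨s, hs, hs'⟩ := dlink D hy' hy1'
  rcases z2 (φ s) with h3 | h3
  · exact ⟨s, h3, hs, hs'⟩
  · have hN : NS D φ h := ⟨hh, s + y, by rw [map_add, h3, hy, add_zero],
      (dq D).1 (hs.trans hy'.symm)⟩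
    have hN' : NS D φ g := ⟨hg, s + y1, by rw [map_add, h3, hy1, add_zero],
      (dq D).1 (hs'.trans hy1'.symm)⟩
    have hN2 : NS D φ (h + g) := ⟨by rw [map_add, hh, hg, add_zero], s, h3,
      (dq' D).1 (hs.trans hs'.symm)⟩
    obtain ⟨w, h4, h5, h6⟩ := hS.W hN hN' hN2
    exact ⟨s + w, by rw [map_add, h3, h4, one_add_one2], by rw [dq_add D h5, hs],
      by rw [dq_add D h6, hs']⟩

/-- elements of `N` have all their values in `H` -/
theorem NQ (_ : SitD D φ) {h : V} (h1 : NS D φ h) (v : V) : QHS D φ h (D.q h v) := by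
  obtain ⟨-, w, hw, hw'⟩ := h1
  rcases z2 (φ v) with h3 | h3
  · exact ⟨v, h3, rfl⟩
  · exact ⟨v + w, by rw [map_add, h3, hw, one_add_one2], dq_add D hw'⟩

theorem QN (_ : SitD D φ) {h w : V} (hh : φ h = 0) (hw : φ w = 1)
    (h1 : QHS D φ h (D.q h w)) : NS D φ h := by
  obtain ⟨y, hy, hy'⟩ := h1
  exact ⟨hh, w + y, by rw [map_add, hw, hy, add_zero], (dq D).1 hy'.symm⟩

/-- first half of (1b) -/
theorem b1' (_ : SitD D φ) {z g : V} {c : Q} (hz : φ z = 0) (hg : φ g = 0)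
    (h1 : ∃ y, D.q z y = c) (h2 : ¬ QHS D φ z c) (h3 : ∃ y, D.q g y = c) : NS D φ (z + g) := by
  obtain ⟨y, hy⟩ := h1
  obtain ⟨y', hy'⟩ := h3
  obtain ⟨s, hs, hs'⟩ := dlink D hy hy'
  rcases z2 (φ s) with h4 | h4
  · exact absurd ⟨s, h4, hs⟩ h2
  · exact ⟨by rw [map_add, hz, hg, add_zero], s, h4, (dq' D).1 (hs.trans hs'.symm)⟩

/-- (1b) -/
theorem b1 (hS : SitD D φ) {z g : V} {c : Q} (hz : φ z = 0) (hg : φ g = 0)
    (h1 : ∃ y, D.q z y = c) (h2 : ¬ QHS D φ z c) (h3 : QHS D φ g c) :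
    NS D φ (z + g) ∧ NS D φ g := by
  obtain ⟨g', hg', hgg⟩ := h3
  refine ⟨hS.b1' hz hg h1 h2 ⟨g', hgg⟩, ?_⟩
  obtain ⟨y, hy⟩ := h1
  have h6 : ¬ QHS D φ z (D.q z (y + g')) := by
    rintro ⟨u, hu, hu'⟩
    apply h2
    refine ⟨u + g', by rw [map_add, hu, hg', add_zero], ?_⟩
    rw [← hy, dq]
    rw [dq] at hu'
    rwa [show u + g' + y = u + (y + g') by abel]
  have h7 : D.q (z + g) g' = D.q z (y + g') := by
    have e1 : D.q z y = D.q g' g := by rw [hy, D.symm g' g, hgg]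
    have e2 : D.q z g' = D.q g' z := D.symm _ _
    rw [dsum D e1 e2, D.symm, add_comm g z]
  have h8 := hS.b1' hz (by rw [map_add, hz, hg, add_zero]) ⟨y + g', rfl⟩ h6 ⟨g', h7⟩
  rwa [← add_assoc, self_add, zero_add] at h8

/-- `H` is nondegenerate -/
theorem nd (hS : SitD D φ) {h : V} (h1 : ∀ y, φ y = 0 → D.q h y = D.z) : h = 0 := by
  apply hS.r1
  intro v w
  rcases z2 (φ v) with h2 | h2
  · exact Or.inl (h1 v h2)
  · rcases z2 (φ w) with h3 | h3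
    · exact Or.inr (Or.inl (h1 w h3))
    · exact Or.inr (Or.inr (h1 _ (by rw [map_add, h2, h3, one_add_one2])))

end SitD

namespace SitS

variable {D : QData V Q} {q : V →ₗ[ZMod 2] V →ₗ[ZMod 2] B} {φ : V →ₗ[ZMod 2] ZMod 2}

theorem cmp0 (hS : SitS D q φ) {a b : V} (ha : φ a = 0) (hb : φ b = 0) :
    q a b = 0 ↔ D.q a b = D.z := by
  have h := hS.cmp a b 0 0 ha hb (map_zero φ) (map_zero φ)
  rw [map_zero, dz] at h
  exact h

/-- the restriction to `H` -/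
theorem toSitH (hS : SitS D q φ) : SitH q φ where
  alt := hS.qalt
  link := by
    intro a b c d ha hb hc hd e
    obtain ⟨s, h1, h2, h3⟩ := hS.slot2 (c := D.q a b) ha hc ⟨b, hb, rfl⟩
      ⟨d, hd, ((hS.cmp a b c d ha hb hc hd).1 e).symm⟩
    exact ⟨s, h1, (hS.cmp _ _ _ _ ha h1 ha hb).2 h2, (hS.cmp _ _ _ _ hc h1 ha hb).2 h3⟩
  nd := fun x hx h => hS.nd fun y hy => (hS.cmp0 hx hy).1 (h y hy)

/-- `QH` and `QHS` -/
theorem qh (hS : SitS D q φ) {h a b : V} (hh : φ h = 0) (ha : φ a = 0) (hb : φ b = 0) :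
    QH q φ h (q a b) ↔ QHS D φ h (D.q a b) := by
  constructor
  · rintro ⟨y, hy, e⟩
    exact ⟨y, hy, (hS.cmp _ _ _ _ hh hy ha hb).1 e⟩
  · rintro ⟨y, hy, e⟩
    exact ⟨y, hy, (hS.cmp _ _ _ _ hh hy ha hb).2 e⟩

end SitS

/-- step (2) from Proposition 1, set valued -/
theorem p2s_of {D : QData V Q} {φ : V →ₗ[ZMod 2] ZMod 2} (hS : SitD D φ) (hP1 : P1S D φ) : P2S D φ := by
  intro h g hh hg
  by_contra hz
  obtain ⟨hg0, w, hw, hgw⟩ := id hg
  have hz0 : φ (h + g) = 0 := by rw [map_add, hh.1, hg0, add_zero]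
  obtain ⟨y, hy, e⟩ := hS.NQ hh w
  have hc : D.q (h + g) w = D.q h y := by rw [dq_add' D hgw, e]
  have h1 := hP1 (h + g) h y hz0 hz hh.1 hy ⟨w, hc⟩
  rw [← hc] at h1
  exact hz (hS.QN hz0 hw h1)

end Pool.Agent.AST
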