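import Pool.Agent.AST.StmtsS

/-!
THEOREM A* (note 1742), module CMP: the components of `H = ker φ` in `V`.
-/

set_option autoImplicit false

namespace Pool.Agent.AST

open scoped BigOperators
open Pool.Agent.RFT Pool.Agent.ETG Pool.Agent.RFN

theorem CMPH : Stmt_CMPH := by
  intro V B _ _ _ _ _ q φ hφ hS hO
  obtain ⟨k, C, hC⟩ := hO
  obtain ⟨w, hw⟩ : ∃ w, φ w = 1 := by
    by_contra h
    apply hφ
    ext v
    rcases z2 (φ v) with h1 | h1
    · exact h1
    · exact absurd ⟨v, h1⟩ h
  let P : V →ₗ[ZMod 2] LinearMap.ker φ :=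
    LinearMap.codRestrict (LinearMap.ker φ) (LinearMap.id + φ.smulRight w) (by
      intro v
      show φ (v + φ v • w) = 0
      rw [map_add, map_smul, hw, smul_eq_mul, mul_one]
      exact ZModModule.add_self _)
  have hP : ∀ v, φ v = 0 → ((P v : LinearMap.ker φ) : V) = v := by
    intro v hv
    show v + φ v • w = v
    rw [hv, zero_smul, add_zero]
  have hPH : ∀ x : LinearMap.ker φ, P x = x := fun x => Subtype.ext (hP x x.2)
  let C' : HC q φ k :=
    { p := fun j => (LinearMap.ker φ).subtype ∘ₗ (C.p j) ∘ₗ P
      mem := fun j v => (C.p j (P v)).2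
      idem := by
        intro j v
        show ((C.p j (P (C.p j (P v)))) : V) = (C.p j (P v))
        rw [hPH, C.idem]
      orth := by
        intro i j hij v
        show ((C.p i (P (C.p j (P v)))) : V) = 0
        rw [hPH, C.orth i j hij]
        rfl
      sum := by
        intro v hv
        have h1 : (P v : LinearMap.ker φ) + ∑ j, C.p j (P v) = 0 := by
          apply Subtype.ext
          exact hS.nd _ (P v + ∑ j, C.p j (P v)).2 fun y hy => C.rad (P v) ⟨y, hy⟩
        show ∑ j, ((C.p j (P v) : LinearMap.ker φ) : V) = v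
        have h2 := congrArg (LinearMap.ker φ).subtype h1
        rw [map_add, map_sum, map_zero] at h2
        have h3 : ((P v : LinearMap.ker φ) : V) + ∑ j, ((C.p j (P v) : LinearMap.ker φ) : V) = 0 :=
          h2
        rw [hP v hv] at h3
        exact (eq_iff_add.2 h3).symm
      perp := by
        intro i j hij v v'
        have h1 : q (C.p i (P v) : LinearMap.ker φ)
            ((C.p j (P v') + C.p i (C.p j (P v')) : LinearMap.ker φ) : V) = 0 :=
          C.perp i (P v) (C.p j (P v'))
        rw [C.orth i j hij, add_zero] at h1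
        exact h1
      ind := by
        intro v v' hv hv' h j
        have h1 : Zq (q.domRestrict₁₂ (LinearMap.ker φ) (LinearMap.ker φ)) (P v) (P v') := by
          show q ((P v : LinearMap.ker φ) : V) ((P v' : LinearMap.ker φ) : V) = 0
          rw [hP v hv, hP v' hv']
          exact h
        exact C.ind _ _ h1 j
      ne := by
        intro j
        obtain ⟨v, hv⟩ := C.ne j
        refine ⟨v, fun h => hv ?_⟩
        apply Subtype.ext
        have h1 : ((C.p j (P v) : LinearMap.ker φ) : V) = 0 := h
        rw [hPH] at h1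
        exact h1 }
  refine ⟨k, C', fun j => ?_⟩
  rcases hC j with h | ⟨t, h1, h2, h3⟩
  · left
    intro v x y hx hy
    exact h (P v) ⟨x, hx⟩ ⟨y, hy⟩
  · right
    refine ⟨t, ?_, fun h => h2 (Subtype.ext h), ?_⟩
    · show ((C.p j (P t) : LinearMap.ker φ) : V) = t
      rw [hPH, h1]
    · intro v hv h
      have h4 : ((C.p j (P v) : LinearMap.ker φ) : V) = v := hv
      have h5 : Zq (q.domRestrict₁₂ (LinearMap.ker φ) (LinearMap.ker φ)) t (C.p j (P v)) := by
        show q (t : V) ((C.p j (P v) : LinearMap.ker φ) : V) = 0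
        rw [h4]
        exact h
      rcases h3 (P v) h5 with h6 | h6
      · left
        rw [← h4, h6]
        rfl
      · right
        rw [← h4, h6]

end Pool.Agent.AST
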