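import Pool.Agent.RFT.Bridge

/-!
THEOREM A* (note 1742): a minimal finite linked structure with `-1 = 1` that is not of elementary
type has no prime functional.  Definitions.

`q : V × V → B` is a linked alternating bilinear map over `F_2`, `φ` a prime functional,
`H = ker φ`.  `N` is the set of elements of `H` commuting with an element outside `H`.
-/

set_option autoImplicit false

namespace Pool.Agent.AST

open scoped BigOperators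
open Pool.Agent.RFT

variable {V B : Type} [AddCommGroup V] [Module (ZMod 2) V] [AddCommGroup B] [Module (ZMod 2) B]

/-- The standing situation: linked, no element of rank at most one, no rigid element, `φ` prime. -/
structure Sit (q : V →ₗ[ZMod 2] V →ₗ[ZMod 2] B) (φ : V →ₗ[ZMod 2] ZMod 2) : Prop where
  lk : LinkedAlt q
  /-- no element of rank `≤ 1` except `0`; in particular `q` is nondegenerate -/
  r1 : ∀ x, (∀ v w, q x v = 0 ∨ q x w = 0 ∨ q x (v + w) = 0) → x = 0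
  /-- no rigid element -/
  rig : ∀ t, t ≠ 0 → ∃ v, q t v = 0 ∧ v ≠ 0 ∧ v ≠ t
  pr : PrimeFun q φ

/-- `h ∈ N`: `h ∈ H` commutes with an element outside `H` -/
def NN (q : V →ₗ[ZMod 2] V →ₗ[ZMod 2] B) (φ : V →ₗ[ZMod 2] ZMod 2) (h : V) : Prop :=
  φ h = 0 ∧ ∃ w, φ w = 1 ∧ q h w = 0

/-- `c ∈ q(h, H)` -/
def QH (q : V →ₗ[ZMod 2] V →ₗ[ZMod 2] B) (φ : V →ₗ[ZMod 2] ZMod 2) (h : V) (c : B) : Prop :=
  ∃ y, φ y = 0 ∧ q h y = c

/-- `c` is a symbol of `H` -/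
def Sy (q : V →ₗ[ZMod 2] V →ₗ[ZMod 2] B) (φ : V →ₗ[ZMod 2] ZMod 2) (c : B) : Prop :=
  ∃ x, φ x = 0 ∧ QH q φ x c

/-- the conclusion of Proposition 1 -/
def P1 (q : V →ₗ[ZMod 2] V →ₗ[ZMod 2] B) (φ : V →ₗ[ZMod 2] ZMod 2) : Prop :=
  ∀ z c, φ z = 0 → ¬ NN q φ z → Sy q φ c → (∃ y, q z y = c) → QH q φ z c

/-- step (2): `N` is closed under addition -/
def P2 (q : V →ₗ[ZMod 2] V →ₗ[ZMod 2] B) (φ : V →ₗ[ZMod 2] ZMod 2) : Prop :=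
  ∀ h g, NN q φ h → NN q φ g → NN q φ (h + g)

/-- step (3): `q(h, N) = q(h, H)` for `h ∈ N` -/
def P3 (q : V →ₗ[ZMod 2] V →ₗ[ZMod 2] B) (φ : V →ₗ[ZMod 2] ZMod 2) : Prop :=
  ∀ h u, NN q φ h → φ u = 0 → ∃ z, NN q φ z ∧ q h z = q h u

/-- step (4): `N + (V_h ∩ V_g ∩ H) = H` for `h, g ∈ N` -/
def P4 (q : V →ₗ[ZMod 2] V →ₗ[ZMod 2] B) (φ : V →ₗ[ZMod 2] ZMod 2) : Prop :=
  ∀ h g u, NN q φ h → NN q φ g → φ u = 0 →
    ∃ n, NN q φ n ∧ q h (u + n) = 0 ∧ q g (u + n) = 0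

/-- saturation of `N` (Theorem U / S2): locally inner linear maps are inner -/
def P5 (q : V →ₗ[ZMod 2] V →ₗ[ZMod 2] B) (φ : V →ₗ[ZMod 2] ZMod 2) : Prop :=
  ∀ α : V →ₗ[ZMod 2] B, (∀ n n', NN q φ n → NN q φ n' →
    ∃ u, NN q φ u ∧ q u n = α n ∧ q u n' = α n') →
    ∃ u, NN q φ u ∧ ∀ n, NN q φ n → q u n = α n

/-- a proper orthogonal decomposition with disjoint values -/
def Splits (q : V →ₗ[ZMod 2] V →ₗ[ZMod 2] B) : Prop :=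
  ∃ A A' : Submodule (ZMod 2) V, IsCompl A A' ∧ A ≠ ⊥ ∧ A' ≠ ⊥ ∧
    (∀ a ∈ A, ∀ a' ∈ A', q a a' = 0) ∧
    ∀ a ∈ A, ∀ b ∈ A, ∀ a' ∈ A', ∀ b' ∈ A', q a b = q a' b' → q a b = 0

/-- Components of `H = ker φ`, given by projections defined on all of `V`. -/
structure HC (q : V →ₗ[ZMod 2] V →ₗ[ZMod 2] B) (φ : V →ₗ[ZMod 2] ZMod 2) (k : ℕ) where
  p : Fin k → (V →ₗ[ZMod 2] V)
  mem : ∀ j v, φ (p j v) = 0
  idem : ∀ j v, p j (p j v) = p j v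
  orth : ∀ i j, i ≠ j → ∀ v, p i (p j v) = 0
  sum : ∀ v, φ v = 0 → ∑ j, p j v = v
  perp : ∀ i j, i ≠ j → ∀ v w, q (p i v) (p j w) = 0
  ind : ∀ v w, φ v = 0 → φ w = 0 → q v w = 0 → ∀ j, q (p j v) (p j w) = 0
  ne : ∀ j, ∃ v, p j v ≠ 0

/-- local component: every element of it has rank at most one in `H` -/
def HC.Loc {q : V →ₗ[ZMod 2] V →ₗ[ZMod 2] B} {φ : V →ₗ[ZMod 2] ZMod 2} {k : ℕ}
    (C : HC q φ k) (j : Fin k) : Prop :=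
  ∀ v w w', φ w = 0 → φ w' = 0 →
    q (C.p j v) w = 0 ∨ q (C.p j v) w' = 0 ∨ q (C.p j v) (w + w') = 0

/-- `t` is rigid in the component `j` -/
def HC.Rg {q : V →ₗ[ZMod 2] V →ₗ[ZMod 2] B} {φ : V →ₗ[ZMod 2] ZMod 2} {k : ℕ}
    (C : HC q φ k) (j : Fin k) (t : V) : Prop :=
  C.p j t = t ∧ t ≠ 0 ∧ ∀ v, C.p j v = v → q t v = 0 → v = 0 ∨ v = t

/-- component with a rigid element -/
def HC.Ext {q : V →ₗ[ZMod 2] V →ₗ[ZMod 2] B} {φ : V →ₗ[ZMod 2] ZMod 2} {k : ℕ}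
    (C : HC q φ k) (j : Fin k) : Prop := ∃ t, C.Rg j t

/-- `x ∈ H` is total: all its components are rigid -/
def HC.Tot {q : V →ₗ[ZMod 2] V →ₗ[ZMod 2] B} {φ : V →ₗ[ZMod 2] ZMod 2} {k : ℕ}
    (C : HC q φ k) (x : V) : Prop := φ x = 0 ∧ ∀ j, C.Rg j (C.p j x)

end Pool.Agent.AST
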