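import Pool.Agent.AST.StmtsS
import Pool.Agent.AST.EXT

/-!
THEOREM A* (note 1742), module EXTH: components with a rigid element, only `H` is used.
-/

set_option autoImplicit false

namespace Pool.Agent.AST

open scoped BigOperators
open Pool.Agent.RFT Pool.Agent.ETG Pool.Agent.EWG

section EXTH_

variable {V B : Type} [AddCommGroup V] [Module (ZMod 2) V] [AddCommGroup B] [Module (ZMod 2) B]
variable {q : V →ₗ[ZMod 2] V →ₗ[ZMod 2] B} {φ : V →ₗ[ZMod 2] ZMod 2}

/-- a component is linked -/
theorem HC.lkH (hS : SitH q φ) {k : ℕ} (C : HC q φ k) (j : Fin k) :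
    LinkedAlt (q.domRestrict₁₂ (LinearMap.range (C.p j)) (LinearMap.range (C.p j))) := by
  have hfix : ∀ x : LinearMap.range (C.p j), C.p j x = x := by
    rintro ⟨x, y, rfl⟩
    exact C.idem j y
  refine ⟨fun x => hS.alt _, ?_⟩
  intro a b c d h
  have h' : q (a : V) (b : V) = q (c : V) (d : V) := h
  obtain ⟨s, hs, h1, h2⟩ := hS.link _ _ _ _ (C.phi j (hfix a)) (C.phi j (hfix b))
    (C.phi j (hfix c)) (C.phi j (hfix d)) h'
  refine ⟨⟨C.p j s, s, rfl⟩, ?_, ?_⟩
  · change q (a : V) (C.p j s) = q (a : V) (b : V)
    rw [← C.pair j (hfix a) hs, h1]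
  · change q (c : V) (C.p j s) = q (a : V) (b : V)
    rw [← C.pair j (hfix c) hs, h2]

/-- a component is nondegenerate -/
theorem HC.ndH (hS : SitH q φ) {k : ℕ} (C : HC q φ k) (j : Fin k) {v : V} (hv : C.p j v = v)
    (h : ∀ y, C.p j y = y → q v y = 0) : v = 0 := by
  apply hS.nd _ (C.phi j hv)
  intro y hy
  rw [C.pair j hv hy]
  exact h _ (C.idem j y)

end EXTH_

theorem EXTH : Stmt_EXTH := by
  intro V B _ _ _ _ _ q φ hS k C j hE
  classical
  have hfix : ∀ x : LinearMap.range (C.p j), C.p j x = x := by
    rintro ⟨x, y, rfl⟩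
    exact C.idem j y
  constructor
  · obtain ⟨t, htj, ht0, ht⟩ := hE
    have hlk := C.lkH hS j
    obtain ⟨hLZ, hEq⟩ := LZQ _ _ _ hlk
    have hND : ND (Zq (q.domRestrict₁₂ (LinearMap.range (C.p j)) (LinearMap.range (C.p j)))) := by
      intro a ha
      have : (a : V) = 0 := by
        apply C.ndH hS j (hfix a)
        intro y hy
        exact ha ⟨y, y, hy⟩
      exact Subtype.ext this
    obtain ⟨τ, hτ, hτ'⟩ := rig_proof _ _ hLZ hND ⟨t, t, htj⟩ (by
      refine ⟨fun h => ht0 (congrArg Subtype.val h), ?_⟩
      intro v hv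
      rcases ht v (hfix v) hv with h | h
      · exact Or.inl (Subtype.ext h)
      · exact Or.inr (Subtype.ext h))
    have hT : ∀ v (hv : C.p j v = v), (τ ∘ₗ (C.p j).rangeRestrict) v = τ ⟨v, v, hv⟩ := by
      intro v hv
      change τ ((C.p j).rangeRestrict v) = _
      congr 1
      exact Subtype.ext hv
    refine ⟨τ ∘ₗ (C.p j).rangeRestrict, t, htj, by rw [hT t htj, hτ], ?_⟩
    generalize hσ : τ ∘ₗ (C.p j).rangeRestrict = σ at hT
    have hσt : σ t = 1 := by rw [hT t htj, hτ]
    -- the property of `σ`
    have key : ∀ v w a, C.p j v = v → C.p j w = w → C.p j a = a → σ v = 0 → σ w = 0 →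
        q v w = q t a → q v w = 0 := by
      intro v w a hv hw ha h1 h2 h3
      have h4 := hτ' ⟨v, v, hv⟩ ⟨w, w, hw⟩ (by rw [← hT v hv, h1]) (by rw [← hT w hw, h2])
        ⟨⟨a, a, ha⟩, (hEq _ _ _ _).2 h3⟩
      exact h4
    intro v hv h1
    have hv0 : v ≠ 0 := by
      intro h
      rw [h, map_zero] at h1
      exact zero_ne_one h1
    refine ⟨hv, hv0, ?_⟩
    intro y hy h2
    have hvt : C.p j (v + t) = v + t := by rw [map_add, hv, htj]
    have hσv : σ (v + t) = 0 := by rw [map_add, h1, hσt, one_add_one2]
    rcases z2 (σ y) with h3 | h3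
    · -- `y = w'`
      have h4 : q (v + t) y = q t y := by
        rw [map_add, LinearMap.add_apply, h2, zero_add]
      have h5 := key (v + t) y y hvt hy hy hσv h3 h4
      rw [h4] at h5
      rcases ht y hy h5 with h6 | h6
      · exact Or.inl h6
      · rw [h6, hσt] at h3
        exact absurd h3 one_ne_zero
    · have hyt : C.p j (y + t) = y + t := by rw [map_add, hy, htj]
      have hσy : σ (y + t) = 0 := by rw [map_add, h3, hσt, one_add_one2]
      have h4 : q (v + t) (y + t) = q t (y + v) := by
        rw [map_add, map_add, map_add, LinearMap.add_apply, LinearMap.add_apply, h2, zero_add,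
          hS.alt t, add_zero, hS.symm v t]
      have h5 := key (v + t) (y + t) (y + v) hvt hyt (by rw [map_add, hy, hv]) hσv hσy h4
      rw [h4] at h5
      rcases ht (y + v) (by rw [map_add, hy, hv]) h5 with h6 | h6
      · exact Or.inr (eq_iff_add.2 h6)
      · have h7 := congrArg σ h6
        rw [map_add, h3, h1, hσt, one_add_one2] at h7
        exact absurd h7 zero_ne_one
  · intro hL v hv
    obtain ⟨hvj, hv0, hv⟩ := hv
    by_contra hcon
    push Not at hcon
    apply hL
    -- a nonzero value
    obtain ⟨y, hy, hvy⟩ : ∃ y, C.p j y = y ∧ q v y ≠ 0 := by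
      by_contra h
      push Not at h
      exact hv0 (C.ndH hS j hvj h)
    have hall : ∀ x, C.p j x = x → x = 0 ∨ x = v ∨ x = y ∨ x = y + v := by
      intro x hx
      by_cases h1 : q v x = 0
      · rcases hv x hx h1 with h2 | h2
        · exact Or.inl h2
        · exact Or.inr (Or.inl h2)
      · have h2 := hcon y x hy hx hvy h1
        rcases hv (y + x) (by rw [map_add, hy, hx]) (by rw [map_add, h2, self_add]) with h3 | h3
        · exact Or.inr (Or.inr (Or.inl (eq_iff_add.2 h3).symm))
        · refine Or.inr (Or.inr (Or.inr ?_))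
          rw [← h3, ← add_assoc, self_add, zero_add]
    have hval : ∀ x w, C.p j x = x → C.p j w = w → q x w = 0 ∨ q x w = q v y := by
      intro x w hx hw
      rcases hall x hx with rfl | rfl | rfl | rfl
      · left; rw [map_zero, LinearMap.zero_apply]
      · rcases hall w hw with rfl | rfl | rfl | rfl
        · left; exact map_zero _
        · left; exact hS.alt _
        · right; rfl
        · right; rw [map_add, hS.alt, add_zero]
      · rcases hall w hw with rfl | rfl | rfl | rfl
        · left; exact map_zero _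
        · right; exact hS.symm _ _
        · left; exact hS.alt _
        · right; rw [map_add, hS.alt, zero_add]; exact hS.symm _ _
      · rcases hall w hw with rfl | rfl | rfl | rfl
        · left; exact map_zero _
        · right; rw [map_add, LinearMap.add_apply, hS.alt, add_zero]; exact hS.symm _ _
        · right; rw [map_add, LinearMap.add_apply, hS.alt, zero_add]
        · left; exact hS.alt _
    intro x w w' hw hw'
    have hx := C.idem j x
    have e1 := C.pair j hx hw
    have e2 := C.pair j hx hw'
    have e3 : q (C.p j x) (w + w') = q (C.p j x) w + q (C.p j x) w' := map_add _ _ _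
    rw [e3]
    rcases hval _ _ hx (C.idem j w) with h1 | h1
    · exact Or.inl (e1.trans h1)
    · rcases hval _ _ hx (C.idem j w') with h2 | h2
      · exact Or.inr (Or.inl (e2.trans h2))
      · right; right
        rw [e1, e2, h1, h2, self_add]

end Pool.Agent.AST
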