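import Pool.Agent.AST.Stmts
import Pool.Agent.REG10.FN.Defs

/-!
THEOREM A* (note 1742): statements of the modules around the core: from quaternionic structures
with `-1 = 1` to the standing situation and back.
-/

set_option autoImplicit false

namespace Pool.Agent.AST

open scoped BigOperators
open Pool.Agent.RFT Pool.Agent.ETG Pool.Agent.RFN

/-- the relation `q a b = 0` -/
def Zq {V B : Type} [AddCommGroup V] [Module (ZMod 2) V] [AddCommGroup B] [Module (ZMod 2) B]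
    (q : V →ₗ[ZMod 2] V →ₗ[ZMod 2] B) (a b : V) : Prop := q a b = 0

/-- a prime functional of a relation -/
def PrimeZ {V : Type} [AddCommGroup V] [Module (ZMod 2) V] (Z : V → V → Prop)
    (φ : V →ₗ[ZMod 2] ZMod 2) : Prop :=
  φ ≠ 0 ∧ ∀ x y, (∃ v, Z x v ∧ φ v = 1) → (∃ v, Z y v ∧ φ v = 1) →
    (∃ v, Z (x + y) v ∧ φ v = 1) → ∃ v, Z x v ∧ Z y v ∧ φ v = 1

/-- all smaller structures are of elementary type -/
def Smaller (V : Type) : Prop := ∀ (U : Type) [AddCommGroup U] [Module (ZMod 2) U] [Finite U]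
  (ZU : U → U → Prop), LZ ZU → Nat.card U < Nat.card V → ETZ ZU

/-- a linked alternating map gives a linked relation, equality of values is `EqQ` -/
def Stmt_LZQ : Prop := ∀ (V B : Type) [AddCommGroup V] [Module (ZMod 2) V] [AddCommGroup B]
  [Module (ZMod 2) B] (q : V →ₗ[ZMod 2] V →ₗ[ZMod 2] B), LinkedAlt q →
  LZ (Zq q) ∧ ∀ a b c d, EqQ (Zq q) a b c d ↔ q a b = q c d

/-- every linked relation comes from a linked alternating map -/
def Stmt_BIL : Prop := ∀ (V : Type) [AddCommGroup V] [Module (ZMod 2) V] [Finite V]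
  (Z : V → V → Prop), LZ Z → ∃ (B : Type) (_ : AddCommGroup B) (_ : Module (ZMod 2) B)
  (q : V →ₗ[ZMod 2] V →ₗ[ZMod 2] B), LinkedAlt q ∧ ∀ a b, q a b = 0 ↔ Z a b

/-- `H = ker φ` is linked and nondegenerate -/
def Stmt_HLK : Prop := ∀ (V B : Type) [AddCommGroup V] [Module (ZMod 2) V] [AddCommGroup B]
  [Module (ZMod 2) B] (q : V →ₗ[ZMod 2] V →ₗ[ZMod 2] B) (φ : V →ₗ[ZMod 2] ZMod 2), Sit q φ →
  LinkedAlt (q.domRestrict₁₂ (LinearMap.ker φ) (LinearMap.ker φ)) ∧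
  ∀ h : LinearMap.ker φ, (∀ y : LinearMap.ker φ, q h y = 0) → h = 0

/-- components of `H` -/
def Stmt_CMP : Prop := ∀ (V B : Type) [AddCommGroup V] [Module (ZMod 2) V] [AddCommGroup B]
  [Module (ZMod 2) B] [Finite V] (q : V →ₗ[ZMod 2] V →ₗ[ZMod 2] B) (φ : V →ₗ[ZMod 2] ZMod 2),
  Sit q φ → OSZ (Zq (q.domRestrict₁₂ (LinearMap.ker φ) (LinearMap.ker φ))) →
  ∃ (k : ℕ) (C : HC q φ k), ∀ j, C.Loc j ∨ C.Ext j

/-- a minimal structure not of elementary type has no element of rank at most one and no rigid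
element -/
def Stmt_RED : Prop := ∀ (V : Type) [AddCommGroup V] [Module (ZMod 2) V] [Finite V]
  (Z : V → V → Prop), LZ Z → Smaller V → ¬ ETZ Z →
  (∀ x, (∀ v w, Z x v ∨ Z x w ∨ Z x (v + w)) → x = 0) ∧
  ∀ t, t ≠ 0 → ∃ v, Z t v ∧ v ≠ 0 ∧ v ≠ t

/-- a structure that splits is of elementary type if the smaller ones are -/
def Stmt_SPL : Prop := ∀ (V B : Type) [AddCommGroup V] [Module (ZMod 2) V] [AddCommGroup B]
  [Module (ZMod 2) B] [Finite V] (q : V →ₗ[ZMod 2] V →ₗ[ZMod 2] B), LinkedAlt q →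
  Smaller V → Splits q → ETZ (Zq q)

/-- Theorem A* for relations -/
def Stmt_ASZ : Prop := ∀ (V : Type) [AddCommGroup V] [Module (ZMod 2) V] [Finite V]
  (Z : V → V → Prop), LZ Z → Smaller V → (∃ φ, PrimeZ Z φ) → ETZ Z

/-- elementary type gives components (`Pool.Agent.RFN.eos_proof`) -/
def Stmt_OSS : Prop := ∀ (V : Type) [AddCommGroup V] [Module (ZMod 2) V] (Z : V → V → Prop),
  LZ Z → ETZ Z → OSZ Z

theorem asz_of (h1 : Stmt_CORE) (h2 : Stmt_LZQ) (h3 : Stmt_BIL) (h4 : Stmt_HLK) (h5 : Stmt_CMP)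
    (h6 : Stmt_RED) (h7 : Stmt_SPL) (h8 : Stmt_OSS) : Stmt_ASZ := by
  intro V _ _ _ Z hZ hsm hφ
  by_contra hET
  obtain ⟨φ, hφ0, hφ⟩ := hφ
  obtain ⟨B, _, _, q, hq, hqZ⟩ := h3 V Z hZ
  obtain ⟨hr1, hrg⟩ := h6 V Z hZ hsm hET
  have hZq : Zq q = Z := by
    funext a b
    exact propext (hqZ a b)
  have hS : Sit q φ := by
    refine ⟨hq, fun x hx => hr1 x ?_, fun t ht => ?_, hφ0, ?_⟩
    · intro v w
      rw [← hqZ, ← hqZ, ← hqZ]
      exact hx v w
    · obtain ⟨v, h, h'⟩ := hrg t ht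
      exact ⟨v, (hqZ t v).2 h, h'⟩
    · intro x y
      simp only [hqZ]
      exact hφ x y
  have hcard : Nat.card (LinearMap.ker φ) < Nat.card V := by
    have hne : LinearMap.ker φ ≠ ⊤ := by
      intro h
      exact hφ0 (LinearMap.ker_eq_top.1 h)
    obtain ⟨v, hv⟩ : ∃ v, v ∉ LinearMap.ker φ := by
      by_contra h
      push Not at h
      exact hne (eq_top_iff.2 fun v _ => h v)
    classical
    have := Fintype.ofFinite V
    rw [Nat.card_eq_fintype_card, Nat.card_eq_fintype_card]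
    refine Fintype.card_lt_of_injective_of_notMem (Subtype.val : LinearMap.ker φ → V)
      Subtype.val_injective (b := v) ?_
    rintro ⟨w, rfl⟩
    exact hv w.2
  obtain ⟨hHl, -⟩ := h4 V B q φ hS
  have hHLZ := (h2 _ B _ hHl).1
  have hHET := hsm _ _ hHLZ hcard
  obtain ⟨k, C, hC⟩ := h5 V B q φ hS (h8 _ _ hHLZ hHET)
  have := h7 V B q hq hsm (h1 V B q φ hS k C hC)
  rw [hZq] at this
  exact hET this

end Pool.Agent.AST
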