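import Pool.Agent.AST.BAS
import Pool.Agent.AST.StmtsF

/-!
THEOREM A* (note 1742): the kernel of a prime functional is linked and nondegenerate.
-/

set_option autoImplicit false

namespace Pool.Agent.AST

open Pool.Agent.RFT

theorem HLK : Stmt_HLK := by
  intro V B _ _ _ _ q φ hS
  refine ⟨⟨fun x => hS.alt x, fun a b c d h => ?_⟩, fun h h1 => ?_⟩
  · obtain ⟨s, h1, h2, h3⟩ := hS.slot2 (h := (a : V)) (g := (c : V)) (c := q (a : V) b) a.2 c.2
      ⟨b, b.2, rfl⟩ ⟨d, d.2, h.symm⟩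
    exact ⟨⟨s, h1⟩, h2, h3⟩
  · apply Subtype.ext
    exact hS.nd fun y hy => h1 ⟨y, hy⟩

end Pool.Agent.AST
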