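import Pool.Agent.AST.BAS
import Pool.Agent.AST.Stmts
import Pool.Agent.ETC.QSat2

/-!
THEOREM A* (note 1742): saturation of `N`.  The restriction of `q` to `N` is linked (a slot in
`H`, corrected into `N` by step (4)), so the saturation theorem for finite linked structures
applies: locally inner linear maps on `N` are inner.
-/

set_option autoImplicit false

namespace Pool.Agent.AST

open Pool.Agent.RFT

variable {V B : Type} [AddCommGroup V] [Module (ZMod 2) V] [AddCommGroup B] [Module (ZMod 2) B]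
variable {q : V →ₗ[ZMod 2] V →ₗ[ZMod 2] B} {φ : V →ₗ[ZMod 2] ZMod 2}

/-- `N` as a submodule -/
def Nsub (hS : Sit q φ) (h2 : P2 q φ) : Submodule (ZMod 2) V where
  carrier := {h | NN q φ h}
  add_mem' := fun {a b} ha hb => h2 a b ha hb
  zero_mem' := hS.zero_mem
  smul_mem' := by
    intro c x hx
    rcases z2 c with rfl | rfl
    · rw [zero_smul]; exact hS.zero_mem
    · rw [one_smul]; exact hx

/-- the restriction of `q` to a submodule -/
def qres (q : V →ₗ[ZMod 2] V →ₗ[ZMod 2] B) (N : Submodule (ZMod 2) V) :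
    N →ₗ[ZMod 2] N →ₗ[ZMod 2] B :=
  (q.domRestrict N).compl₂ N.subtype

theorem qres_apply (N : Submodule (ZMod 2) V) (a b : N) : qres q N a b = q a b := rfl

theorem qres_linked (hS : Sit q φ) (h2 : P2 q φ) (h4 : P4 q φ) :
    LinkedAlt (qres q (Nsub hS h2)) where
  alt x := hS.alt _
  link a b c d h := by
    have ha : NN q φ a := a.2
    have hc : NN q φ c := c.2
    have hb : NN q φ b := b.2
    have hd : NN q φ d := d.2
    have h' : q (a : V) b = q (c : V) d := h
    obtain ⟨t, ht, e1, e2⟩ := hS.slot2 (c := q (a : V) b) ha.1 hc.1 ⟨b, hb.1, rfl⟩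
      ⟨d, hd.1, h'.symm⟩
    obtain ⟨n, hn, e3, e4⟩ := h4 a c t ha hc ht
    refine ⟨⟨n, hn⟩, ?_, ?_⟩
    · change q (a : V) n = q (a : V) b
      rw [map_add] at e3
      rw [← eq_of_add_zero e3, e1]
    · change q (c : V) n = q (a : V) b
      rw [map_add] at e4
      rw [← eq_of_add_zero e4, e2]

theorem INN : Stmt_INN := by
  intro V B _ _ _ _ _ q φ hS h2 h4 α hα
  have hL := qres_linked hS h2 h4
  have hfin : Finite (Nsub hS h2) := inferInstance
  have hP : ETC.Pairwise2 hL.toQData (fun x : Nsub hS h2 => α x) := by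
    intro x x'
    obtain ⟨u, hu, e1, e2⟩ := hα x x' x.2 x'.2
    refine ⟨⟨u, hu⟩, ?_, ?_, ?_⟩
    · change α x = q (x : V) u
      rw [hS.symm, e1]
    · change α x' = q (x' : V) u
      rw [hS.symm, e2]
    · change α ((x : V) + x') = q ((x : V) + x') u
      rw [hS.symm, map_add, map_add, e1, e2]
  obtain ⟨p, hp⟩ := ETC.saturation hP
  refine ⟨p, p.2, fun n hn => ?_⟩
  have := hp ⟨n, hn⟩
  change α n = q n (p : V) at this
  rw [hS.symm, this]

end Pool.Agent.AST
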