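import Pool.Agent.AST.BAS
import Pool.Agent.AST.Stmts
import Pool.Agent.AST.SYM
import Pool.Agent.AST.EXT

/-!
THEOREM A* (note 1742): Lemma 2, no total element is in `N`.
-/

set_option autoImplicit false

namespace Pool.Agent.AST

open scoped BigOperators
open Pool.Agent.RFT

theorem smul_cases {M : Type} [AddCommGroup M] [Module (ZMod 2) M] (e : ZMod 2) (x : M) :
    (e = 0 ∧ e • x = 0) ∨ (e = 1 ∧ e • x = x) := by
  rcases z2 e with h | h
  · exact Or.inl ⟨h, by rw [h, zero_smul]⟩
  · exact Or.inr ⟨h, by rw [h, one_smul]⟩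

/-- the combinations of the components of an element -/
def xs {V : Type} [AddCommGroup V] [Module (ZMod 2) V] {k : ℕ} (x : Fin k → V) :
    (Fin k → ZMod 2) →ₗ[ZMod 2] V :=
  LinearMap.lsum (ZMod 2) (fun _ => ZMod 2) (ZMod 2) fun j => LinearMap.toSpanSingleton _ _ (x j)

theorem xs_apply {V : Type} [AddCommGroup V] [Module (ZMod 2) V] {k : ℕ} (x : Fin k → V)
    (e : Fin k → ZMod 2) : xs x e = ∑ j, e j • x j := by
  simp [xs, LinearMap.lsum_apply, LinearMap.toSpanSingleton_apply]

theorem LEM2_of (hSYM : Stmt_SYM) (hEXT : Stmt_EXT) : Stmt_LEM2 := by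
  classical
  intro V B _ _ _ _ _ q φ hS k C hC x hx hN
  obtain ⟨hSa, hSb, hSc, hSd⟩ := hSYM V B q φ hS k C
  have hpsum : ∀ f : Fin k → V, (∀ j, C.p j (f j) = f j) → ∀ j, C.p j (∑ i, f i) = f j := by
    intro f hf j
    rw [map_sum, Finset.sum_eq_single j, hf j]
    · intro i _ hij
      rw [← hf i]
      exact C.orth j i (Ne.symm hij) _
    · intro h
      exact absurd (Finset.mem_univ j) h
  have hφj : ∀ j v, C.p j v = v → φ v = 0 := by
    intro j v hv
    rw [← hv]
    exact C.mem j v
  have hφsum : ∀ f : Fin k → V, (∀ j, C.p j (f j) = f j) → φ (∑ i, f i) = 0 := by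
    intro f hf
    rw [map_sum]
    exact Finset.sum_eq_zero fun i _ => hφj i _ (hf i)
  -- components of combinations
  set X := xs fun j => C.p j x with hX
  have hXa : ∀ e, X e = ∑ j, e j • C.p j x := xs_apply _
  have hXp : ∀ e j, C.p j (X e) = e j • C.p j x := by
    intro e j
    rw [hXa]
    refine hpsum (fun j => e j • C.p j x) ?_ j
    intro j
    rw [map_smul, C.idem]
  have hφX : ∀ e, φ (X e) = 0 := by
    intro e
    rw [hXa]
    refine hφsum (fun j => e j • C.p j x) ?_
    intro j
    rw [map_smul, C.idem]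
  -- `q (X e) g` for `g` in a component
  have hqXj : ∀ e j g, C.p j g = g → q (X e) g = e j • q (C.p j x) g := by
    intro e j g hg
    rw [hS.symm, hSd j g (X e) hg (hφX e), hXp, map_smul, hS.symm]
  have hqX : ∀ e g, φ g = 0 → q (X e) g = ∑ j, e j • q (C.p j x) (C.p j g) := by
    intro e g hg
    conv_lhs => rw [← C.sum g hg]
    rw [map_sum]
    exact Finset.sum_congr rfl fun j _ => hqXj e j _ (C.idem j g)
  have hqXX : ∀ e d, q (X e) (X d) = 0 := by
    intro e d
    rw [hqX e _ (hφX d)]
    refine Finset.sum_eq_zero fun j _ => ?_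
    rw [hXp, map_smul, hS.alt, smul_zero, smul_zero]
  have hX1 : X (fun _ => 1) = x := by
    rw [hXa]
    simp only [one_smul]
    exact C.sum x hx.1
  have hqxX : ∀ e, q x (X e) = 0 := by
    intro e
    conv_lhs => rw [← hX1]
    exact hqXX _ _
  -- the centralizer of `x` in `H`
  have hcen : ∀ h, φ h = 0 → q x h = 0 → ∃ e, h = X e := by
    intro h hh hq
    have hi := C.ind x h hx.1 hh hq
    have h1 : ∀ j, ∃ e : ZMod 2, C.p j h = e • C.p j x := by
      intro j
      rcases (hx.2 j).2.2 (C.p j h) (C.idem j h) (hi j) with h2 | h2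
      · exact ⟨0, by rw [h2, zero_smul]⟩
      · exact ⟨1, by rw [h2, one_smul]⟩
    choose e he using h1
    refine ⟨e, ?_⟩
    rw [hXa, ← C.sum h hh]
    exact Finset.sum_congr rfl fun j _ => he j
  -- (1)
  have hone : ∀ v, φ v = 1 → q x v = 0 → ∀ g, φ g = 0 → ∃ e, q v (g + X e) = q (X e) g := by
    intro v hv hxv g hg
    obtain ⟨w', h1, h2, h3⟩ := hS.S hN (w := v + g) (by rw [map_add, hv, hg, add_zero])
    obtain ⟨e, he⟩ := hcen (w' + v) (by rw [map_add, h1, hv, one_add_one2])
      (by rw [map_add, h2, hxv, add_zero])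
    refine ⟨e, ?_⟩
    have h4 : w' = v + X e := by
      rw [← he, add_comm w' v, ← add_assoc, self_add, zero_add]
    have h5 : q (v + g) (v + X e) = q v v + q g v + (q v (X e) + q g (X e)) := by
      simp only [map_add, LinearMap.add_apply]
    rw [h4, h5, hS.alt, zero_add] at h3
    rw [eq_iff_add, map_add, ← h3, hS.symm v g, hS.symm (X e) g]
    abel
  obtain ⟨-, v, hv, hxv⟩ := hN
  -- the subspace `D`
  set D : Submodule (ZMod 2) B := LinearMap.range ((q v).comp X) with hD
  have hDm : ∀ e, q v (X e) ∈ D := fun e => ⟨e, rfl⟩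
  have hDe : ∀ b ∈ D, ∃ e, b = q v (X e) := by
    rintro b ⟨e, rfl⟩
    exact ⟨e, rfl⟩
  have hun : ∀ j, (∀ g, C.p j g = g → q v g ∈ D) ∨ ∀ g, C.p j g = g → q (v + C.p j x) g ∈ D := by
    intro j
    have key : ∀ g, C.p j g = g → q v g ∈ D ∨ q (v + C.p j x) g ∈ D := by
      intro g hg
      obtain ⟨e, he⟩ := hone v hv hxv g (hφj j g hg)
      rw [hqXj e j g hg, map_add] at he
      rcases smul_cases (e j) (q (C.p j x) g) with ⟨-, h1⟩ | ⟨-, h1⟩
      · left
        rw [h1, ← eq_iff_add] at he
        rw [he]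
        exact hDm e
      · right
        rw [h1] at he
        rw [map_add, LinearMap.add_apply, ← he, ← add_assoc, self_add, zero_add]
        exact hDm e
    by_contra hcon
    push Not at hcon
    obtain ⟨⟨g1, hg1, hg1'⟩, g2, hg2, hg2'⟩ := hcon
    have k1 := (key g1 hg1).resolve_left hg1'
    have k2 := (key g2 hg2).resolve_right hg2'
    rcases key (g1 + g2) (by rw [map_add, hg1, hg2]) with h | h
    · rw [map_add] at h
      exact hg1' ((Submodule.add_mem_iff_left D k2).1 h)
    · rw [map_add] at h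
      exact hg2' ((Submodule.add_mem_iff_right D k1).1 h)
  -- the new `v`
  have hd : ∃ d : Fin k → ZMod 2, ∀ j g, C.p j g = g → q (v + X d) g ∈ D := by
    have h1 : ∀ j, ∃ e : ZMod 2, ∀ g, C.p j g = g → q v g + e • q (C.p j x) g ∈ D := by
      intro j
      rcases hun j with h | h
      · exact ⟨0, fun g hg => by rw [zero_smul, add_zero]; exact h g hg⟩
      · refine ⟨1, fun g hg => ?_⟩
        have := h g hg
        rwa [map_add, LinearMap.add_apply, ← one_smul (ZMod 2) (q (C.p j x) g)] at this
    choose d hd using h1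
    refine ⟨d, fun j g hg => ?_⟩
    rw [map_add, LinearMap.add_apply, hqXj d j g hg]
    exact hd j g hg
  obtain ⟨d, hd⟩ := hd
  set u := v + X d with hu
  have hφu : φ u = 1 := by rw [hu, map_add, hv, hφX, add_zero]
  have hxu : q x u = 0 := by rw [hu, map_add, hxv, hqxX, add_zero]
  have huX : ∀ e, q u (X e) = q v (X e) := by
    intro e
    rw [hu, map_add, LinearMap.add_apply, hqXX, add_zero]
  have huD : ∀ g, φ g = 0 → q u g ∈ D := by
    intro g hg
    rw [← C.sum g hg, map_sum]
    exact D.sum_mem fun j _ => hd j _ (C.idem j g)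
  -- counting
  have hcount : ∀ g, φ g = 0 → (∀ j, q (C.p j x) (C.p j g) ≠ 0) → ∀ b ∈ D, ∃ e, q (X e) g = b := by
    intro g hg hg' b hb
    have hinj : ∀ e, q (X e) g = 0 → e = 0 := by
      intro e he
      have h1 := C.ind (X e) g (hφX e) hg he
      funext j
      have h2 := h1 j
      rw [hXp, map_smul, LinearMap.smul_apply] at h2
      rcases z2 (e j) with h3 | h3
      · exact h3
      · rw [h3, one_smul] at h2
        exact absurd h2 (hg' j)
    let P := {e : Fin k → ZMod 2 // q (X e) g ∈ D}
    let f : P → D := fun e => ⟨q u (X e.1) + q (X e.1) g, by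
      rw [huX]
      exact D.add_mem (hDm _) e.2⟩
    let f' : P → D := fun e => ⟨q (X e.1) g, e.2⟩
    have hf' : Function.Injective f' := by
      rintro ⟨e, he⟩ ⟨e', he'⟩ h
      have h1 : q (X e) g = q (X e') g := congrArg Subtype.val h
      apply Subtype.ext
      have h2 : q (X (e + e')) g = 0 := by
        rw [map_add, map_add, LinearMap.add_apply, h1, self_add]
      exact eq_iff_add.2 (hinj _ h2)
    have hf : Function.Surjective f := by
      rintro ⟨c, hc⟩
      obtain ⟨m, hm⟩ := hDe (c + q u g) (D.add_mem hc (huD g hg))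
      obtain ⟨e, he⟩ := hone u hφu hxu (g + X m) (by rw [map_add, hg, hφX, add_zero])
      rw [map_add (q (X e)), hqXX, add_zero, map_add, map_add, huX m, ← hm] at he
      have h1 : q u (X e) + q (X e) g = c := by
        rw [← he]
        have : q u (X e) + (q u g + (c + q u g) + q u (X e)) =
          (q u (X e) + q u (X e)) + (q u g + q u g) + c := by abel
        rw [this, self_add, self_add, zero_add, zero_add]
      have h2 : q (X e) g ∈ D := by
        have h3 : q (X e) g = c + q u (X e) := by
          rw [← h1, add_comm (q u (X e)), add_assoc, self_add, add_zero]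
        rw [h3, huX]
        exact D.add_mem hc (hDm e)
      exact ⟨⟨e, h2⟩, Subtype.ext h1⟩
    have hfin : Finite P := inferInstance
    have hfinD : Finite D := Finite.of_surjective f hf
    have hb' : Function.Bijective f' := by
      refine Function.Injective.bijective_of_nat_card_le hf' ?_
      exact Nat.card_le_card_of_surjective f hf
    obtain ⟨⟨e, he⟩, h⟩ := hb'.2 ⟨b, hb⟩
    exact ⟨e, congrArg Subtype.val h⟩
  -- two values
  have hy := fun j => (hEXT V B q φ hS k C j (hC j).1).2 (hC j).2 (C.p j x) (hx.2 j)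
  choose y y' hy1 hy1' hy2 hy3 hy4 using hy
  have hD0 : ∀ b ∈ D, b = 0 := by
    intro b hb
    obtain ⟨e, he⟩ := hcount (∑ j, y j) (hφsum y hy1)
      (fun j => by rw [hpsum y hy1 j]; exact hy2 j) b hb
    obtain ⟨e', he'⟩ := hcount (∑ j, y' j) (hφsum y' hy1')
      (fun j => by rw [hpsum y' hy1' j]; exact hy3 j) b hb
    have h1 := hSa (X e) (∑ j, y j) (X e') (∑ j, y' j) (hφX e) (hφsum y hy1) (hφX e')
      (hφsum y' hy1') (he.trans he'.symm)
    have h2 : e = 0 := by
      funext j
      have h3 := h1 j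
      rw [hpsum y hy1 j, hpsum y' hy1' j, hXp, hXp, map_smul, map_smul, LinearMap.smul_apply,
        LinearMap.smul_apply] at h3
      rcases z2 (e j) with h4 | h4
      · exact h4
      · exfalso
        rw [h4, one_smul] at h3
        rcases z2 (e' j) with h5 | h5
        · rw [h5, zero_smul] at h3
          exact hy2 j h3
        · rw [h5, one_smul] at h3
          exact hy4 j h3
    rw [← he, h2, map_zero, map_zero, LinearMap.zero_apply]
  have hu0 : u = 0 := by
    apply hS.nd'
    intro g
    rcases z2 (φ g) with h | h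
    · exact hD0 _ (huD g h)
    · have h1 : q u (g + u) = 0 := hD0 _ (huD _ (by rw [map_add, h, hφu, one_add_one2]))
      rwa [map_add, hS.alt, add_zero] at h1
  rw [hu0, map_zero] at hφu
  exact zero_ne_one hφu

theorem LEM2 : Stmt_LEM2 := LEM2_of SYM EXT

end Pool.Agent.AST
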