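import Pool.Agent.AST.SYM

/-!
THEOREM A* (note 1742): a local component has one value (modules LOC and LOCH).
-/

set_option autoImplicit false

namespace Pool.Agent.AST

open scoped BigOperators
open Pool.Agent.RFT

/-- LOC under the weaker hypothesis `SitH` -/
theorem LOCH (V B : Type) [AddCommGroup V] [Module (ZMod 2) V] [AddCommGroup B]
    [Module (ZMod 2) B] (q : V →ₗ[ZMod 2] V →ₗ[ZMod 2] B) (φ : V →ₗ[ZMod 2] ZMod 2)
    (hS : SitH q φ) (k : ℕ) (C : HC q φ k) (i : Fin k) (hL : C.Loc i) : ∃ e, e ≠ 0 ∧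
    (∀ v w, φ w = 0 → q (C.p i v) w = 0 ∨ q (C.p i v) w = e) ∧
    ∀ v, C.p i v ≠ 0 → ∃ w, C.p i w = w ∧ q (C.p i v) w = e := by
  -- an element of the component has at most one nonzero value
  have huniq : ∀ v a b, φ a = 0 → φ b = 0 → q (C.p i v) a ≠ 0 → q (C.p i v) b ≠ 0 →
      q (C.p i v) a = q (C.p i v) b := by
    intro v a b ha hb h1 h2
    rcases hL v a b ha hb with h | h | h
    · exact absurd h h1
    · exact absurd h h2
    · rwa [map_add, ← eq_iff_add] at h
  -- nonzero elements of the component have a nonzero value, taken inside the component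
  have hval : ∀ v, C.p i v ≠ 0 → ∃ w, C.p i w = w ∧ q (C.p i v) w ≠ 0 := by
    intro v hv
    by_contra hcon
    push Not at hcon
    refine hv (hS.nd _ (C.mem i v) fun y hy => ?_)
    rw [C.q_pp i v hy]
    exact hcon (C.p i y) (C.idem i y)
  have hmem : ∀ w, C.p i w = w → φ w = 0 := fun w hw => by rw [← hw]; exact C.mem i w
  obtain ⟨v₀, hv₀⟩ := C.ne i
  obtain ⟨w₀, hw₀, hne₀⟩ := hval v₀ hv₀
  -- all nonzero values agree
  have hall : ∀ v w, C.p i w = w → q (C.p i v) w ≠ 0 → q (C.p i v) w = q (C.p i v₀) w₀ := by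
    intro v w hw hne
    by_contra hdiff
    -- cross values vanish
    have h1 : q (C.p i v₀) w = 0 := by
      by_contra h
      have e1 := huniq v₀ w w₀ (hmem w hw) (hmem w₀ hw₀) h hne₀
      have e2 := huniq w (C.p i v) (C.p i v₀) (C.mem i v) (C.mem i v₀)
        (by rw [hw, hS.symm]; exact hne) (by rw [hw, hS.symm]; exact h)
      rw [hw, hS.symm, hS.symm w] at e2
      exact hdiff (e2.trans e1)
    have h2 : q (C.p i v) w₀ = 0 := by
      by_contra h
      have e1 := huniq v w₀ w (hmem w₀ hw₀) (hmem w hw) h hne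
      have e2 := huniq w₀ (C.p i v) (C.p i v₀) (C.mem i v) (C.mem i v₀)
        (by rw [hw₀, hS.symm]; exact h) (by rw [hw₀, hS.symm]; exact hne₀)
      rw [hw₀, hS.symm, hS.symm w₀] at e2
      exact hdiff (e1.symm.trans e2)
    have h3 : q (C.p i (v + v₀)) w = q (C.p i v) w := by
      rw [map_add, map_add, LinearMap.add_apply, h1, add_zero]
    have h4 : q (C.p i (v + v₀)) w₀ = q (C.p i v₀) w₀ := by
      rw [map_add, map_add, LinearMap.add_apply, h2, zero_add]
    have e := huniq (v + v₀) w w₀ (hmem w hw) (hmem w₀ hw₀) (by rw [h3]; exact hne)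
      (by rw [h4]; exact hne₀)
    rw [h3, h4] at e
    exact hdiff e
  refine ⟨q (C.p i v₀) w₀, hne₀, fun v w hw => ?_, fun v hv => ?_⟩
  · rw [C.q_pp i v hw]
    by_cases h : q (C.p i v) (C.p i w) = 0
    · exact Or.inl h
    · exact Or.inr (hall v _ (C.idem i w) h)
  · obtain ⟨w, hw, hne⟩ := hval v hv
    exact ⟨w, hw, hall v w hw hne⟩

theorem LOC : Stmt_LOC := fun V B _ _ _ _ q φ hS k C i hL => LOCH V B q φ hS.toSitH k C i hL

end Pool.Agent.AST
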