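import Pool.Agent.AST.BAS
import Pool.Agent.AST.Stmts
import Pool.Agent.AST.SYM
import Pool.Agent.AST.EXT

/-!
THEOREM A* (note 1742): Proposition 1 when no component is local.
-/

set_option autoImplicit false

namespace Pool.Agent.AST

open scoped BigOperators
open Pool.Agent.RFT

/-- a symbol of a nonlocal component with a rigid element has a nonzero slot in the kernel of
the functional of the component -/
theorem P1E_slot {V B : Type} [AddCommGroup V] [Module (ZMod 2) V] [AddCommGroup B]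
    [Module (ZMod 2) B] {q : V →ₗ[ZMod 2] V →ₗ[ZMod 2] B} {φ : V →ₗ[ZMod 2] ZMod 2}
    (hS : Sit q φ) {k : ℕ} (C : HC q φ k)
    (hD : ∀ j v y, C.p j v = v → φ y = 0 → q v y = q v (C.p j y))
    (j : Fin k) (hL : ¬ C.Loc j) (τ : V →ₗ[ZMod 2] ZMod 2) (a b : V) :
    ∃ y, C.p j y = y ∧ y ≠ 0 ∧ τ y = 0 ∧ QH q φ y (q (C.p j a) (C.p j b)) := by
  by_cases h0 : q (C.p j a) (C.p j b) = 0
  · rw [h0]
    unfold HC.Loc at hL
    push Not at hL
    obtain ⟨v, w, w', hw, hw', h1, h2, h3⟩ := hL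
    rw [hD j _ _ (C.idem j v) hw] at h1
    rw [hD j _ _ (C.idem j v) hw'] at h2
    rw [hD j _ _ (C.idem j v) (by rw [map_add, hw, hw', add_zero]), map_add] at h3
    have n1 : C.p j w ≠ 0 := fun h => h1 (by rw [h, map_zero])
    have n2 : C.p j w' ≠ 0 := fun h => h2 (by rw [h, map_zero])
    have n3 : C.p j w + C.p j w' ≠ 0 := fun h => h3 (by rw [h, map_zero])
    rcases z2 (τ (C.p j w)) with t1 | t1
    · exact ⟨_, C.idem j w, n1, t1, QH.zero _⟩
    · rcases z2 (τ (C.p j w')) with t2 | t2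
      · exact ⟨_, C.idem j w', n2, t2, QH.zero _⟩
      · refine ⟨C.p j w + C.p j w', ?_, n3, ?_, QH.zero _⟩
        · rw [map_add, C.idem, C.idem]
        · rw [map_add, t1, t2, one_add_one2]
  · have n1 : C.p j a ≠ 0 := fun h => h0 (by rw [h, map_zero, LinearMap.zero_apply])
    have n2 : C.p j b ≠ 0 := fun h => h0 (by rw [h, map_zero])
    have n3 : C.p j a + C.p j b ≠ 0 := fun h => h0 (by
      have := eq_iff_add.2 h
      rw [this, hS.alt])
    rcases z2 (τ (C.p j a)) with t1 | t1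
    · exact ⟨_, C.idem j a, n1, t1, C.p j b, C.mem j b, rfl⟩
    · rcases z2 (τ (C.p j b)) with t2 | t2
      · exact ⟨_, C.idem j b, n2, t2, C.p j a, C.mem j a, hS.symm _ _⟩
      · refine ⟨C.p j a + C.p j b, ?_, n3, ?_, C.p j b, C.mem j b, ?_⟩
        · rw [map_add, C.idem, C.idem]
        · rw [map_add, t1, t2, one_add_one2]
        · rw [map_add, LinearMap.add_apply, hS.alt, add_zero]

theorem P1E_of (hSYM : Stmt_SYM) (hEXT : Stmt_EXT) : Stmt_P1E := by
  classical
  intro V B _ _ _ _ _ q φ hS k C hC hT z c hz hzN hc hzc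
  by_contra hQ
  obtain ⟨-, hSb, hSc, hSd⟩ := hSYM V B q φ hS k C
  obtain ⟨a, ha, b, hb, hab⟩ := hc
  have hE := fun j => (hEXT V B q φ hS k C j (hC j).1).1
  choose τ t ht1 ht2 ht3 using hE
  have hs := fun j => P1E_slot hS C hSd j (hC j).2 (τ j) a b
  choose y hy1 hy2 hy3 hy4 using hs
  have hpsum : ∀ f : Fin k → V, (∀ j, C.p j (f j) = f j) → ∀ j, C.p j (∑ i, f i) = f j := by
    intro f hf j
    rw [map_sum, Finset.sum_eq_single j, hf j]
    · intro i _ hij
      rw [← hf i]
      exact C.orth j i (Ne.symm hij) _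
    · intro h
      exact absurd (Finset.mem_univ j) h
  have hφsum : ∀ f : Fin k → V, (∀ j, C.p j (f j) = f j) → φ (∑ i, f i) = 0 := by
    intro f hf
    rw [map_sum]
    refine Finset.sum_eq_zero fun i _ => ?_
    rw [← hf i]
    exact C.mem i _
  set Y : V := ∑ i, y i with hY
  set T : V := ∑ i, t i with hTT
  have hpY : ∀ j, C.p j Y = y j := hpsum y hy1
  have hpT : ∀ j, C.p j T = t j := hpsum t ht1
  have hφY : φ Y = 0 := hφsum y hy1
  have hφT : φ T = 0 := hφsum t ht1
  have hYc : QH q φ Y c := by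
    rw [← hab, hSc a b Y ha hb hφY]
    intro j
    rw [hpY j]
    exact hy4 j
  have hYN : NN q φ Y := (hS.b1 hz hφY hzc hQ hYc).2
  obtain ⟨w, hw, hw'⟩ := hYN.2
  obtain ⟨w', h1, h2, h3⟩ := hS.S hYN (w := w + T) (by rw [map_add, hw, hφT, add_zero])
  have hφ1 : φ (w + w') = 0 := by rw [map_add, hw, h1, one_add_one2]
  have hq1 : q Y (w + w') = 0 := by rw [map_add, hw', h2, add_zero]
  have hind := C.ind Y (w + w') hφY hφ1 hq1
  have hτ : ∀ j, τ j (C.p j (w + w')) = 0 := by
    intro j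
    rcases z2 (τ j (C.p j (w + w'))) with h | h
    · exact h
    · exfalso
      have hR := ht3 j _ (C.idem j (w + w')) h
      have h4 := hind j
      rw [hpY j, hS.symm] at h4
      rcases hR.2.2 (y j) (hy1 j) h4 with h5 | h5
      · exact hy2 j h5
      · rw [← h5, hy3 j] at h
        exact zero_ne_one h
  refine hT (w + w' + T) ⟨by rw [map_add, hφ1, hφT, add_zero], fun j => ?_⟩
    ⟨by rw [map_add, hφ1, hφT, add_zero], w', h1, ?_⟩
  · apply ht3 j _ (C.idem j _)
    rw [map_add, map_add, hτ j, hpT j, ht2 j, zero_add]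
  · have h5 : w + w' + T = (w + T) + w' := by abel
    rw [h5, map_add, LinearMap.add_apply, h3, hS.alt, add_zero]

theorem P1E : Stmt_P1E := P1E_of SYM EXT

end Pool.Agent.AST
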