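import Pool.Agent.AST.BAS
import Pool.Agent.AST.Stmts
import Pool.Agent.AST.LEM0
import Pool.Agent.AST.SYM
import Pool.Agent.AST.LOC

/-!
THEOREM A* (note 1742): Proposition 1 when some component of `H` is local.
-/

set_option autoImplicit false

namespace Pool.Agent.AST

open scoped BigOperators
open Pool.Agent.RFT

theorem add_swap_z {M : Type} [AddCommGroup M] [Module (ZMod 2) M] {a b c : M}
    (h : a = b + c) : b = a + c := by
  rw [h, add_assoc, self_add, add_zero]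

theorem ad1 {V B : Type} [AddCommGroup V] [Module (ZMod 2) V] [AddCommGroup B] [Module (ZMod 2) B]
    (q : V →ₗ[ZMod 2] V →ₗ[ZMod 2] B) (a b x : V) : q (a + b) x = q a x + q b x := by
  rw [map_add, LinearMap.add_apply]

theorem ad2 {V B : Type} [AddCommGroup V] [Module (ZMod 2) V] [AddCommGroup B] [Module (ZMod 2) B]
    (q : V →ₗ[ZMod 2] V →ₗ[ZMod 2] B) (a x y : V) : q a (x + y) = q a x + q a y := map_add _ _ _

theorem P1L_of (hLEM0 : Stmt_LEM0) (hSYM : Stmt_SYM) (hLOC : Stmt_LOC) : Stmt_P1L := by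
  intro V B _ _ _ _ _ q φ hS k C i hi
  obtain ⟨s1, -, -, s4⟩ := hSYM V B q φ hS k C
  obtain ⟨e, he, l1, l2⟩ := hLOC V B q φ hS k C i hi
  have hsy := hS.symm
  -- elements of `H_i`
  have pz : ∀ v, C.p i v = v → φ v = 0 := fun v hv => by rw [← hv]; exact C.mem i v
  have l1' : ∀ h v, C.p i h = h → φ v = 0 → q h v = 0 ∨ q h v = e := by
    intro h v hh hv
    have := l1 h v hv
    rwa [hh] at this
  have l2' : ∀ h, C.p i h = h → h ≠ 0 → ∃ w, C.p i w = w ∧ q h w = e := by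
    intro h hh h0
    have := l2 h (by rwa [hh])
    rwa [hh] at this
  -- vanishing
  have v0 : ∀ h y, C.p i h = h → φ y = 0 → C.p i y = 0 → q h y = 0 := by
    intro h y hh hy hy'
    rw [s4 i h y hh hy, hy', map_zero]
  have v0' : ∀ h y, C.p i h = h → φ y = 0 → C.p i y = 0 → q y h = 0 := by
    intro h y hh hy hy'
    rw [hsy]
    exact v0 h y hh hy hy'
  have q0 : ∀ y, C.p i (y + C.p i y) = 0 := by
    intro y
    rw [map_add, C.idem, self_add]
  have f0 : ∀ y, φ y = 0 → φ (y + C.p i y) = 0 := by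
    intro y hy
    rw [map_add, hy, C.mem, add_zero]
  -- (L1)
  have L1 : ∀ y' u y'' u'', φ y' = 0 → φ u = 0 → φ y'' = 0 → φ u'' = 0 → C.p i y' = 0 →
      C.p i y'' = 0 → q y' u ≠ q y'' u'' + e := by
    intro y' u y'' u'' hy' hu hy'' hu'' h1 h2 h3
    obtain ⟨v, hv⟩ := C.ne i
    obtain ⟨w0, hw0, hw0'⟩ := l2' (C.p i v) (C.idem i v) hv
    have ha : φ (y'' + C.p i v) = 0 := by rw [map_add, hy'', C.mem, add_zero]
    have hb : φ (u'' + C.p i u'' + w0) = 0 := by
      rw [map_add, f0 _ hu'', pz _ hw0, add_zero]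
    have h4 : q (y'' + C.p i v) (u'' + C.p i u'' + w0) = q y'' u'' + e := by
      rw [ad1, ad2 q y'', ad2 q y'', ad2 q (C.p i v) _ w0, v0' _ _ (C.idem i u'') hy'' h2,
        v0' _ _ hw0 hy'' h2, v0 _ _ (C.idem i v) (f0 _ hu'') (q0 _), hw0', add_zero, add_zero,
        zero_add]
    have h5 := s1 _ _ _ _ ha hb hy' hu (h4.trans h3.symm) i
    rw [h1, map_zero, LinearMap.zero_apply, map_add, h2, zero_add, C.idem, map_add, q0, zero_add,
      hw0, hw0'] at h5
    exact he h5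
  have L1' : ∀ y' u y'' u'' (b : B), φ y' = 0 → φ u = 0 → φ y'' = 0 → φ u'' = 0 → C.p i y' = 0 →
      C.p i y'' = 0 → (b = q y' u ∨ b = q y' u + e) → (b = q y'' u'' ∨ b = q y'' u'' + e) →
      q y' u = q y'' u'' := by
    intro y' u y'' u'' b a1 a2 a3 a4 a5 a6 h1 h2
    rcases h1 with h1 | h1 <;> rcases h2 with h2 | h2
    · rw [← h1, h2]
    · exact absurd (h1.symm.trans h2) (L1 _ _ _ _ a1 a2 a3 a4 a5 a6)
    · exact absurd (h2.symm.trans h1) (L1 _ _ _ _ a3 a4 a1 a2 a6 a5)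
    · exact add_right_cancel (h1.symm.trans h2)
  -- (A)
  have A : ∀ w y', φ w = 1 → φ y' = 0 → C.p i y' = 0 →
      (∀ h, C.p i h = h → h ≠ 0 → NN q φ (y' + h)) → ∀ h, C.p i h = h → h ≠ 0 →
      ∃ u, φ u = 0 ∧ (q w h = q y' u ∨ q w h = q y' u + e) := by
    intro w y' hw hy' hpy hN h hh h0
    obtain ⟨h', hh', hq⟩ := l2' h hh h0
    have n1 : h' ≠ 0 := by
      rintro rfl
      rw [map_zero] at hq
      exact he hq.symm
    have n2 : h' + h ≠ 0 := by
      intro h1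
      have h2 : h' = h := eq_iff_add.2 h1
      rw [h2, hS.alt] at hq
      exact he hq.symm
    have p2 : C.p i (h' + h) = h' + h := by rw [map_add, hh', hh]
    obtain ⟨u1, hu1, e1⟩ := hS.NQ (hN h' hh' n1) w
    obtain ⟨u2, hu2, e2⟩ := hS.NQ (hN (h' + h) p2 n2) w
    refine ⟨u1 + u2, by rw [map_add, hu1, hu2, add_zero], ?_⟩
    have h3 : q w h = q y' (u1 + u2) + (q h' u1 + q (h' + h) u2) := by
      have h4 : q w h = q (y' + h') w + q (y' + (h' + h)) w := by
        rw [hsy w h, ← ad1]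
        congr 2
        have : y' + h' + (y' + (h' + h)) = (y' + y') + (h' + h') + h := by abel
        rw [this, self_add, self_add, zero_add, zero_add]
      rw [h4, ← e1, ← e2, ad1 q y' h', ad1 q y' (h' + h), ad2 q y' u1 u2]
      abel
    rcases l1' h' u1 hh' hu1 with h5 | h5 <;> rcases l1' (h' + h) u2 p2 hu2 with h6 | h6
    · left; rw [h3, h5, h6]; simp
    · right; rw [h3, h5, h6]; simp
    · right; rw [h3, h5, h6]; simp
    · left; rw [h3, h5, h6, self_add, add_zero]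
  -- (B)
  have Bs : ∀ y'' (b : B) h, φ y'' = 0 → C.p i y'' = 0 → QH q φ y'' b → C.p i h = h →
      QH q φ (y'' + h) b := by
    rintro y'' b h hy hpy ⟨u, hu, rfl⟩ hh
    refine ⟨u + C.p i u, f0 _ hu, ?_⟩
    rw [ad1, ad2 q y'', v0' _ _ (C.idem i u) hy hpy, v0 _ _ hh (f0 _ hu) (q0 _), add_zero,
      add_zero]
  intro z c hz hnz hc hzc
  by_contra hcon
  have hN0 : ∀ g, φ g = 0 → QH q φ g c → NN q φ g := fun g hg h => (hS.b1 hz hg hzc hcon h).2
  obtain ⟨x, hx, y, hy, rfl⟩ := hc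
  obtain ⟨w, hw⟩ := hS.out
  -- the element `y'`
  have hy' := f0 y hy
  have hpy' := q0 y
  have hN1 : ∀ h, C.p i h = h → h ≠ 0 → NN q φ (y + C.p i y + h) := by
    intro h hh h0
    apply hN0
    · rw [map_add, hy', pz _ hh, add_zero]
    · obtain ⟨w', hw', hw''⟩ : ∃ w', C.p i w' = w' ∧ q h w' = q (C.p i x) (C.p i y) := by
        rcases l1' (C.p i x) (C.p i y) (C.idem i x) (C.mem i y) with h1 | h1
        · exact ⟨0, map_zero _, by rw [h1, map_zero]⟩
        · obtain ⟨w', h2, h3⟩ := l2' h hh h0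
          exact ⟨w', h2, by rw [h1, h3]⟩
      refine ⟨x + C.p i x + w', by rw [map_add, f0 _ hx, pz _ hw', add_zero], ?_⟩
      rw [ad1 q (y + C.p i y) h, ad2 q (y + C.p i y) _ w',
        v0' _ _ hw' hy' hpy', ad2 q h _ w', v0 _ _ hh (f0 _ hx) (q0 _), hw'',
        ad1 q y (C.p i y), ad2 q y x, ad2 q (C.p i y) x,
        hsy y (C.p i x), s4 i (C.p i x) y (C.idem i x) hy, s4 i (C.p i y) x (C.idem i y) hx,
        hsy (C.p i y) (C.p i x), hsy y x]
      have : ∀ a b : B, a + b + (b + b) + 0 + (0 + b) = a + (b + b) + (b + b) := by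
        intro a b; abel
      rw [this, self_add, add_zero, add_zero]
  have A1 := A w _ hw hy' hpy' hN1
  -- `b(h)`
  have key : ∀ h u, C.p i h = h → h ≠ 0 → φ u = 0 →
      (q w h = q (y + C.p i y) u ∨ q w h = q (y + C.p i y) u + e) →
      q (y + C.p i y) u ≠ 0 ∧ (∃ v, q h v = q (y + C.p i y) u) ∧
        ¬ QH q φ h (q (y + C.p i y) u) := by
    intro h u hh h0 hu hwh
    obtain ⟨w', hw', hw''⟩ := l2' h hh h0
    have k1 : q (y + C.p i y) u ≠ 0 := by
      intro h1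
      rw [h1, zero_add] at hwh
      apply h0
      have hr : ∀ v, q h v = 0 ∨ q h v = e := by
        intro v
        rcases z2 (φ v) with h2 | h2
        · exact l1' h v hh h2
        · have h3 := l1' h (v + w) hh (by rw [map_add, h2, hw, one_add_one2])
          have h4 : q h v = q h (v + w) + q w h := by
            rw [hsy w h, ← ad2, add_assoc, self_add, add_zero]
          rcases h3 with h3 | h3 <;> rcases hwh with h5 | h5
          · left; rw [h4, h3, h5, add_zero]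
          · right; rw [h4, h3, h5, zero_add]
          · right; rw [h4, h3, h5, add_zero]
          · left; rw [h4, h3, h5, self_add]
      apply hS.r1
      intro v v'
      rcases hr v with h2 | h2
      · exact Or.inl h2
      · rcases hr v' with h3 | h3
        · exact Or.inr (Or.inl h3)
        · exact Or.inr (Or.inr (by rw [map_add, h2, h3, self_add]))
    refine ⟨k1, ?_, ?_⟩
    · rcases hwh with h1 | h1
      · exact ⟨w, by rw [← h1, hsy]⟩
      · exact ⟨w + w', by rw [ad2, hw'', hsy h w, ← add_swap_z h1]⟩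
    · rintro ⟨v, hv, hv'⟩
      rcases l1' h v hh hv with h1 | h1
      · exact k1 (by rw [← hv', h1])
      · apply L1 (y + C.p i y) u 0 0 hy' hu (map_zero _) (map_zero _) hpy' (map_zero _)
        rw [map_zero, zero_add, ← hv', h1]
  -- same slots
  have slots : ∀ h1 u1 h2 u2, C.p i h1 = h1 → h1 ≠ 0 → φ u1 = 0 →
      (q w h1 = q (y + C.p i y) u1 ∨ q w h1 = q (y + C.p i y) u1 + e) →
      C.p i h2 = h2 → h2 ≠ 0 → φ u2 = 0 →
      (q w h2 = q (y + C.p i y) u2 ∨ q w h2 = q (y + C.p i y) u2 + e) →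
      ∀ g, φ g = 0 → QH q φ g (q (y + C.p i y) u1) → QH q φ g (q (y + C.p i y) u2) := by
    intro h1 u1 h2 u2 a1 a2 a3 a4 b1 b2 b3 b4 g hg hgb
    obtain ⟨-, k2, k3⟩ := key h1 u1 a1 a2 a3 a4
    obtain ⟨s, hs, hs'⟩ := hgb
    have h3 : q g s = q (g + C.p i g) s + q (C.p i g) s := by
      rw [ad1, add_assoc, self_add, add_zero]
    have h4 : q (y + C.p i y) u1 = q (g + C.p i g) s := by
      rw [hs'] at h3
      rcases l1' (C.p i g) s (C.idem i g) hs with h5 | h5
      · rw [h3, h5, add_zero]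
      · rw [h5] at h3
        exact absurd h3 (L1 _ _ _ _ hy' a3 (f0 _ hg) hs hpy' (q0 _))
    have hN2 : ∀ h, C.p i h = h → h ≠ 0 → NN q φ (g + C.p i g + h) := by
      intro h hh _
      have h5 : QH q φ (g + C.p i g + h) (q (y + C.p i y) u1) :=
        Bs _ _ _ (f0 _ hg) (q0 _) ⟨s, hs, h4.symm⟩ hh
      exact (hS.b1 (pz _ a1) (by rw [map_add, f0 _ hg, pz _ hh, add_zero]) k2 k3 h5).2
    obtain ⟨u, hu, hu'⟩ := A w _ hw (f0 _ hg) (q0 _) hN2 h2 b1 b2
    have h6 := L1' _ _ _ _ _ hy' b3 (f0 _ hg) hu hpy' (q0 _) b4 hu'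
    have h7 : QH q φ (g + C.p i g + C.p i g) (q (y + C.p i y) u2) :=
      Bs _ _ _ (f0 _ hg) (q0 _) ⟨u, hu, h6.symm⟩ (C.idem i g)
    rwa [add_assoc, self_add, add_zero] at h7
  -- LEM0 on `H`
  obtain ⟨v, hv⟩ := C.ne i
  obtain ⟨h2, g2, g2'⟩ := l2' (C.p i v) (C.idem i v) hv
  have n2 : h2 ≠ 0 := by
    rintro rfl
    rw [map_zero] at g2'
    exact he g2'.symm
  have n3 : C.p i v + h2 ≠ 0 := by
    intro h1
    have h3 : C.p i v = h2 := eq_iff_add.2 h1
    rw [← h3, hS.alt] at g2'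
    exact he g2'.symm
  have p3 : C.p i (C.p i v + h2) = C.p i v + h2 := by rw [map_add, C.idem, g2]
  obtain ⟨u1, hu1, e1⟩ := A1 _ (C.idem i v) hv
  obtain ⟨u2, hu2, e2⟩ := A1 _ g2 n2
  obtain ⟨u3, hu3, e3⟩ := A1 _ p3 n3
  have hsl := slots _ _ _ _ (C.idem i v) hv hu1 e1 g2 n2 hu2 e2
  have hsl' := slots _ _ _ _ g2 n2 hu2 e2 (C.idem i v) hv hu1 e1
  have hb : q (y + C.p i y) u1 = q (y + C.p i y) u2 := by
    let H := LinearMap.ker φ
    let qH : H →ₗ[ZMod 2] H →ₗ[ZMod 2] B := q.domRestrict₁₂ H H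
    have hqH : ∀ a b : H, qH a b = q a b := fun a b => rfl
    have mH : ∀ a : H, φ (a : V) = 0 := fun a => LinearMap.mem_ker.1 a.2
    have hl : LinkedAlt qH := by
      refine ⟨fun a => hS.alt _, fun a b c d h => ?_⟩
      obtain ⟨s, hs, hs1, hs2⟩ := hS.slot2 (mH a) (mH c) ⟨b, mH b, rfl⟩ ⟨d, mH d, h.symm⟩
      exact ⟨⟨s, LinearMap.mem_ker.2 hs⟩, hs1, hs2⟩
    have hex : ∀ (g : H) (b : B), (∃ y, qH g y = b) ↔ QH q φ g b := by
      intro g b
      constructor
      · rintro ⟨y, hy⟩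
        exact ⟨y, mH y, hy⟩
      · rintro ⟨y, hy, hy'⟩
        exact ⟨⟨y, LinearMap.mem_ker.2 hy⟩, hy'⟩
    refine hLEM0 H B qH hl _ _ (fun g => ?_)
      ⟨⟨y + C.p i y, LinearMap.mem_ker.2 hy'⟩, ⟨u1, LinearMap.mem_ker.2 hu1⟩, rfl⟩
    rw [hex, hex]
    exact ⟨hsl g (mH g), hsl' g (mH g)⟩
  -- contradiction
  obtain ⟨k1, -, -⟩ := key _ _ p3 n3 hu3 e3
  apply k1
  have e4 : q w (C.p i v + h2) = q (y + C.p i y) (u1 + u2) ∨
      q w (C.p i v + h2) = q (y + C.p i y) (u1 + u2) + e := by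
    rw [ad2 q w, ad2 q (y + C.p i y)]
    rcases e1 with e1 | e1 <;> rcases e2 with e2 | e2
    · left; rw [e1, e2]
    · right; rw [e1, e2]; abel
    · right; rw [e1, e2]; abel
    · left; rw [e1, e2]
      have : ∀ a b : B, a + e + (b + e) = a + b + (e + e) := by intro a b; abel
      rw [this, self_add, add_zero]
  have h9 := L1' _ _ _ _ _ hy' hu3 hy' (by rw [map_add, hu1, hu2, add_zero] : φ (u1 + u2) = 0)
    hpy' hpy' e3 e4
  rw [h9, ad2, hb, self_add]

/-- Proposition 1, some component is local -/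
theorem P1L : Stmt_P1L := P1L_of LEM0 SYM LOC

end Pool.Agent.AST
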