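import Pool.Agent.AST.StmtsS

/-!
THEOREM A* (note 1742): Lemma 2, no total element is in `N`, set valued (conversion of the module
LEM2 of helper58).
-/

set_option autoImplicit false

namespace Pool.Agent.AST

open scoped BigOperators
open Pool.Agent.RFT
open Pool.Agent.Helper58.PLine (QData)

/-- the combinations of the components of an element -/
def xsS {V : Type} [AddCommGroup V] [Module (ZMod 2) V] {k : ℕ} (x : Fin k → V) :
    (Fin k → ZMod 2) →ₗ[ZMod 2] V :=
  LinearMap.lsum (ZMod 2) (fun _ => ZMod 2) (ZMod 2) fun j => LinearMap.toSpanSingleton _ _ (x j)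

theorem xsS_apply {V : Type} [AddCommGroup V] [Module (ZMod 2) V] {k : ℕ} (x : Fin k → V)
    (e : Fin k → ZMod 2) : xsS x e = ∑ j, e j • x j := by
  simp [xsS, LinearMap.lsum_apply, LinearMap.toSpanSingleton_apply]

theorem SLEM2_of (hSYM : Stmt_SYMH) (hEXT : Stmt_EXTH) : Stmt_LEM2S := by
  classical
  intro V B Q _ _ _ _ _ D q φ hS k C hC x hx hN
  have hH := hS.toSitH
  obtain ⟨hSa, hSb, hSc, hSd⟩ := hSYM V B q φ hH k C
  have hpsum : ∀ f : Fin k → V, (∀ j, C.p j (f j) = f j) → ∀ j, C.p j (∑ i, f i) = f j := by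
    intro f hf j
    rw [map_sum, Finset.sum_eq_single j, hf j]
    · intro i _ hij
      rw [← hf i]
      exact C.orth j i (Ne.symm hij) _
    · intro h
      exact absurd (Finset.mem_univ j) h
  have hφj : ∀ j v, C.p j v = v → φ v = 0 := by
    intro j v hv
    rw [← hv]
    exact C.mem j v
  have hφsum : ∀ f : Fin k → V, (∀ j, C.p j (f j) = f j) → φ (∑ i, f i) = 0 := by
    intro f hf
    rw [map_sum]
    exact Finset.sum_eq_zero fun i _ => hφj i _ (hf i)
  -- components of combinations
  set X := xsS fun j => C.p j x with hX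
  have hXa : ∀ e, X e = ∑ j, e j • C.p j x := xsS_apply _
  have hXp : ∀ e j, C.p j (X e) = e j • C.p j x := by
    intro e j
    rw [hXa]
    refine hpsum (fun j => e j • C.p j x) ?_ j
    intro j
    rw [map_smul, C.idem]
  have hφX : ∀ e, φ (X e) = 0 := by
    intro e
    rw [hXa]
    refine hφsum (fun j => e j • C.p j x) ?_
    intro j
    rw [map_smul, C.idem]
  -- `q (X e) g` for `g` in a component
  have hqXj : ∀ e j g, C.p j g = g → q (X e) g = e j • q (C.p j x) g := by
    intro e j g hg
    rw [hH.symm, hSd j g (X e) hg (hφX e), hXp, map_smul, hH.symm]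
  have hqX : ∀ e g, φ g = 0 → q (X e) g = ∑ j, e j • q (C.p j x) (C.p j g) := by
    intro e g hg
    conv_lhs => rw [← C.sum g hg]
    rw [map_sum]
    exact Finset.sum_congr rfl fun j _ => hqXj e j _ (C.idem j g)
  have hqXX : ∀ e d, q (X e) (X d) = 0 := by
    intro e d
    rw [hqX e _ (hφX d)]
    refine Finset.sum_eq_zero fun j _ => ?_
    rw [hXp, map_smul, hH.alt, smul_zero, smul_zero]
  have hdXX : ∀ e d, D.q (X e) (X d) = D.z := fun e d => (hS.cmp0 (hφX e) (hφX d)).1 (hqXX e d)
  have hX1 : X (fun _ => 1) = x := by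
    rw [hXa]
    simp only [one_smul]
    exact C.sum x hx.1
  have hdxX : ∀ e, D.q x (X e) = D.z := by
    intro e
    conv_lhs => rw [← hX1]
    exact hdXX _ _
  -- the centralizer of `x` in `H`
  have hcen : ∀ h, φ h = 0 → D.q x h = D.z → ∃ e, h = X e := by
    intro h hh hq
    have hi := C.ind x h hx.1 hh ((hS.cmp0 hx.1 hh).2 hq)
    have h1 : ∀ j, ∃ e : ZMod 2, C.p j h = e • C.p j x := by
      intro j
      rcases (hx.2 j).2.2 (C.p j h) (C.idem j h) (hi j) with h2 | h2
      · exact ⟨0, by rw [h2, zero_smul]⟩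
      · exact ⟨1, by rw [h2, one_smul]⟩
    choose e he using h1
    refine ⟨e, ?_⟩
    rw [hXa, ← C.sum h hh]
    exact Finset.sum_congr rfl fun j _ => he j
  -- (1)
  have hone : ∀ v, φ v = 1 → D.q x v = D.z → ∀ g, φ g = 0 →
      ∃ e, D.q v (g + X e) = D.q (X e) g := by
    intro v hv hxv g hg
    obtain ⟨w', h1, h2, h3⟩ := hS.S hN (w := v + g) (by rw [map_add, hv, hg, add_zero])
    obtain ⟨e, he⟩ := hcen (w' + v) (by rw [map_add, h1, hv, one_add_one2])
      (dadd D h2 hxv)
    refine ⟨e, ?_⟩
    have h4 : w' = v + X e := by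
      rw [← he, add_comm w' v, ← add_assoc, self_add, zero_add]
    have h5 : D.q (v + g) (g + X e) = D.z := by
      have h6 := dadd D h3 (hS.dalt (v + g))
      rw [h4] at h6
      have h7 : v + X e + (v + g) = (v + v) + (g + X e) := by abel
      rwa [h7, self_add, zero_add] at h6
    rw [(dq' D).2 h5, add_comm g (X e), dq_add D (hS.dalt g), D.symm]
  obtain ⟨-, v, hv, hxv⟩ := hN
  -- the subspaces `E u = V_u + H_x`
  let E : V → Submodule (ZMod 2) V := fun u => D.ann u ⊔ LinearMap.range X
  have hE : ∀ u g, g ∈ E u ↔ ∃ m, D.q u g = D.q u (X m) := by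
    intro u g
    constructor
    · intro h
      obtain ⟨a, ha, b, ⟨m, hm⟩, hab⟩ := Submodule.mem_sup.1 h
      refine ⟨m, ?_⟩
      rw [← hab, ← hm, add_comm a, dq_add D ha]
    · rintro ⟨m, hm⟩
      have h1 : g + X m ∈ D.ann u := (dq D).1 hm
      have h2 : X m ∈ LinearMap.range X := ⟨m, rfl⟩
      have h3 := Submodule.add_mem_sup h1 h2
      rwa [add_assoc, self_add, add_zero] at h3
  have hun : ∀ j, (∀ g, C.p j g = g → g ∈ E v) ∨ ∀ g, C.p j g = g → g ∈ E (v + C.p j x) := by
    intro j
    have hxj : ∃ d, C.p j x = X d := by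
      refine ⟨Pi.single j 1, ?_⟩
      rw [hXa, Finset.sum_eq_single j]
      · rw [Pi.single_eq_same, one_smul]
      · intro i _ hij
        rw [Pi.single_eq_of_ne hij, zero_smul]
      · intro h
        exact absurd (Finset.mem_univ j) h
    obtain ⟨dj, hdj⟩ := hxj
    have key : ∀ g, C.p j g = g → g ∈ E v ∨ g ∈ E (v + C.p j x) := by
      intro g hg
      obtain ⟨e, he⟩ := hone v hv hxv g (hφj j g hg)
      have hq1 := hqXj e j g hg
      rcases z2 (e j) with h1 | h1
      · left
        rw [h1, zero_smul] at hq1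
        rw [(hS.cmp0 (hφX e) (hφj j g hg)).1 hq1] at he
        rw [hE]
        exact ⟨e, (dq D).2 he⟩
      · right
        rw [h1, one_smul] at hq1
        rw [(hS.cmp _ _ _ _ (hφX e) (hφj j g hg) (C.mem j x) (hφj j g hg)).1 hq1,
          D.symm (C.p j x) g] at he
        have h2 := dsum D he (D.symm v g)
        have h3 : g + X e + g = (g + g) + X e := by abel
        rw [h3, self_add, zero_add] at h2
        rw [hE]
        refine ⟨e, ?_⟩
        rw [D.symm, add_comm v, ← h2, hdj]
        exact ((dq' D).2 (by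
          rw [add_comm (X dj) v, ← add_assoc, self_add, zero_add]
          exact hdXX _ _))
    by_contra hcon
    push Not at hcon
    obtain ⟨⟨g1, hg1, hg1'⟩, g2, hg2, hg2'⟩ := hcon
    have k1 := (key g1 hg1).resolve_left hg1'
    have k2 := (key g2 hg2).resolve_right hg2'
    rcases key (g1 + g2) (by rw [map_add, hg1, hg2]) with h | h
    · exact hg1' ((Submodule.add_mem_iff_left (E v) k2).1 h)
    · exact hg2' ((Submodule.add_mem_iff_right (E (v + C.p j x)) k1).1 h)
  -- the new `v`
  have hd : ∃ d : Fin k → ZMod 2, ∀ j g, C.p j g = g → g ∈ E (v + X d) := by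
    have h1 : ∀ j, ∃ e : ZMod 2, ∀ g, C.p j g = g → g ∈ E (v + e • C.p j x) := by
      intro j
      rcases hun j with h | h
      · exact ⟨0, fun g hg => by rw [zero_smul, add_zero]; exact h g hg⟩
      · exact ⟨1, fun g hg => by rw [one_smul]; exact h g hg⟩
    choose d hd using h1
    refine ⟨d, fun j g hg => ?_⟩
    obtain ⟨m, hm⟩ := (hE _ _).1 (hd j g hg)
    rw [hE]
    refine ⟨m, ?_⟩
    -- `X d + d j • x_j` commutes with `g` and with `X m`
    have e1 : D.q (v + X d) g = D.q (v + d j • C.p j x) g := by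
      rw [dq']
      have h2 : v + X d + (v + d j • C.p j x) = X d + d j • C.p j x := by
        have : v + X d + (v + d j • C.p j x) = (v + v) + (X d + d j • C.p j x) := by abel
        rw [this, self_add, zero_add]
      rw [h2]
      refine (hS.cmp0 ?_ (hφj j g hg)).1 ?_
      · rw [map_add, hφX, map_smul, C.mem, smul_zero, add_zero]
      · rw [map_add, LinearMap.add_apply, hqXj d j g hg, map_smul, LinearMap.smul_apply,
          self_add]
    have e2 : D.q (v + X d) (X m) = D.q (v + d j • C.p j x) (X m) := by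
      rw [dq']
      have h2 : v + X d + (v + d j • C.p j x) = X d + d j • C.p j x := by
        have : v + X d + (v + d j • C.p j x) = (v + v) + (X d + d j • C.p j x) := by abel
        rw [this, self_add, zero_add]
      rw [h2]
      refine (hS.cmp0 ?_ (hφX m)).1 ?_
      · rw [map_add, hφX, map_smul, C.mem, smul_zero, add_zero]
      · rw [map_add, LinearMap.add_apply, hqXX, zero_add, map_smul, LinearMap.smul_apply,
          hSd j (C.p j x) (X m) (C.idem j x) (hφX m), hXp, map_smul, hH.alt, smul_zero,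
          smul_zero]
    rw [e1, e2, hm]
  obtain ⟨d, hd⟩ := hd
  set u := v + X d with hu
  have hφu : φ u = 1 := by rw [hu, map_add, hv, hφX, add_zero]
  have hxu : D.q x u = D.z := dadd D hxv (hdxX d)
  have huE : ∀ g, φ g = 0 → ∃ m, D.q u g = D.q u (X m) := by
    intro g hg
    rw [← hE, ← C.sum g hg]
    exact (E u).sum_mem fun j _ => hd j _ (C.idem j g)
  -- counting
  have hcount : ∀ g, φ g = 0 → (∀ j, q (C.p j x) (C.p j g) ≠ 0) →
      ∀ m, ∃ e, D.q (X e) g = D.q u (X m) := by
    intro g hg hg' m0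
    have hinj : ∀ e, q (X e) g = 0 → e = 0 := by
      intro e he
      have h1 := C.ind (X e) g (hφX e) hg he
      funext j
      have h2 := h1 j
      rw [hXp, map_smul, LinearMap.smul_apply] at h2
      rcases z2 (e j) with h3 | h3
      · exact h3
      · rw [h3, one_smul] at h2
        exact absurd h2 (hg' j)
    let P := {e : Fin k → ZMod 2 // ∃ m, D.q (X e) g = D.q u (X m)}
    let R := Set.range fun m : Fin k → ZMod 2 => D.q u (X m)
    have hP : ∀ e : P, ∃ m, D.q (X e.1) g = D.q u (X m) := fun e => e.2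
    choose μ hμ using hP
    let f : P → R := fun e => ⟨D.q u (X (e.1 + μ e)), ⟨_, rfl⟩⟩
    let f' : P → R := fun e => ⟨D.q u (X (μ e)), ⟨_, rfl⟩⟩
    have hf' : Function.Injective f' := by
      rintro e e' h
      have h1 : D.q u (X (μ e)) = D.q u (X (μ e')) := congrArg Subtype.val h
      rw [← hμ, ← hμ] at h1
      apply Subtype.ext
      have h2 : q (X (e.1 + e'.1)) g = 0 := by
        rw [map_add X]
        exact (hS.cmp0 (by rw [map_add, hφX, hφX, add_zero]) hg).2 ((dq' D).1 h1)
      exact eq_iff_add.2 (hinj _ h2)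
    have hf : Function.Surjective f := by
      rintro ⟨c, m1, hm1⟩
      obtain ⟨m2, hm2⟩ := huE g hg
      obtain ⟨e, he⟩ := hone u hφu hxu (g + X (m1 + m2)) (by rw [map_add, hg, hφX, add_zero])
      rw [dq_add D (hdXX e (m1 + m2))] at he
      -- `q u (g + X (m1 + m2) + X e) = q u (X (m1 + e))`
      have h1 : D.q u (g + X (m1 + m2) + X e) = D.q u (X (m1 + e)) := by
        rw [dq] at hm2 ⊢
        have h2 : g + X (m1 + m2) + X e + X (m1 + e) = g + X m2 := by
          rw [map_add X m1 m2, map_add X m1 e]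
          have : g + (X m1 + X m2) + X e + (X m1 + X e) =
            (X m1 + X m1) + (X e + X e) + (g + X m2) := by abel
          rw [this, self_add, self_add, zero_add, zero_add]
        rwa [h2]
      have h3 : ∃ m, D.q (X e) g = D.q u (X m) := ⟨m1 + e, by rw [← he, h1]⟩
      refine ⟨⟨e, h3⟩, Subtype.ext ?_⟩
      show D.q u (X (e + μ ⟨e, h3⟩)) = c
      have h4 : D.q u (X (μ ⟨e, h3⟩)) = D.q u (X (m1 + e)) := by
        rw [← hμ, ← h1, he]
      rw [← hm1]
      show _ = D.q u (X m1)
      rw [dq] at h4 ⊢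
      have h5 : X (e + μ ⟨e, h3⟩) + X m1 = X (μ ⟨e, h3⟩) + X (m1 + e) := by
        rw [map_add, map_add]
        abel
      rwa [h5]
    have hfin : Finite P := inferInstance
    have hfinR : Finite R := Finite.of_surjective f hf
    have hb' : Function.Bijective f' := by
      refine Function.Injective.bijective_of_nat_card_le hf' ?_
      exact Nat.card_le_card_of_surjective f hf
    obtain ⟨e, h⟩ := hb'.2 ⟨D.q u (X m0), ⟨_, rfl⟩⟩
    refine ⟨e.1, ?_⟩
    rw [hμ]
    exact congrArg Subtype.val h
  -- two values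
  have hy := fun j => (hEXT V B q φ hH k C j (hC j).1).2 (hC j).2 (C.p j x) (hx.2 j)
  choose y y' hy1 hy1' hy2 hy3 hy4 using hy
  have hD0 : ∀ m, D.q u (X m) = D.z := by
    intro m
    obtain ⟨e, he⟩ := hcount (∑ j, y j) (hφsum y hy1)
      (fun j => by rw [hpsum y hy1 j]; exact hy2 j) m
    obtain ⟨e', he'⟩ := hcount (∑ j, y' j) (hφsum y' hy1')
      (fun j => by rw [hpsum y' hy1' j]; exact hy3 j) m
    have h1 := hSa (X e) (∑ j, y j) (X e') (∑ j, y' j) (hφX e) (hφsum y hy1) (hφX e')
      (hφsum y' hy1') ((hS.cmp _ _ _ _ (hφX e) (hφsum y hy1) (hφX e')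
        (hφsum y' hy1')).2 (he.trans he'.symm))
    have h2 : e = 0 := by
      funext j
      have h3 := h1 j
      rw [hpsum y hy1 j, hpsum y' hy1' j, hXp, hXp, map_smul, map_smul, LinearMap.smul_apply,
        LinearMap.smul_apply] at h3
      rcases z2 (e j) with h4 | h4
      · exact h4
      · exfalso
        rw [h4, one_smul] at h3
        rcases z2 (e' j) with h5 | h5
        · rw [h5, zero_smul] at h3
          exact hy2 j h3
        · rw [h5, one_smul] at h3
          exact hy4 j h3
    rw [← he, h2, map_zero, dz']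
  have huH : ∀ g, φ g = 0 → D.q u g = D.z := by
    intro g hg
    obtain ⟨m, hm⟩ := huE g hg
    rw [hm, hD0]
  have hu0 : u = 0 := by
    apply hS.r1
    intro g _
    left
    rcases z2 (φ g) with h | h
    · exact huH g h
    · have h1 : D.q u (g + u) = D.z := huH _ (by rw [map_add, h, hφu, one_add_one2])
      rwa [dq_add D (hS.dalt u)] at h1
  rw [hu0, map_zero] at hφu
  exact zero_ne_one hφu

end Pool.Agent.AST
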