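import Pool.Agent.AST.SYM
import Pool.Agent.AST.LOC
import Pool.Agent.AST.EXTH
import Pool.Agent.AST.SP1L
import Pool.Agent.AST.SP1E
import Pool.Agent.AST.SLEM2
import Pool.Agent.AST.SBIL
import Pool.Agent.AST.INN
import Pool.Agent.AST.DCP
import Pool.Agent.AST.P23
import Pool.Agent.AST.OSS
import Pool.Agent.AST.SPL
import Pool.Agent.AST.RED
import Pool.Agent.REG10.FN.SLZ
import Pool.Agent.REG10.FN.LZQ
import Pool.Agent.REG10.FN.LKZ

/-!
THEOREM A* (note 1742): Theorem A* for relations, with the set valued first part.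
-/

set_option autoImplicit false

namespace Pool.Agent.AST

open scoped BigOperators
open Pool.Agent.RFT Pool.Agent.ETG Pool.Agent.RFN
open Pool.Agent.Helper58.PLine (QData)

/-- Proposition 1, set valued -/
theorem p1s_all (h0 : Stmt_LEM0) {V B Q : Type} [AddCommGroup V] [Module (ZMod 2) V]
    [AddCommGroup B] [Module (ZMod 2) B] [Finite V] {D : QData V Q}
    {q : V →ₗ[ZMod 2] V →ₗ[ZMod 2] B} {φ : V →ₗ[ZMod 2] ZMod 2} (hS : SitS D q φ) {k : ℕ}
    (C : HC q φ k) (hC : ∀ j, C.Loc j ∨ C.Ext j) : P1S D φ := by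
  by_cases h : ∃ i, C.Loc i
  · obtain ⟨i, hi⟩ := h
    exact SP1L_of h0 SYMH LOCH V B Q D q φ hS k C i hi
  · have h' : ∀ j, C.Ext j ∧ ¬ C.Loc j := fun j =>
      ⟨(hC j).resolve_left fun hj => h ⟨j, hj⟩, fun hj => h ⟨j, hj⟩⟩
    exact SP1E_of SYMH EXTH V B Q D q φ hS k C h'
      (SLEM2_of SYMH EXTH V B Q D q φ hS k C h')

/-- the projection onto `ker φ` -/
def prK {V : Type} [AddCommGroup V] [Module (ZMod 2) V] (φ : V →ₗ[ZMod 2] ZMod 2) {w : V}
    (hw : φ w = 1) : V →ₗ[ZMod 2] LinearMap.ker φ :=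
  (SBIL_.pr φ w).codRestrict (LinearMap.ker φ) fun v => SBIL_.phi_pr hw v

theorem prK_H {V : Type} [AddCommGroup V] [Module (ZMod 2) V] {φ : V →ₗ[ZMod 2] ZMod 2} {w : V}
    (hw : φ w = 1) {v : V} (hv : φ v = 0) : prK φ hw v = ⟨v, hv⟩ :=
  Subtype.ext (SBIL_.pr_H hv)

theorem sasz_of (h0 : Stmt_LEM0) (h1 : Stmt_CMPH) (h2 : Stmt_CNT) : Stmt_ASZ := by
  intro V _ _ _ Z hZ hsm hφ
  by_contra hET
  obtain ⟨φ, hφ0, hφ⟩ := hφ
  obtain ⟨hr1, hrg⟩ := RED V Z hZ hsm hET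
  set D := dat hZ with hD
  have hz : ∀ a b, D.q a b = D.z ↔ Z a b := dat_zero hZ
  have heq : ∀ a b c d, D.q a b = D.q c d ↔ EqQ Z a b c d := dat_eq hZ
  have hS : SitD D φ := by
    refine ⟨fun x => (hz x x).2 (hZ.alt x), fun x hx => hr1 x ?_, fun t ht => ?_, hφ0, ?_⟩
    · intro v w
      rw [← hz, ← hz, ← hz]
      exact hx v w
    · obtain ⟨v, h, h'⟩ := hrg t ht
      exact ⟨v, (hz t v).2 h, h'⟩
    · intro x y
      simp only [hz]
      exact hφ x y
  obtain ⟨w, hw⟩ := hS.out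
  -- the relation on `H`
  let ZH : LinearMap.ker φ → LinearMap.ker φ → Prop := fun a b => Z a b
  have mH : ∀ a : LinearMap.ker φ, φ (a : V) = 0 := fun a => LinearMap.mem_ker.1 a.2
  have heqH : ∀ a b c d : LinearMap.ker φ, EqQ ZH a b c d ↔
      EqQ Z (a : V) (b : V) (c : V) (d : V) := by
    intro a b c d
    constructor
    · rintro ⟨x, e1, e2, e3⟩
      exact ⟨x, e1, e2, e3⟩
    · intro h
      rw [← heq] at h
      obtain ⟨s, hs, e1, e2⟩ := hS.slot2 (c := D.q (a : V) (b : V)) (mH a) (mH c)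
        ⟨b, mH b, rfl⟩ ⟨d, mH d, h.symm⟩
      refine ⟨⟨s, LinearMap.mem_ker.2 hs⟩, ?_, ?_, ?_⟩
      · exact (hz _ _).1 ((dq D).1 e1.symm)
      · exact (hz _ _).1 ((dq D).1 (h.symm.trans e2.symm))
      · exact (hz _ _).1 ((dq' D).1 (e1.trans e2.symm))
  have hZH : LZ ZH := by
    refine ⟨fun a b => hZ.symm _ _, fun a => hZ.zero _, fun a b c => hZ.add _ _ _,
      fun a => hZ.alt _, ?_⟩
    intro a b c d a' b' e1 e2
    rw [heqH] at e1 e2 ⊢
    exact hZ.trans _ _ _ _ _ _ e1 e2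
  have hcard : Nat.card (LinearMap.ker φ) < Nat.card V := by
    classical
    have := Fintype.ofFinite V
    rw [Nat.card_eq_fintype_card, Nat.card_eq_fintype_card]
    refine Fintype.card_lt_of_injective_of_notMem (Subtype.val : LinearMap.ker φ → V)
      Subtype.val_injective (b := w) ?_
    rintro ⟨v, rfl⟩
    rw [mH v] at hw
    exact zero_ne_one hw
  have hHET := hsm _ _ hZH hcard
  have hsep := (slz_proof qlz_proof _ _ hZH hHET).1
  obtain ⟨B, _, _, _, qH, hqH, hqZ, -⟩ := lzq_proof _ _ hZH hsep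
  have hqeq : ∀ a b c d, qH a b = qH c d ↔ EqQ ZH a b c d := by
    intro a b c d
    rw [← LKZ_.eqQ_iff hqH]
    have : (fun v w => qH v w = 0) = ZH := by
      funext v w
      exact propext (hqZ v w).symm
    rw [this]
  let q : V →ₗ[ZMod 2] V →ₗ[ZMod 2] B := qH.compl₁₂ (prK φ hw) (prK φ hw)
  have hqa : ∀ (a b : V) (ha : φ a = 0) (hb : φ b = 0), q a b = qH ⟨a, ha⟩ ⟨b, hb⟩ := by
    intro a b ha hb
    show qH (prK φ hw a) (prK φ hw b) = _
    rw [prK_H hw ha, prK_H hw hb]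
  have hSS : SitS D q φ := by
    refine ⟨hS, ?_, ?_⟩
    · intro x
      show qH (prK φ hw x) (prK φ hw x) = 0
      rw [hqH.diag, map_zero]
    · intro a b c d ha hb hc hd
      rw [hqa a b ha hb, hqa c d hc hd, hqeq, heqH, heq]
  have hOS : OSZ (Zq (q.domRestrict₁₂ (LinearMap.ker φ) (LinearMap.ker φ))) := by
    have h3 : Zq (q.domRestrict₁₂ (LinearMap.ker φ) (LinearMap.ker φ)) = ZH := by
      funext a b
      refine propext ?_
      show q (a : V) (b : V) = 0 ↔ Z a b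
      rw [hqa a b (mH a) (mH b), ← hqZ]
    rw [h3]
    exact OSS _ _ hZH hHET
  obtain ⟨k, C, hC⟩ := h1 V B q φ hφ0 hSS.toSitH hOS
  have hP1 := p1s_all h0 hSS C hC
  have hP2 := p2s_of hS hP1
  -- the group valued map
  obtain ⟨B', _, _, q', hl, hq'⟩ := SBIL V B _ D q φ hSS hP2
  have hz' : ∀ a b, q' a b = 0 ↔ Z a b := by
    intro a b
    have h3 := hq' a b 0 0
    rw [map_zero, dz] at h3
    rw [h3, hz]
  have hSit : Sit q' φ := by
    refine ⟨hl, ?_, ?_, hφ0, ?_⟩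
    · intro x hx
      apply hr1
      intro v w
      rw [← hz', ← hz', ← hz']
      exact hx v w
    · intro t ht
      obtain ⟨v, h, h'⟩ := hrg t ht
      exact ⟨v, (hz' t v).2 h, h'⟩
    · intro x y
      simp only [hz']
      exact hφ x y
  have hNN : ∀ x, NN q' φ x ↔ NS D φ x := by
    intro x
    unfold NN NS
    simp only [hz', hz]
  have hP1' : P1 q' φ := by
    rintro z c hzz hzN ⟨a, ha, b, hb, rfl⟩ ⟨y, hy⟩
    obtain ⟨y', h3, h4⟩ := hP1 z a b hzz (fun h => hzN ((hNN z).2 h)) ha hb ⟨y, (hq' _ _ _ _).1 hy⟩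
    exact ⟨y', h3, (hq' _ _ _ _).2 h4⟩
  obtain ⟨g2, g3⟩ := P23 V B' q' φ hSit hP1'
  have g4 := h2 V B' q' φ hSit g2 g3
  have g5 := INN V B' q' φ hSit g2 g4
  have g6 := DCP V B' q' φ hSit g2 g3 g4 g5
  have g7 := SPL V B' q' hl hsm g6
  have g8 : Zq q' = Z := by
    funext a b
    exact propext (hz' a b)
  rw [g8] at g7
  exact hET g7

end Pool.Agent.AST
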