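import Pool.Agent.AST.SBAS
import Pool.Agent.AST.StmtsF

/-!
THEOREM A* (note 1742): statements of the set valued part (see SBAS.lean).
-/

set_option autoImplicit false

namespace Pool.Agent.AST

open scoped BigOperators
open Pool.Agent.RFT Pool.Agent.ETG Pool.Agent.RFN
open Pool.Agent.Helper58.PLine (QData)

/-- symbols of `H` have components -/
def Stmt_SYMH : Prop := ∀ (V B : Type) [AddCommGroup V] [Module (ZMod 2) V] [AddCommGroup B]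
  [Module (ZMod 2) B] (q : V →ₗ[ZMod 2] V →ₗ[ZMod 2] B) (φ : V →ₗ[ZMod 2] ZMod 2), SitH q φ →
  ∀ (k : ℕ) (C : HC q φ k),
  (∀ x y x' y', φ x = 0 → φ y = 0 → φ x' = 0 → φ y' = 0 → q x y = q x' y' →
    ∀ j, q (C.p j x) (C.p j y) = q (C.p j x') (C.p j y')) ∧
  (∀ x y, φ x = 0 → φ y = 0 → q x y = ∑ j, q (C.p j x) (C.p j y)) ∧
  (∀ x y g, φ x = 0 → φ y = 0 → φ g = 0 → (QH q φ g (q x y) ↔
    ∀ j, QH q φ (C.p j g) (q (C.p j x) (C.p j y)))) ∧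
  (∀ j v y, C.p j v = v → φ y = 0 → q v y = q v (C.p j y))

/-- a local component has one value `e` -/
def Stmt_LOCH : Prop := ∀ (V B : Type) [AddCommGroup V] [Module (ZMod 2) V] [AddCommGroup B]
  [Module (ZMod 2) B] (q : V →ₗ[ZMod 2] V →ₗ[ZMod 2] B) (φ : V →ₗ[ZMod 2] ZMod 2), SitH q φ →
  ∀ (k : ℕ) (C : HC q φ k) (i : Fin k), C.Loc i → ∃ e, e ≠ 0 ∧
  (∀ v w, φ w = 0 → q (C.p i v) w = 0 ∨ q (C.p i v) w = e) ∧
  ∀ v, C.p i v ≠ 0 → ∃ w, C.p i w = w ∧ q (C.p i v) w = e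

/-- a component with a rigid element: `t + D`; if it is not local the rigid elements have rank
at least two -/
def Stmt_EXTH : Prop := ∀ (V B : Type) [AddCommGroup V] [Module (ZMod 2) V] [AddCommGroup B]
  [Module (ZMod 2) B] [Finite V] (q : V →ₗ[ZMod 2] V →ₗ[ZMod 2] B) (φ : V →ₗ[ZMod 2] ZMod 2),
  SitH q φ → ∀ (k : ℕ) (C : HC q φ k) (j : Fin k), C.Ext j →
  (∃ (τ : V →ₗ[ZMod 2] ZMod 2) (t : V), C.p j t = t ∧ τ t = 1 ∧
    ∀ v, C.p j v = v → τ v = 1 → C.Rg j v) ∧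
  (¬ C.Loc j → ∀ v, C.Rg j v → ∃ y y', C.p j y = y ∧ C.p j y' = y' ∧ q v y ≠ 0 ∧ q v y' ≠ 0 ∧
    q v y ≠ q v y')

/-- components of `H` -/
def Stmt_CMPH : Prop := ∀ (V B : Type) [AddCommGroup V] [Module (ZMod 2) V] [AddCommGroup B]
  [Module (ZMod 2) B] [Finite V] (q : V →ₗ[ZMod 2] V →ₗ[ZMod 2] B) (φ : V →ₗ[ZMod 2] ZMod 2),
  φ ≠ 0 → SitH q φ → OSZ (Zq (q.domRestrict₁₂ (LinearMap.ker φ) (LinearMap.ker φ))) →
  ∃ (k : ℕ) (C : HC q φ k), ∀ j, C.Loc j ∨ C.Ext j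

/-- Proposition 1, some component is local, set valued -/
def Stmt_P1LS : Prop := ∀ (V B Q : Type) [AddCommGroup V] [Module (ZMod 2) V] [AddCommGroup B]
  [Module (ZMod 2) B] [Finite V] (D : QData V Q) (q : V →ₗ[ZMod 2] V →ₗ[ZMod 2] B)
  (φ : V →ₗ[ZMod 2] ZMod 2), SitS D q φ → ∀ (k : ℕ) (C : HC q φ k) (i : Fin k), C.Loc i →
  P1S D φ

/-- Lemma 2, set valued: no total element is in `N` -/
def Stmt_LEM2S : Prop := ∀ (V B Q : Type) [AddCommGroup V] [Module (ZMod 2) V] [AddCommGroup B]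
  [Module (ZMod 2) B] [Finite V] (D : QData V Q) (q : V →ₗ[ZMod 2] V →ₗ[ZMod 2] B)
  (φ : V →ₗ[ZMod 2] ZMod 2), SitS D q φ → ∀ (k : ℕ) (C : HC q φ k),
  (∀ j, C.Ext j ∧ ¬ C.Loc j) → ∀ x, C.Tot x → ¬ NS D φ x

/-- Proposition 1, no component is local, set valued -/
def Stmt_P1ES : Prop := ∀ (V B Q : Type) [AddCommGroup V] [Module (ZMod 2) V] [AddCommGroup B]
  [Module (ZMod 2) B] [Finite V] (D : QData V Q) (q : V →ₗ[ZMod 2] V →ₗ[ZMod 2] B)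
  (φ : V →ₗ[ZMod 2] ZMod 2), SitS D q φ → ∀ (k : ℕ) (C : HC q φ k),
  (∀ j, C.Ext j ∧ ¬ C.Loc j) → (∀ x, C.Tot x → ¬ NS D φ x) → P1S D φ

/-- once `N` is closed under addition there is a group valued map -/
def Stmt_SBIL : Prop := ∀ (V B Q : Type) [AddCommGroup V] [Module (ZMod 2) V] [AddCommGroup B]
  [Module (ZMod 2) B] (D : QData V Q) (q : V →ₗ[ZMod 2] V →ₗ[ZMod 2] B)
  (φ : V →ₗ[ZMod 2] ZMod 2), SitS D q φ → P2S D φ →
  ∃ (B' : Type) (_ : AddCommGroup B') (_ : Module (ZMod 2) B')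
  (q' : V →ₗ[ZMod 2] V →ₗ[ZMod 2] B'), LinkedAlt q' ∧
  ∀ a b c d, q' a b = q' c d ↔ D.q a b = D.q c d

end Pool.Agent.AST
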